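import Mathlib
import Pool.Agent.H204R3.SP.Lie

/-!
# Products with other varieties: definitions and statements of the steps
-/

namespace Pool.Agent.Y224.AZ

open Module Pool.Agent.H204R3.SP

noncomputable section

section defs

variable {K X Y Γ : Type} [Field K] [AddCommGroup X] [Module K X] [AddCommGroup Y] [Module K Y]
  [Group Γ]

/-- The direct sum of two representations. -/
def pr (R : Representation K Γ X) (Q : Representation K Γ Y) : Representation K Γ (X × Y) where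
  toFun g := (R g).prodMap (Q g)
  map_one' := by
    rw [map_one, map_one]
    exact LinearMap.prodMap_one
  map_mul' g h := by
    rw [map_mul, map_mul]
    exact (LinearMap.prodMap_mul _ _ _ _).symm

/-- The operator `z` is a logarithm of `G` with respect to `w`: it is the scalar `w a` on the
generalized eigenspace of `G` for `a`. -/
def IsLog (G : End K Y) (w : Additive Kˣ →+ ℚ) (z : End K Y) : Prop :=
  ∀ (a : Kˣ) (y : Y), y ∈ G.maxGenEigenspace (a : K) →
    z y = ((w (Additive.ofMul a) : ℚ) : K) • y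

/-- The operators which are skew for the bilinear form. -/
def sk (B : X →ₗ[K] X →ₗ[K] K) : Submodule K (End K X) where
  carrier := {y | ∀ u v, B (y u) v + B u (y v) = 0}
  zero_mem' := fun u v => by simp
  add_mem' := fun {y z} hy hz u v => by
    have h1 := hy u v
    have h2 := hz u v
    rw [LinearMap.add_apply, LinearMap.add_apply, map_add, map_add, LinearMap.add_apply]
    linear_combination h1 + h2
  smul_mem' := fun c y hy u v => by
    have h1 := hy u v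
    rw [LinearMap.smul_apply, LinearMap.smul_apply, map_smul, map_smul, LinearMap.smul_apply,
      smul_eq_mul, smul_eq_mul]
    linear_combination c * h1

/-- Multilinear maps on `X` the values of which are multilinear forms on `Y`. -/
abbrev MF (K X Y κ ι : Type) [Field K] [AddCommGroup X] [Module K X] [AddCommGroup Y]
    [Module K Y] : Type :=
  MultilinearMap K (fun _ : κ => X) (MultilinearMap K (fun _ : ι => Y) K)

/-- A subgroup of finite index fixes the tensor. -/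
def Inv (R : Representation K Γ X) (Q : Representation K Γ Y) {κ ι : Type}
    (T : MF K X Y κ ι) : Prop :=
  ∃ Δ : Subgroup Γ, Δ.FiniteIndex ∧ ∀ g ∈ Δ, ∀ (v : κ → X) (y : ι → Y),
    T (fun i => R g (v i)) (fun j => Q g (y j)) = T v y

/-- The product of bilinear forms. -/
def IsProd {m : ℕ} (C : Set (X →ₗ[K] X →ₗ[K] K)) (P : MultilinearMap K (fun _ : Fin m × Fin 2 => X) K) :
    Prop :=
  ∃ (σ : Equiv.Perm (Fin m × Fin 2)) (B : Fin m → X →ₗ[K] X →ₗ[K] K), (∀ l, B l ∈ C) ∧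
    ∀ v, P v = ∏ l, B l (v (σ (l, 0))) (v (σ (l, 1)))

end defs

/-- (LOGEX) Logarithms exist. -/
def S_LOGEX : Prop :=
  ∀ (K Y : Type) [Field K] [CharZero K] [IsAlgClosed K] [AddCommGroup Y] [Module K Y]
    [FiniteDimensional K Y] (G : End K Y) (w : Additive Kˣ →+ ℚ),
    (∀ y, G y = 0 → y = 0) → ∃ z, IsLog G w z

/-- (LOG) Logarithms are in the Lie algebra. -/
def S_LOG : Prop :=
  ∀ (K Y Γ : Type) [Field K] [CharZero K] [IsAlgClosed K] [AddCommGroup Y] [Module K Y]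
    [FiniteDimensional K Y] [Group Γ] (Q : Representation K Γ Y) (g : Γ)
    (w : Additive Kˣ →+ ℚ) (z : End K Y), IsLog (Q g) w z → z ∈ lieT Q (1 : Γ →* K)

/-- (LOGC) Logarithms preserve stable subspaces, and commute there if powers commute there. -/
def S_LOGC : Prop :=
  ∀ (K Y : Type) [Field K] [CharZero K] [IsAlgClosed K] [AddCommGroup Y] [Module K Y]
    [FiniteDimensional K Y] (G G' z z' : End K Y) (w w' : Additive Kˣ →+ ℚ) (W : Submodule K Y),
    (∀ y, G y = 0 → y = 0) → (∀ y, G' y = 0 → y = 0) → (∀ y ∈ W, G y ∈ W) →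
    (∀ y ∈ W, G' y ∈ W) → IsLog G w z → IsLog G' w' z' →
    (∀ y ∈ W, z y ∈ W) ∧ ∀ n n' : ℕ, 0 < n → 0 < n' →
      (∀ y ∈ W, (G ^ n) ((G' ^ n') y) = (G' ^ n') ((G ^ n) y)) → ∀ y ∈ W, z (z' y) = z' (z y)

/-- (LOGP) Logarithms of direct sums and of conjugates. -/
def S_LOGP : Prop :=
  (∀ (K X Y : Type) [Field K] [CharZero K] [IsAlgClosed K] [AddCommGroup X] [Module K X]
    [FiniteDimensional K X] [AddCommGroup Y] [Module K Y] [FiniteDimensional K Y] (n : ℕ)
    (b : Basis (Fin n) K X) (a : Fin n → Kˣ) (F x : End K X) (G z : End K Y)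
    (w : Additive Kˣ →+ ℚ), (∀ i, F (b i) = (a i : K) • b i) →
    (∀ i, x (b i) = ((w (Additive.ofMul (a i)) : ℚ) : K) • b i) → IsLog G w z →
    IsLog (F.prodMap G) w (x.prodMap z)) ∧
  ∀ (K Y : Type) [Field K] [CharZero K] [AddCommGroup Y] [Module K Y] (P P' G z : End K Y)
    (w : Additive Kˣ →+ ℚ), P * P' = 1 → P' * P = 1 → IsLog G w z →
    IsLog (P * G * P') w (P * z * P')

/-- (SPG) A Lie algebra with a skew element of rank one, which is stable under conjugation by a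
strongly irreducible group of similitudes, contains all skew operators. -/
def S_SPG : Prop :=
  ∀ (K V G : Type) [Field K] [CharZero K] [IsAlgClosed K] [AddCommGroup V] [Module K V]
    [FiniteDimensional K V] [Group G] (r : Representation K G V) (c : G → K)
    (B : V →ₗ[K] V →ₗ[K] K) (L : Submodule K (End K V)) (N : End K V),
    (∀ v, B v v = 0) → (∀ u, (∀ v, B u v = 0) → u = 0) →
    (∀ g u v, B (r g u) (r g v) = c g * B u v) →
    (∀ Δ : Subgroup G, Δ.FiniteIndex → ∀ W : Submodule K V, (∀ g ∈ Δ, ∀ u ∈ W, r g u ∈ W) →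
      W = ⊥ ∨ W = ⊤) →
    (∀ y ∈ L, ∀ z ∈ L, y * z - z * y ∈ L) → (∀ g, ∀ y ∈ L, r g * y * r g⁻¹ ∈ L) →
    N ∈ L → N ∈ sk B → finrank K (LinearMap.range N) = 1 → sk B ≤ L

/-- (SIM) Ideals, brackets, and stable subspaces of the Lie algebra of skew operators. -/
def S_SIM : Prop :=
  ∀ (K V : Type) [Field K] [CharZero K] [AddCommGroup V] [Module K V] [FiniteDimensional K V]
    (B : V →ₗ[K] V →ₗ[K] K), (∀ v, B v v = 0) → (∀ u, (∀ v, B u v = 0) → u = 0) →
    (∀ J : Submodule K (End K V), (∀ y ∈ sk B, ∀ j ∈ J, y * j - j * y ∈ J) →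
      (∃ j ∈ J, j ∈ sk B ∧ j ≠ 0) → sk B ≤ J) ∧
    (∀ J : Submodule K (End K V), (∀ y ∈ sk B, ∀ z ∈ sk B, y * z - z * y ∈ J) → sk B ≤ J) ∧
    ∀ W : Submodule K V, (∀ y ∈ sk B, ∀ v ∈ W, y v ∈ W) → W = ⊥ ∨ W = ⊤

/-- (DIM) The dimension of the Lie algebra of skew operators. -/
def S_DIM : Prop :=
  ∀ (K V : Type) [Field K] [CharZero K] [AddCommGroup V] [Module K V] [FiniteDimensional K V]
    (B : V →ₗ[K] V →ₗ[K] K), (∀ v, B v v = 0) → (∀ u, (∀ v, B u v = 0) → u = 0) →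
    finrank K V * (finrank K V + 1) ≤ 2 * finrank K (sk B)

/-- (ODD) There are no forms in an odd number of variables. -/
def S_ODD : Prop :=
  ∀ (K X : Type) [Field K] [CharZero K] [IsAlgClosed K] [AddCommGroup X] [Module K X]
    [FiniteDimensional K X] (x e f : End K X), x * x = (1 / 4 : K) • 1 →
    x * e - e * x = e → x * f - f * x = -f →
    (∀ v, x v = -(1 / 2 : K) • v → e v = 0 → v = 0) →
    (∀ v, x v = (1 / 2 : K) • v → f v = 0 → v = 0) →
    ∀ (k : ℕ) (φ : MultilinearMap K (fun _ : Fin k => X) K), Odd k → Kills e φ → Kills f φ → φ = 0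

/-- (INJ) A generic element is injective. -/
def S_INJ : Prop :=
  ∀ (K X : Type) [Field K] [CharZero K] [AddCommGroup X] [Module K X] [FiniteDimensional K X]
    (A : Submodule K X) (N : Submodule K (End K X)) (ι : Type) [Fintype ι] (p : ι → End K X),
    (∀ v, (∀ i, p i v = 0) → v = 0) → (∀ i, ∀ v ∈ A, p i v ∈ A) →
    (∀ i, ∀ e ∈ N, ∀ v ∈ A, e (p i v) = p i (e v)) →
    (∀ i, ∃ e ∈ N, ∀ v ∈ A, e (p i v) = 0 → p i v = 0) → ∃ e ∈ N, ∀ v ∈ A, e v = 0 → v = 0

/-- (GRP) Forms which are killed by square-zero operators with elements of rank one are products of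
bilinear forms. -/
def S_GRP : Prop :=
  ∀ (K X : Type) [Field K] [CharZero K] [IsAlgClosed K] [AddCommGroup X] [Module K X]
    [FiniteDimensional K X] (E : Set (End K X)) (ω : X →ₗ[K] X →ₗ[K] K) (ι : Type) [Fintype ι]
    (U : ι → Submodule K X) (p : ι → End K X),
    (∀ e ∈ E, e * e = 0) → (∀ e ∈ E, ∀ t : K, t • e ∈ E) → (∀ u, (∀ v, ω u v = 0) → u = 0) →
    (∀ e ∈ E, ∀ u v, ω (e u) v + ω u (e v) = 0) →
    (∀ i, ∀ e ∈ E, ∀ u ∈ U i, e u ∈ U i) →
    (∀ i, ∀ W ≤ U i, (∀ e ∈ E, ∀ u ∈ W, e u ∈ W) → W = ⊥ ∨ W = U i) →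
    (∀ i v, p i v ∈ U i) → (∀ i, ∀ u ∈ U i, p i u = u) →
    (∀ i, ∀ e ∈ E, ∀ v, e (p i v) = p i (e v)) → (∀ v, (∀ i, p i v = 0) → v = 0) →
    (⨆ i, U i = ⊤) → (∀ i, 2 ≤ finrank K (U i)) → (∀ i, ∃ e ∈ E, finrank K ((U i).map e) = 1) →
    (∀ i, ∃ B : X →ₗ[K] X →ₗ[K] K, (∃ u ∈ U i, ∃ v ∈ U i, B u v ≠ 0) ∧
      ∀ e ∈ E, ∀ u ∈ U i, ∀ v ∈ U i, B (e u) v + B u (e v) = 0) →
    ∀ (m : ℕ) (φ : MultilinearMap K (fun _ : Fin m × Fin 2 => X) K), (∀ e ∈ E, Kills e φ) →
      φ ∈ Submodule.span K {P | IsProd {B | ∀ e ∈ E, ∀ u v, B (e u) v + B u (e v) = 0} P}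

/-- (FIN) Separation of the variables. -/
def S_FIN : Prop :=
  ∀ (K X Y Γ κ ι : Type) [Field K] [CharZero K] [AddCommGroup X] [Module K X]
    [FiniteDimensional K X] [AddCommGroup Y] [Module K Y] [FiniteDimensional K Y] [Group Γ]
    [Fintype κ] [Fintype ι] (R : Representation K Γ X) (Q : Representation K Γ Y) (c : Γ → K)
    (C : Set (MultilinearMap K (fun _ : κ => X) K)) (T : MF K X Y κ ι),
    (∀ g, c g ≠ 0) → (∀ P ∈ C, ∃ Δ : Subgroup Γ, Δ.FiniteIndex ∧ ∀ g ∈ Δ, ∀ v,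
      P (fun i => R g (v i)) = c g * P v) → Inv R Q T →
    (∀ y : ι → Y, ∃ P ∈ Submodule.span K C, ∀ v, T v y = P v) →
    T ∈ Submodule.span K {T' | ∃ P ∈ C, ∃ w : MultilinearMap K (fun _ : ι => Y) K,
      (∃ Δ : Subgroup Γ, Δ.FiniteIndex ∧ ∀ g ∈ Δ, ∀ y, c g * w (fun j => Q g (y j)) = w y) ∧
      ∀ v y, T' v y = P v * w y}

/-- (USE) The operators on `X` whose extension by zero is in the Lie algebra kill the forms. -/
def S_USE : Prop :=
  ∀ (K X Y Γ κ ι : Type) [Field K] [CharZero K] [AddCommGroup X] [Module K X] [AddCommGroup Y]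
    [Module K Y] [Group Γ] [Fintype κ] [DecidableEq κ] [Fintype ι] (R : Representation K Γ X)
    (Q : Representation K Γ Y) (a : End K X) (θ : Y →ₗ[K] K), θ ≠ 0 →
    (∀ g y, θ (Q g y) = θ y) → a.prodMap (0 : End K Y) ∈ lieT (pr R Q) (1 : Γ →* K) →
    ∀ T : MF K X Y κ ι, Inv R Q T → ∀ (v : κ → X) (y : ι → Y),
      ∑ i, T (Function.update v i (a (v i))) y = 0

/-- (ALT) From tensors to alternating forms on the powers. -/
def S_ALT : Prop :=
  ∀ (K X Y : Type) [Field K] [CharZero K] [AddCommGroup X] [Module K X] [AddCommGroup Y]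
    [Module K Y] (C : Set (X →ₗ[K] X →ₗ[K] K)) (ι : Type) [Fintype ι]
    (D : Set (MultilinearMap K (fun _ : ι => Y) K)) (n m : ℕ)
    (f : (Fin n → X) [⋀^Fin m × Fin 2]→ₗ[K] (MultilinearMap K (fun _ : ι => Y) K)),
    (∀ c : Fin m × Fin 2 → Fin n, ∃ T ∈ Submodule.span K {T' : MF K X Y (Fin m × Fin 2) ι |
      ∃ P, IsProd C P ∧ ∃ w ∈ D, ∀ v y, T' v y = P v * w y},
        ∀ v y, f (fun i => Pi.single (c i) (v i)) y = T v y) →
    f ∈ Submodule.span K {g : (Fin n → X) [⋀^Fin m × Fin 2]→ₗ[K] (MultilinearMap K (fun _ : ι => Y) K) |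
      ∃ B : Fin m → (Fin n → X) [⋀^Fin 2]→ₗ[K] K,
        (∀ l i j, ∃ B₁ ∈ Submodule.span K (C ∪ LinearMap.flip '' C), ∀ u v : X,
          B l ![Pi.single i u, Pi.single j v] = B₁ u v) ∧
        ∃ w ∈ D, ∀ v y, g v y = (∑ σ : Equiv.Perm (Fin m × Fin 2), ((Equiv.Perm.sign σ : ℤ) : K) *
          ∏ l, B l ![v (σ (l, 0)), v (σ (l, 1))]) * w y}

end

end Pool.Agent.Y224.AZ
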