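import Mathlib
import Pool.Agent.Y224.AZ.Stm
import Pool.Agent.Y224.CP.S6

/-!
# The Lie algebra generated by pairs of operators
-/

set_option linter.unusedSectionVars false
set_option linter.unusedSimpArgs false

namespace Pool.Agent.Y224.AZ

open Module Pool.Agent.H204R3.SP Pool.Agent.H204R3.GP Pool.Agent.W522.U Pool.Agent.Y224.CP

noncomputable section

variable {K X Y Γ : Type} [Field K] [CharZero K] [AddCommGroup X] [Module K X]
  [AddCommGroup Y] [Module K Y] [Group Γ] {R : Representation K Γ X} {Q : Representation K Γ Y}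
  {χ : Γ →* K}

/-- Pairs of operators: weak Hodge elements on `X` with companions on `Y`. -/
structure Pairs (R : Representation K Γ X) (Q : Representation K Γ Y) (χ : Γ →* K)
    (SP : Set (End K X × End K Y)) : Prop where
  gen : Gen R χ (Prod.fst '' SP)
  mem : ∀ p ∈ SP, (p.1 + (1 / 2 : K) • 1).prodMap p.2 ∈ lieT (pr R Q) (1 : Γ →* K)
  conj : ∀ g, ∀ p ∈ SP, (R g * p.1 * R g⁻¹, Q g * p.2 * Q g⁻¹) ∈ SP

/-- The generated Lie algebra. -/
def hull (SP : Set (End K X × End K Y)) : Submodule K (End K X × End K Y) :=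
  sInf {L | SP ⊆ L ∧ ∀ p ∈ L, ∀ q ∈ L, p * q - q * p ∈ L}

variable {SP : Set (End K X × End K Y)}

theorem hull_le {L : Submodule K (End K X × End K Y)} (h1 : SP ⊆ L)
    (h2 : ∀ p ∈ L, ∀ q ∈ L, p * q - q * p ∈ L) : hull SP ≤ L := sInf_le ⟨h1, h2⟩

theorem mem_hull {p : End K X × End K Y} (hp : p ∈ SP) : p ∈ hull SP := by
  unfold hull
  rw [Submodule.mem_sInf]
  exact fun L hL => hL.1 hp

theorem hull_br {p q : End K X × End K Y} (hp : p ∈ hull SP) (hq : q ∈ hull SP) :
    p * q - q * p ∈ hull SP := by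
  unfold hull at *
  rw [Submodule.mem_sInf] at *
  exact fun L hL => hL.2 p (hp L hL) q (hq L hL)

theorem br_fst (p q : End K X × End K Y) : (p * q - q * p).1 = p.1 * q.1 - q.1 * p.1 := rfl

theorem br_snd (p q : End K X × End K Y) : (p * q - q * p).2 = p.2 * q.2 - q.2 * p.2 := rfl

theorem prodMap_br (a a' : End K X) (b b' : End K Y) :
    a.prodMap b * a'.prodMap b' - a'.prodMap b' * a.prodMap b =
      (a * a' - a' * a).prodMap (b * b' - b' * b) := rfl

theorem shift_br {A : Type} [Ring A] [Algebra K A] (p q : A) (c d : K) :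
    (p + c • (1 : A)) * (q + d • 1) - (q + d • 1) * (p + c • 1) = p * q - q * p := by
  simp only [add_mul, mul_add, smul_mul_assoc, mul_smul_comm, mul_one, one_mul]
  module

/-- Elements of the hull are in the Lie algebra of the sum, up to a scalar. -/
theorem hull_lie (h : Pairs R Q χ SP) {p : End K X × End K Y} (hp : p ∈ hull SP) :
    ∃ c : K, (p.1 + c • 1).prodMap p.2 ∈ lieT (pr R Q) (1 : Γ →* K) := by
  let L : Submodule K (End K X × End K Y) :=
    { carrier := {p | ∃ c : K, (p.1 + c • 1).prodMap p.2 ∈ lieT (pr R Q) (1 : Γ →* K)}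
      zero_mem' := ⟨0, by
        have h1 : ((0 : End K X × End K Y).1 + (0 : K) • 1).prodMap (0 : End K X × End K Y).2 =
            0 := by
          rw [zero_smul, add_zero]
          exact LinearMap.ext fun v => rfl
        rw [h1]
        exact Submodule.zero_mem _⟩
      add_mem' := by
        rintro p q ⟨c, hc⟩ ⟨d, hd⟩
        refine ⟨c + d, ?_⟩
        have h1 := Submodule.add_mem _ hc hd
        have h2 : ((p + q).1 + (c + d) • 1).prodMap (p + q).2 =
            (p.1 + c • 1).prodMap p.2 + (q.1 + d • 1).prodMap q.2 := by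
          refine LinearMap.ext fun v => Prod.ext ?_ rfl
          change (p.1 + q.1) v.1 + (c + d) • v.1 = p.1 v.1 + c • v.1 + (q.1 v.1 + d • v.1)
          rw [LinearMap.add_apply, add_smul]
          abel
        rw [h2]
        exact h1
      smul_mem' := by
        rintro t p ⟨c, hc⟩
        refine ⟨t * c, ?_⟩
        have h1 := Submodule.smul_mem _ t hc
        have h2 : ((t • p).1 + (t * c) • 1).prodMap (t • p).2 =
            t • (p.1 + c • 1).prodMap p.2 := by
          refine LinearMap.ext fun v => Prod.ext ?_ rfl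
          change t • p.1 v.1 + (t * c) • v.1 = t • (p.1 v.1 + c • v.1)
          rw [smul_add, mul_smul]
        rw [h2]
        exact h1 }
  have hle : hull SP ≤ L := by
    refine hull_le (fun p hp => ⟨1 / 2, h.mem p hp⟩) ?_
    rintro p ⟨c, hc⟩ q ⟨d, hd⟩
    refine ⟨0, ?_⟩
    have h1 := lieT_bracket _ _ hc hd
    rw [prodMap_br] at h1
    have h2 : (p.1 + c • (1 : End K X)) * (q.1 + d • 1) - (q.1 + d • 1) * (p.1 + c • 1) =
        (p * q - q * p).1 + (0 : K) • 1 := by
      rw [br_fst, zero_smul, add_zero, shift_br]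
    rw [h2] at h1
    exact h1
  exact hle hp

theorem hull_lie_br (h : Pairs R Q χ SP) {p q : End K X × End K Y} (hp : p ∈ hull SP)
    (hq : q ∈ hull SP) :
    (p * q - q * p).1.prodMap (p * q - q * p).2 ∈ lieT (pr R Q) (1 : Γ →* K) := by
  obtain ⟨c, hc⟩ := hull_lie h hp
  obtain ⟨d, hd⟩ := hull_lie h hq
  have h1 := lieT_bracket _ _ hc hd
  rw [prodMap_br] at h1
  have h2 : (p.1 + c • (1 : End K X)) * (q.1 + d • 1) - (q.1 + d • 1) * (p.1 + c • 1) =
      (p * q - q * p).1 := by
    rw [br_fst, shift_br]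
  rw [h2] at h1
  exact h1

/-- Elements of the hull are in the Lie algebra of `X`. -/
theorem hull_lieT (h : Pairs R Q χ SP) {p : End K X × End K Y} (hp : p ∈ hull SP) :
    p.1 ∈ lieT R χ := by
  have hle : hull SP ≤ (lieT R χ).comap (LinearMap.fst K (End K X) (End K Y)) := by
    refine hull_le (fun p hp => ?_) fun p hp q hq => ?_
    · exact (h.gen.weak p.1 ⟨p, hp, rfl⟩).1
    · exact lieT_bracket _ _ hp hq
  exact hle hp

/-- Conjugates of elements of the hull. -/
theorem hull_conj (h : Pairs R Q χ SP) (g : Γ) {p : End K X × End K Y} (hp : p ∈ hull SP) :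
    (R g * p.1 * R g⁻¹, Q g * p.2 * Q g⁻¹) ∈ hull SP := by
  let L : Submodule K (End K X × End K Y) :=
    { carrier := {p | (R g * p.1 * R g⁻¹, Q g * p.2 * Q g⁻¹) ∈ hull SP}
      zero_mem' := by
        have h1 : (R g * (0 : End K X × End K Y).1 * R g⁻¹,
            Q g * (0 : End K X × End K Y).2 * Q g⁻¹) = 0 := by
          refine Prod.ext ?_ ?_
          · change R g * 0 * R g⁻¹ = 0
            rw [mul_zero, zero_mul]
          · change Q g * 0 * Q g⁻¹ = 0
            rw [mul_zero, zero_mul]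
        change _ ∈ hull SP
        rw [h1]
        exact Submodule.zero_mem _
      add_mem' := by
        intro p q hp hq
        have h1 := (hull SP).add_mem
          (show (R g * p.1 * R g⁻¹, Q g * p.2 * Q g⁻¹) ∈ hull SP from hp)
          (show (R g * q.1 * R g⁻¹, Q g * q.2 * Q g⁻¹) ∈ hull SP from hq)
        have h2 : (R g * (p + q).1 * R g⁻¹, Q g * (p + q).2 * Q g⁻¹) =
            (R g * p.1 * R g⁻¹, Q g * p.2 * Q g⁻¹) + (R g * q.1 * R g⁻¹, Q g * q.2 * Q g⁻¹) := by
          refine Prod.ext ?_ ?_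
          · change R g * (p.1 + q.1) * R g⁻¹ = _
            rw [mul_add, add_mul]
            rfl
          · change Q g * (p.2 + q.2) * Q g⁻¹ = _
            rw [mul_add, add_mul]
            rfl
        change _ ∈ hull SP
        rw [h2]
        exact h1
      smul_mem' := by
        intro t p hp
        have h1 := (hull SP).smul_mem t
          (show (R g * p.1 * R g⁻¹, Q g * p.2 * Q g⁻¹) ∈ hull SP from hp)
        have h2 : (R g * (t • p).1 * R g⁻¹, Q g * (t • p).2 * Q g⁻¹) =
            t • (R g * p.1 * R g⁻¹, Q g * p.2 * Q g⁻¹) := by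
          refine Prod.ext ?_ ?_
          · change R g * (t • p.1) * R g⁻¹ = t • (R g * p.1 * R g⁻¹)
            rw [mul_smul_comm, smul_mul_assoc]
          · change Q g * (t • p.2) * Q g⁻¹ = t • (Q g * p.2 * Q g⁻¹)
            rw [mul_smul_comm, smul_mul_assoc]
        change _ ∈ hull SP
        rw [h2]
        exact h1 }
  have hRR : R g⁻¹ * R g = 1 := by rw [← map_mul, inv_mul_cancel, map_one]
  have hQQ : Q g⁻¹ * Q g = 1 := by rw [← map_mul, inv_mul_cancel, map_one]
  have hcm : ∀ {Z : Type} [AddCommGroup Z] [Module K Z] (P P' a b : End K Z), P' * P = 1 →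
      (P * a * P') * (P * b * P') - (P * b * P') * (P * a * P') =
        P * (a * b - b * a) * P' := by
    intro Z _ _ P P' a b hP
    have h1 : (P * a * P') * (P * b * P') = P * (a * b) * P' := by
      calc (P * a * P') * (P * b * P') = P * a * (P' * P) * b * P' := by noncomm_ring
        _ = P * (a * b) * P' := by rw [hP]; noncomm_ring
    have h2 : (P * b * P') * (P * a * P') = P * (b * a) * P' := by
      calc (P * b * P') * (P * a * P') = P * b * (P' * P) * a * P' := by noncomm_ring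
        _ = P * (b * a) * P' := by rw [hP]; noncomm_ring
    rw [h1, h2, mul_sub, sub_mul]
  have hle : hull SP ≤ L := by
    refine hull_le (fun p hp => mem_hull (h.conj g p hp)) fun p hp q hq => ?_
    have h1 := hull_br hp hq
    have h2 : (R g * p.1 * R g⁻¹, Q g * p.2 * Q g⁻¹) * (R g * q.1 * R g⁻¹, Q g * q.2 * Q g⁻¹) -
        (R g * q.1 * R g⁻¹, Q g * q.2 * Q g⁻¹) * (R g * p.1 * R g⁻¹, Q g * p.2 * Q g⁻¹) =
        (R g * (p * q - q * p).1 * R g⁻¹, Q g * (p * q - q * p).2 * Q g⁻¹) := by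
      refine Prod.ext ?_ ?_
      · exact hcm _ _ _ _ hRR
      · exact hcm _ _ _ _ hQQ
    rw [h2] at h1
    exact h1
  exact hle hp

/-- Stable subspaces of `Y`. -/
theorem hull_stable {W : Submodule K Y} (hW : ∀ p ∈ SP, ∀ y ∈ W, p.2 y ∈ W)
    {p : End K X × End K Y} (hp : p ∈ hull SP) : ∀ y ∈ W, p.2 y ∈ W := by
  let L : Submodule K (End K X × End K Y) :=
    { carrier := {p | ∀ y ∈ W, p.2 y ∈ W}
      zero_mem' := fun y _ => W.zero_mem
      add_mem' := fun hp hq y hy => W.add_mem (hp y hy) (hq y hy)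
      smul_mem' := fun t p hp y hy => W.smul_mem t (hp y hy) }
  have hle : hull SP ≤ L := hull_le (fun p hp => hW p hp) fun p hp q hq y hy =>
    W.sub_mem (hp _ (hq y hy)) (hq _ (hp y hy))
  exact hle hp

/-- Commuting elements on a stable subspace. -/
theorem hull_comm {W : Submodule K Y} (hW : ∀ p ∈ SP, ∀ y ∈ W, p.2 y ∈ W)
    (hc : ∀ p ∈ SP, ∀ q ∈ SP, ∀ y ∈ W, p.2 (q.2 y) = q.2 (p.2 y))
    {p q : End K X × End K Y} (hp : p ∈ hull SP) (hq : q ∈ hull SP) :
    ∀ y ∈ W, p.2 (q.2 y) = q.2 (p.2 y) := by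
  have key : ∀ q : End K X × End K Y, (∀ y ∈ W, q.2 y ∈ W) →
      (∀ p ∈ SP, ∀ y ∈ W, p.2 (q.2 y) = q.2 (p.2 y)) →
      ∀ p ∈ hull SP, ∀ y ∈ W, p.2 (q.2 y) = q.2 (p.2 y) := by
    intro q hqW hq p hp
    let L : Submodule K (End K X × End K Y) :=
      { carrier := {p | (∀ y ∈ W, p.2 y ∈ W) ∧ ∀ y ∈ W, p.2 (q.2 y) = q.2 (p.2 y)}
        zero_mem' := ⟨fun y _ => W.zero_mem, fun y _ => (map_zero q.2).symm⟩
        add_mem' := fun {p p'} hp hp' => ⟨fun y hy => W.add_mem (hp.1 y hy) (hp'.1 y hy),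
          fun y hy => by
            change p.2 (q.2 y) + p'.2 (q.2 y) = q.2 (p.2 y + p'.2 y)
            rw [hp.2 y hy, hp'.2 y hy, map_add]⟩
        smul_mem' := fun t p hp => ⟨fun y hy => W.smul_mem t (hp.1 y hy), fun y hy => by
            change t • p.2 (q.2 y) = q.2 (t • p.2 y)
            rw [hp.2 y hy, map_smul]⟩ }
    have hle : hull SP ≤ L := hull_le (fun p hp => ⟨hW p hp, hq p hp⟩) fun p hp p' hp' =>
      ⟨fun y hy => W.sub_mem (hp.1 _ (hp'.1 y hy)) (hp'.1 _ (hp.1 y hy)), fun y hy => by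
        change p.2 (p'.2 (q.2 y)) - p'.2 (p.2 (q.2 y)) = q.2 (p.2 (p'.2 y) - p'.2 (p.2 y))
        rw [hp'.2 y hy, hp.2 y hy, hp.2 _ (hp'.1 y hy), hp'.2 _ (hp.1 y hy), map_sub]⟩
    exact (hle hp).2
  refine key q (hull_stable hW hq) (fun p hp y hy => ?_) p hp
  exact (key p (hW p hp) (fun p' hp' y hy => hc p' hp' p hp y hy) q hq y hy).symm

/-- The operators on `X` whose extension by zero is in the Lie algebra of the sum. -/
def NP (R : Representation K Γ X) (Q : Representation K Γ Y) : Submodule K (End K X) where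
  carrier := {a | a.prodMap (0 : End K Y) ∈ lieT (pr R Q) (1 : Γ →* K)}
  zero_mem' := by
    have h1 : (0 : End K X).prodMap (0 : End K Y) = 0 := LinearMap.ext fun v => rfl
    change _ ∈ lieT (pr R Q) (1 : Γ →* K)
    rw [h1]
    exact Submodule.zero_mem _
  add_mem' := by
    intro a b ha hb
    have h1 : (a + b).prodMap (0 : End K Y) = a.prodMap 0 + b.prodMap 0 :=
      LinearMap.ext fun v => Prod.ext rfl (add_zero (0 : Y)).symm
    change _ ∈ lieT (pr R Q) (1 : Γ →* K)
    rw [h1]
    exact Submodule.add_mem _ ha hb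
  smul_mem' := by
    intro t a ha
    have h1 : (t • a).prodMap (0 : End K Y) = t • a.prodMap 0 :=
      LinearMap.ext fun v => Prod.ext rfl (smul_zero t).symm
    change _ ∈ lieT (pr R Q) (1 : Γ →* K)
    rw [h1]
    exact Submodule.smul_mem _ t ha

theorem np_br (h : Pairs R Q χ SP) {p : End K X × End K Y} (hp : p ∈ hull SP) {a : End K X}
    (ha : a ∈ NP R Q) : p.1 * a - a * p.1 ∈ NP R Q := by
  obtain ⟨c, hc⟩ := hull_lie h hp
  have h1 := lieT_bracket _ _ hc ha
  rw [prodMap_br] at h1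
  have h2 : (p.1 + c • (1 : End K X)) * a - a * (p.1 + c • 1) = p.1 * a - a * p.1 := by
    simp only [add_mul, mul_add, smul_mul_assoc, mul_smul_comm, mul_one, one_mul]
    abel
  have h3 : p.2 * (0 : End K Y) - 0 * p.2 = 0 := by rw [mul_zero, zero_mul, sub_zero]
  rw [h2, h3] at h1
  exact h1

theorem np_conj (g : Γ) {a : End K X} (ha : a ∈ NP R Q) : R g * a * R g⁻¹ ∈ NP R Q := by
  have h1 := lieT_conj (pr R Q) (1 : Γ →* K) g ha
  have h2 : pr R Q g * a.prodMap (0 : End K Y) * pr R Q g⁻¹ =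
      (R g * a * R g⁻¹).prodMap (0 : End K Y) := by
    refine LinearMap.ext fun v => Prod.ext rfl ?_
    change Q g ((0 : End K Y) (Q g⁻¹ v.2)) = 0
    rw [LinearMap.zero_apply, map_zero]
  rw [h2] at h1
  exact h1

end

end Pool.Agent.Y224.AZ
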