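import Mathlib
import Pool.Agent.Y224.AZ.Hull
import Pool.Agent.Y224.CP.S1

/-!
# The skew operators on a symplectic subspace lift to operators which act trivially on `Y`
-/

set_option linter.unusedSectionVars false
set_option linter.unusedSimpArgs false

namespace Pool.Agent.Y224.AZ

open Module Pool.Agent.H204R3.SP Pool.Agent.H204R3.GP Pool.Agent.W522.U Pool.Agent.W529.Ta
open Pool.Agent.W528.Odd Pool.Agent.Y126.OT Pool.Agent.TH118.CR Pool.Agent.Y126.Toric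
open Pool.Agent.Y126.JP Pool.Agent.Y224.CP
open Pool.Agent.W528.Tor (AltDual)

noncomputable section

variable {K X Y Γ : Type} [Field K] [CharZero K] [IsAlgClosed K] [AddCommGroup X] [Module K X]
  [FiniteDimensional K X] [AddCommGroup Y] [Module K Y] [FiniteDimensional K Y] [Group Γ]
  {R : Representation K Γ X} {Q : Representation K Γ Y} {χ : Γ →* K}
  {SP : Set (End K X × End K Y)} {U : Submodule K X}

/-- A nondegenerate alternating form on a strongly irreducible subspace. -/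
structure Frm (R : Representation K Γ X) (χ : Γ →* K) (U : Submodule K X)
    (om : U →ₗ[K] U →ₗ[K] K) : Prop where
  alt : ∀ v, om v v = 0
  nd : ∀ u, (∀ v, om u v = 0) → u = 0
  inv : ∃ Δ : Subgroup Γ, Δ.FiniteIndex ∧ ∃ h : ∀ g ∈ Δ, ∀ u ∈ U, R g u ∈ U,
    ∀ (g : Δ) (u v : U), om (resR R Δ U h g u) (resR R Δ U h g v) = χ g.1 * om u v
  skew : ∀ a ∈ lieT R χ, ∀ y : End K U, (∀ u : U, ((y u : U) : X) = a u) → y ∈ sk om

theorem exists_frm (ω : X →ₗ[K] X →ₗ[K] K) (hnd : ∀ u, (∀ v, ω u v = 0) → u = 0)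
    (hωR : ∀ g u v, ω (R g u) (R g v) = χ g * ω u v) (hss : HasProj R) (hU : SI R U)
    (halt : AltDual R χ U) : ∃ om : U →ₗ[K] U →ₗ[K] K, Frm R χ U om := by
  obtain ⟨Δ₁, hΔ₁, hUΔ₁⟩ := id hU.2.1
  obtain ⟨Δ₂, hΔ₂, B, hB0, hBalt, hB⟩ := halt
  obtain ⟨Δ, hΔd⟩ : ∃ Δ, Δ = Δ₁ ⊓ Δ₂ := ⟨_, rfl⟩
  have hΔ : Δ.FiniteIndex := by rw [hΔd]; infer_instance
  have hUΔ : ∀ g ∈ Δ, ∀ u ∈ U, R g u ∈ U := fun g hg => hUΔ₁ g (by rw [hΔd] at hg; exact hg.1)
  have hBΔ : ∀ g ∈ Δ, ∀ u ∈ U, ∀ v ∈ U, B (R g u) (R g v) = χ g * B u v :=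
    fun g hg => hB g (by rw [hΔd] at hg; exact hg.2)
  refine ⟨B.compl₁₂ U.subtype U.subtype, fun v => hBalt v v.2, fun u hu => ?_,
    ⟨Δ, hΔ, hUΔ, fun g u v => hBΔ g.1 g.2 u u.2 v v.2⟩, fun a ha y hy u v => ?_⟩
  · apply Subtype.ext
    exact du_left hU hU.2.1 hΔ hB0 hBΔ u u.2 (fun v hv => hu ⟨v, hv⟩)
  · change B (y u) v + B u (y v) = 0
    rw [hy, hy]
    exact lieT_skew ω hnd hωR hss hU.2.1 hΔ B hBΔ ha u u.2 v v.2

/-- The operators on `U` which lift. -/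
def lift (J : Submodule K (End K X × End K Y)) (U : Submodule K X) : Submodule K (End K U) where
  carrier := {y | ∃ p ∈ J, ∀ u : U, ((y u : U) : X) = p.1 u}
  zero_mem' := ⟨0, J.zero_mem, fun u => rfl⟩
  add_mem' := by
    rintro y y' ⟨p, hp, hy⟩ ⟨p', hp', hy'⟩
    refine ⟨p + p', J.add_mem hp hp', fun u => ?_⟩
    rw [LinearMap.add_apply, Submodule.coe_add, hy, hy']
    rfl
  smul_mem' := by
    rintro t y ⟨p, hp, hy⟩
    refine ⟨t • p, J.smul_mem t hp, fun u => ?_⟩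
    rw [LinearMap.smul_apply, Submodule.coe_smul, hy]
    rfl

theorem lift_br {J J' J'' : Submodule K (End K X × End K Y)}
    (h : ∀ p ∈ J, ∀ q ∈ J', p * q - q * p ∈ J'') {y z : End K U} (hy : y ∈ lift J U)
    (hz : z ∈ lift J' U) : y * z - z * y ∈ lift J'' U := by
  obtain ⟨p, hp, hy⟩ := hy
  obtain ⟨q, hq, hz⟩ := hz
  refine ⟨p * q - q * p, h p hp q hq, fun u => ?_⟩
  rw [LinearMap.sub_apply, Submodule.coe_sub, Module.End.mul_apply, Module.End.mul_apply, hy, hz,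
    hz, hy]
  rfl

theorem sk_lift (hSPG : S_SPG) (ω : X →ₗ[K] X →ₗ[K] K) (hnd : ∀ u, (∀ v, ω u v = 0) → u = 0)
    (hωR : ∀ g u v, ω (R g u) (R g v) = χ g * ω u v) (hss : HasProj R) (hU : SI R U)
    (h : Pairs R Q χ SP) (hne : SP.Nonempty) (h2 : 2 ≤ finrank K U)
    (h4 : ¬4 ∣ finrank K U ∨ finrank K U = 4) {om : U →ₗ[K] U →ₗ[K] K} (F : Frm R χ U om) :
    sk om ≤ lift (hull SP) U := by
  obtain ⟨Δ, hΔ, hUΔ, hinv⟩ := F.inv
  have hanti := alt_anti F.alt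
  have hndr : ∀ u, (∀ v, om v u = 0) → u = 0 := fun u hu => F.nd u fun v => by
    rw [hanti, hu, neg_zero]
  have hle : invL (Prod.fst '' SP) U ≤ lift (hull SP) U := by
    refine invL_le ?_ fun y hy z hz => lift_br (fun p hp q hq => hull_br hp hq) hy hz
    rintro D ⟨_, ⟨p, hp, rfl⟩, hD⟩
    exact ⟨(2 : K) • p, (hull SP).smul_mem _ (mem_hull hp), fun u => hD u⟩
  have hsk : ∀ y ∈ lift (hull SP) U, y ∈ sk om := by
    rintro y ⟨p, hp, hy⟩
    exact F.skew p.1 (hull_lieT h hp) y hy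
  obtain ⟨p₀, hp₀⟩ := hne
  obtain ⟨hx₀, hxx⟩ := h.gen.weak p₀.1 ⟨p₀, hp₀, rfl⟩
  have hst := lieT_stable ω hnd hωR hss hU.2.1 hx₀
  obtain ⟨D, hD⟩ : ∃ D : End K U, ∀ u : U, ((D u : U) : X) = (2 : K) • p₀.1 u :=
    ⟨(2 : K) • p₀.1.restrict hst, fun u => rfl⟩
  have hDi : D ∈ invs (Prod.fst '' SP) U := ⟨p₀.1, ⟨p₀, hp₀, rfl⟩, hD⟩
  have hD2 := invs_sq h.gen hDi
  have hirr : ∀ W : Submodule K U, (∀ Y ∈ invL (Prod.fst '' SP) U, Y * Y = (1 / 4 : K) • 1 →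
      ∀ u ∈ W, Y u ∈ W) → W = ⊥ ∨ W = ⊤ := by
    intro W hW
    refine invL_irr ω hnd hωR hss hU h.gen W fun y hy => ?_
    let L : Submodule K (End K U) :=
      { carrier := {y | ∀ u ∈ W, y u ∈ W}
        zero_mem' := fun u _ => W.zero_mem
        add_mem' := fun hy hz u hu => W.add_mem (hy u hu) (hz u hu)
        smul_mem' := fun t y hy u hu => W.smul_mem t (hy u hu) }
    have hL : invL (Prod.fst '' SP) U ≤ L := by
      refine invL_le (fun D' hD' u hu => ?_) fun y hy z hz u hu =>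
        W.sub_mem (hy _ (hz u hu)) (hz _ (hy u hu))
      have h1 := hW ((1 / 2 : K) • D') ((invL _ U).smul_mem _ (mem_invL hD')) (by
        rw [smul_mul_assoc, mul_smul_comm, invs_sq h.gen hD', smul_smul]
        norm_num) u hu
      have h3 := W.smul_mem (2 : K) h1
      rw [LinearMap.smul_apply, smul_smul] at h3
      norm_num at h3
      exact h3
    exact hL hy
  have hset := setup (fun y hy z hz => invL_br hy hz)
    (fun y hy u w => hsk y (hle hy) u w) hirr F.nd hndr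
  have hsc : Pool.Agent.Y91.JP.Scal (invL (Prod.fst '' SP) U) := scal hirr
  have hntr : Nontrivial U := Module.nontrivial_of_finrank_pos (R := K) (by omega)
  have hne : D ≠ 0 := by
    rintro rfl
    rw [mul_zero] at hD2
    exact zero_ne_one hD2
  obtain ⟨c, hc, hr⟩ := Pool.Agent.Y91.P.Two.rank_one_odd hset hsc (altF_adj F.alt hndr)
    (adj_trace hndr) h4 (S := {D | D ∈ invL (Prod.fst '' SP) U ∧ D * D = 1}) (fun D hD => hD)
    (fun L hL hbr => hset.gen L (fun D hD hD2 => hL ⟨hD, hD2⟩) hbr) (D := D) ⟨mem_invL hDi, hD2⟩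
    hne
  refine hSPG K U Δ (resR R Δ U hUΔ) (fun g => χ g.1) om (lift (hull SP) U) c F.alt F.nd hinv
    (sIrr_res hU Δ hΔ hUΔ) (fun y hy z hz => lift_br (fun p hp q hq => hull_br hp hq) hy hz) ?_
    (hle hc.1) (hsk c (hle hc.1)) hr
  rintro g y ⟨p, hp, hy⟩
  refine ⟨_, hull_conj h g.1 hp, fun u => ?_⟩
  change R g.1 ((y (resR R Δ U hUΔ g⁻¹ u) : U) : X) = R g.1 (p.1 (R g.1⁻¹ u))
  rw [hy]
  rfl

end

end Pool.Agent.Y224.AZ
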