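import Mathlib
import Pool.Agent.Y224.AZ.Lift

/-!
# The ideals of the elements which act trivially on the parts of `Y`
-/

set_option linter.unusedSectionVars false
set_option linter.unusedSimpArgs false

namespace Pool.Agent.Y224.AZ

open Module Pool.Agent.H204R3.SP Pool.Agent.H204R3.GP Pool.Agent.W522.U Pool.Agent.W529.Ta
open Pool.Agent.W528.Odd Pool.Agent.Y126.OT Pool.Agent.TH118.CR Pool.Agent.Y126.Toric
open Pool.Agent.Y126.JP Pool.Agent.Y224.CP
open Pool.Agent.W528.Tor (AltDual)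

noncomputable section

variable {K X Y Γ : Type} [Field K] [CharZero K] [IsAlgClosed K] [AddCommGroup X] [Module K X]
  [FiniteDimensional K X] [AddCommGroup Y] [Module K Y] [FiniteDimensional K Y] [Group Γ]
  {R : Representation K Γ X} {Q : Representation K Γ Y} {χ : Γ →* K}
  {SP : Set (End K X × End K Y)} {U : Submodule K X} {om : U →ₗ[K] U →ₗ[K] K}

/-- The elements of the hull in the Lie algebra of the sum which kill the subspaces `W j`, `j` in
`s`. -/
def idl (R : Representation K Γ X) (Q : Representation K Γ Y) (SP : Set (End K X × End K Y))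
    {ι : Type} (W : ι → Submodule K Y) (s : Set ι) : Submodule K (End K X × End K Y) where
  carrier := {q | q ∈ hull SP ∧ q.1.prodMap q.2 ∈ lieT (pr R Q) (1 : Γ →* K) ∧
    ∀ j ∈ s, ∀ y ∈ W j, q.2 y = 0}
  zero_mem' := ⟨Submodule.zero_mem _, by
    have h1 : (0 : End K X × End K Y).1.prodMap (0 : End K X × End K Y).2 = 0 :=
      LinearMap.ext fun v => rfl
    rw [h1]
    exact Submodule.zero_mem _, fun j _ y _ => rfl⟩
  add_mem' := by
    rintro p q ⟨hp1, hp2, hp3⟩ ⟨hq1, hq2, hq3⟩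
    refine ⟨Submodule.add_mem _ hp1 hq1, ?_, fun j hj y hy => ?_⟩
    · have h1 : (p + q).1.prodMap (p + q).2 = p.1.prodMap p.2 + q.1.prodMap q.2 :=
        LinearMap.ext fun v => rfl
      rw [h1]
      exact Submodule.add_mem _ hp2 hq2
    · change p.2 y + q.2 y = 0
      rw [hp3 j hj y hy, hq3 j hj y hy, add_zero]
  smul_mem' := by
    rintro t p ⟨hp1, hp2, hp3⟩
    refine ⟨Submodule.smul_mem _ t hp1, ?_, fun j hj y hy => ?_⟩
    · have h1 : (t • p).1.prodMap (t • p).2 = t • p.1.prodMap p.2 :=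
        LinearMap.ext fun v => rfl
      rw [h1]
      exact Submodule.smul_mem _ t hp2
    · change t • p.2 y = 0
      rw [hp3 j hj y hy, smul_zero]

variable {ι : Type} {W : ι → Submodule K Y}

theorem idl_br (h : Pairs R Q χ SP) (hW : ∀ j, ∀ p ∈ SP, ∀ y ∈ W j, p.2 y ∈ W j) {s t : Set ι}
    {p q : End K X × End K Y} (hp : p ∈ idl R Q SP W s) (hq : q ∈ idl R Q SP W t) :
    p * q - q * p ∈ idl R Q SP W (s ∪ t) := by
  refine ⟨hull_br hp.1 hq.1, hull_lie_br h hp.1 hq.1, ?_⟩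
  rintro j (hj | hj) y hy
  · change p.2 (q.2 y) - q.2 (p.2 y) = 0
    rw [hp.2.2 j hj y hy, map_zero, hp.2.2 j hj _ (hull_stable (hW j) hq.1 y hy), sub_zero]
  · change p.2 (q.2 y) - q.2 (p.2 y) = 0
    rw [hq.2.2 j hj y hy, map_zero, hq.2.2 j hj _ (hull_stable (hW j) hp.1 y hy), sub_zero]

theorem idl_br' (h : Pairs R Q χ SP) (hW : ∀ j, ∀ p ∈ SP, ∀ y ∈ W j, p.2 y ∈ W j) {t : Set ι}
    {p q : End K X × End K Y} (hp : p ∈ hull SP) (hq : q ∈ idl R Q SP W t) :
    p * q - q * p ∈ idl R Q SP W t := by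
  refine ⟨hull_br hp hq.1, hull_lie_br h hp hq.1, fun j hj y hy => ?_⟩
  change p.2 (q.2 y) - q.2 (p.2 y) = 0
  rw [hq.2.2 j hj y hy, map_zero, hq.2.2 j hj _ (hull_stable (hW j) hp y hy), sub_zero]

/-- Commutators kill the parts on which the elements commute. -/
theorem lift_abelian (hSIM : S_SIM) (h : Pairs R Q χ SP) (F : Frm R χ U om)
    (hsk : sk om ≤ lift (hull SP) U) (hW : ∀ j, ∀ p ∈ SP, ∀ y ∈ W j, p.2 y ∈ W j) {s : Set ι}
    (hc : ∀ j ∈ s, ∀ p ∈ SP, ∀ q ∈ SP, ∀ y ∈ W j, p.2 (q.2 y) = q.2 (p.2 y)) :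
    sk om ≤ lift (idl R Q SP W s) U := by
  refine (hSIM K U om F.alt F.nd).2.1 _ fun y hy z hz => ?_
  refine lift_br (J := hull SP) (J' := hull SP) (fun p hp q hq => ?_) (hsk hy) (hsk hz)
  refine ⟨hull_br hp hq, hull_lie_br h hp hq, fun j hj y hy => ?_⟩
  change p.2 (q.2 y) - q.2 (p.2 y) = 0
  rw [hull_comm (hW j) (hc j hj) hp hq y hy, sub_self]

/-- Parts of small dimension. -/
theorem lift_small (hSIM : S_SIM) (hDIM : S_DIM) (ω : X →ₗ[K] X →ₗ[K] K)
    (hnd : ∀ u, (∀ v, ω u v = 0) → u = 0)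
    (hωR : ∀ g u v, ω (R g u) (R g v) = χ g * ω u v) (hss : HasProj R) (hU : SI R U)
    (h : Pairs R Q χ SP) (F : Frm R χ U om)
    (hsk : sk om ≤ lift (hull SP) U) (hW : ∀ j, ∀ p ∈ SP, ∀ y ∈ W j, p.2 y ∈ W j) (j : ι)
    (hdim : 2 * finrank K (W j) ^ 2 < finrank K U * (finrank K U + 1)) :
    sk om ≤ lift (idl R Q SP W {j}) U := by
  have hD0 : sk om ≤ lift (idl R Q SP W ∅) U := lift_abelian hSIM h F hsk hW fun j hj => hj.elim
  obtain ⟨Δ₁, hΔ₁, hUΔ₁⟩ := id hU.2.1
  obtain ⟨P, hP1, hP2, -⟩ := hss Δ₁ hΔ₁ U hUΔ₁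
  obtain ⟨W', hW'⟩ := Submodule.exists_isCompl (W j)
  obtain ⟨ρU, hρU⟩ : ∃ ρU : (End K X × End K Y) →ₗ[K] End K U, ∀ q u,
      ρU q u = P.codRestrict U hP1 (q.1 u) := by
    refine ⟨{ toFun := fun q => (P.codRestrict U hP1) ∘ₗ q.1 ∘ₗ U.subtype,
              map_add' := fun p q => ?_, map_smul' := fun t q => ?_ }, fun q u => rfl⟩
    · refine LinearMap.ext fun u => ?_
      change P.codRestrict U hP1 (p.1 u + q.1 u) = _
      rw [map_add]
      rfl
    · refine LinearMap.ext fun u => ?_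
      change P.codRestrict U hP1 (t • q.1 u) = _
      rw [map_smul]
      rfl
  obtain ⟨ρW, hρW⟩ : ∃ ρW : (End K X × End K Y) →ₗ[K] End K (W j), ∀ q w,
      ρW q w = (W j).projectionOnto W' hW' (q.2 w) := by
    refine ⟨{ toFun := fun q => ((W j).projectionOnto W' hW') ∘ₗ q.2 ∘ₗ (W j).subtype,
              map_add' := fun p q => ?_, map_smul' := fun t q => ?_ }, fun q u => rfl⟩
    · refine LinearMap.ext fun u => ?_
      change (W j).projectionOnto W' hW' (p.2 u + q.2 u) = _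
      rw [map_add]
      rfl
    · refine LinearMap.ext fun u => ?_
      change (W j).projectionOnto W' hW' (t • q.2 u) = _
      rw [map_smul]
      rfl
  obtain ⟨D0, hD0d⟩ : ∃ D0, D0 = idl R Q SP W ∅ := ⟨_, rfl⟩
  have hres : ∀ q ∈ D0, ∀ u : U, ((ρU q u : U) : X) = q.1 u := by
    intro q hq u
    rw [hρU]
    rw [hD0d] at hq
    have h1 := lieT_stable ω hnd hωR hss hU.2.1 (hull_lieT h hq.1) u u.2
    exact hP2 _ h1
  have hresW : ∀ q ∈ D0, ρW q = 0 → ∀ y ∈ W j, q.2 y = 0 := by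
    intro q hq h0 y hy
    rw [hD0d] at hq
    have h1 := hull_stable (hW j) hq.1 y hy
    have h2 := LinearMap.congr_fun h0 ⟨y, hy⟩
    rw [hρW] at h2
    have h3 : (W j).projectionOnto W' hW' (q.2 y) = ⟨q.2 y, h1⟩ :=
      Submodule.projectionOnto_apply_left hW' ⟨q.2 y, h1⟩
    have h4 : (⟨q.2 y, h1⟩ : W j) = 0 := h3.symm.trans h2
    exact congrArg Subtype.val h4
  have hex : ∃ q ∈ D0, ρW q = 0 ∧ ρU q ≠ 0 := by
    by_contra hcon
    push Not at hcon
    have h1 : finrank K (D0.map ρU) ≤ finrank K (D0.map ρW) := by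
      have e1 := LinearMap.finrank_range_add_finrank_ker (ρU.domRestrict D0)
      have e2 := LinearMap.finrank_range_add_finrank_ker (ρW.domRestrict D0)
      have e3 : LinearMap.ker (ρW.domRestrict D0) ≤ LinearMap.ker (ρU.domRestrict D0) := by
        intro q hq
        exact hcon q.1 q.2 hq
      have e4 := Submodule.finrank_mono e3
      rw [LinearMap.range_domRestrict] at e1 e2
      omega
    have h2 : finrank K (sk om) ≤ finrank K (D0.map ρU) := by
      refine Submodule.finrank_mono fun y hy => ?_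
      obtain ⟨q, hq, hqy⟩ := hD0 hy
      rw [← hD0d] at hq
      refine ⟨q, hq, LinearMap.ext fun u => Subtype.ext ?_⟩
      rw [hres q hq, hqy]
    have h3 : finrank K (D0.map ρW) ≤ finrank K (W j) * finrank K (W j) :=
      (Submodule.finrank_le (D0.map ρW)).trans_eq (Module.finrank_linearMap K K (W j) (W j))
    have h4 := hDIM K U om F.alt F.nd
    have h5 : finrank K (W j) ^ 2 = finrank K (W j) * finrank K (W j) := pow_two _
    rw [h5] at hdim
    omega
  obtain ⟨q, hq, hq0, hqU⟩ := hex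
  have hqI : q ∈ idl R Q SP W {j} := by
    have hq' := hq
    rw [hD0d] at hq'
    refine ⟨hq'.1, hq'.2.1, ?_⟩
    rintro i rfl
    exact hresW q hq hq0
  refine (hSIM K U om F.alt F.nd).1 _ (fun y hy z hz => ?_) ⟨ρU q, ⟨q, hqI, hres q hq⟩, ?_, hqU⟩
  · exact lift_br (J := hull SP) (fun p hp q hq => idl_br' h hW hp hq) (hsk hy) hz
  · exact F.skew q.1 (hull_lieT h hqI.1) _ (hres q hq)

/-- The two kinds of parts together. -/
theorem lift_all [Fintype ι] (hSIM : S_SIM) (h : Pairs R Q χ SP) (F : Frm R χ U om)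
    (hsk : sk om ≤ lift (hull SP) U) (hW : ∀ j, ∀ p ∈ SP, ∀ y ∈ W j, p.2 y ∈ W j)
    (htop : ⨆ j, W j = ⊤) (hj : ∀ j, sk om ≤ lift (idl R Q SP W {j}) U) :
    ∀ y ∈ sk om, ∃ a ∈ NP R Q, ∀ u : U, ((y u : U) : X) = a u := by
  classical
  have key : ∀ s : Finset ι, sk om ≤ lift (idl R Q SP W (s : Set ι)) U := by
    intro s
    induction s using Finset.induction_on with
    | empty =>
      rw [Finset.coe_empty]
      exact lift_abelian hSIM h F hsk hW fun j hj => hj.elim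
    | insert j s _ ih =>
      refine (hSIM K U om F.alt F.nd).2.1 _ fun y hy z hz => ?_
      rw [Finset.coe_insert, Set.insert_eq]
      exact lift_br (fun p hp q hq => idl_br h hW hp hq) (hj j hy) (ih hz)
  intro y hy
  obtain ⟨q, hq, hqy⟩ := key Finset.univ hy
  have hq0 : q.2 = 0 := by
    have h1 : ⨆ j, W j ≤ LinearMap.ker q.2 :=
      iSup_le fun j w hw => hq.2.2 j (Finset.mem_coe.2 (Finset.mem_univ j)) w hw
    rw [htop] at h1
    exact LinearMap.ext fun w => h1 (Submodule.mem_top (x := w))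
  refine ⟨q.1, ?_, hqy⟩
  have h1 := hq.2.1
  rw [hq0] at h1
  exact h1

/-- A nonzero element which acts trivially on `Y`. -/
theorem lift_unip (hSIM : S_SIM) (ω : X →ₗ[K] X →ₗ[K] K)
    (hnd : ∀ u, (∀ v, ω u v = 0) → u = 0)
    (hωR : ∀ g u v, ω (R g u) (R g v) = χ g * ω u v) (hss : HasProj R) (hU : SI R U)
    (h : Pairs R Q χ SP) (F : Frm R χ U om) (hNP : ∀ a ∈ NP R Q, a ∈ lieT R χ)
    (hsk : sk om ≤ lift (hull SP) U) {a : End K X} (ha : a ∈ NP R Q) (ha0 : U.map a ≠ ⊥) :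
    ∀ y ∈ sk om, ∃ a ∈ NP R Q, ∀ u : U, ((y u : U) : X) = a u := by
  let J : Submodule K (End K U) :=
    { carrier := {y | ∃ a ∈ NP R Q, ∀ u : U, ((y u : U) : X) = a u}
      zero_mem' := ⟨0, Submodule.zero_mem _, fun u => rfl⟩
      add_mem' := by
        rintro y y' ⟨p, hp, hy⟩ ⟨p', hp', hy'⟩
        refine ⟨p + p', Submodule.add_mem _ hp hp', fun u => ?_⟩
        rw [LinearMap.add_apply, Submodule.coe_add, hy, hy']
        rfl
      smul_mem' := by
        rintro t y ⟨p, hp, hy⟩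
        refine ⟨t • p, Submodule.smul_mem _ t hp, fun u => ?_⟩
        rw [LinearMap.smul_apply, Submodule.coe_smul, hy]
        rfl }
  have hst := lieT_stable ω hnd hωR hss hU.2.1 (hNP a ha)
  have hle : sk om ≤ J := by
    refine (hSIM K U om F.alt F.nd).1 J ?_ ⟨a.restrict hst, ⟨a, ha, fun u => rfl⟩,
      F.skew a (hNP a ha) _ fun u => rfl, fun h0 => ha0 ?_⟩
    · rintro y hy z ⟨b, hb, hz⟩
      obtain ⟨p, hp, hy⟩ := hsk hy
      refine ⟨p.1 * b - b * p.1, np_br h hp hb, fun u => ?_⟩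
      rw [LinearMap.sub_apply, Submodule.coe_sub, Module.End.mul_apply, Module.End.mul_apply, hy,
        hz, hz, hy]
      rfl
    · rw [eq_bot_iff]
      rintro _ ⟨u, hu, rfl⟩
      have h1 := LinearMap.congr_fun h0 ⟨u, hu⟩
      exact congrArg Subtype.val h1
  exact fun y hy => hle hy

end

end Pool.Agent.Y224.AZ
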