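import Mathlib
import Pool.Agent.Y224.AZ.Ideal

/-!
# Square-zero operators which act trivially on `Y`
-/

set_option linter.unusedSectionVars false
set_option linter.unusedSimpArgs false

namespace Pool.Agent.Y224.AZ

open Module Pool.Agent.H204R3.SP Pool.Agent.H204R3.GP Pool.Agent.W522.U Pool.Agent.W529.Ta
open Pool.Agent.W528.Odd Pool.Agent.Y126.OT Pool.Agent.TH118.CR Pool.Agent.Y126.Toric
open Pool.Agent.Y126.JP Pool.Agent.Y224.CP
open Pool.Agent.W528.Tor (AltDual)

noncomputable section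

variable {K X Y Γ : Type} [Field K] [CharZero K] [IsAlgClosed K] [AddCommGroup X] [Module K X]
  [FiniteDimensional K X] [AddCommGroup Y] [Module K Y] [FiniteDimensional K Y] [Group Γ]
  {R : Representation K Γ X} {Q : Representation K Γ Y} {χ : Γ →* K}
  {U : Submodule K X} {om : U →ₗ[K] U →ₗ[K] K}

/-- The skew operators on the subspace lift to operators that act trivially on `Y`. -/
def Lifts (R : Representation K Γ X) (Q : Representation K Γ Y) (om : U →ₗ[K] U →ₗ[K] K) : Prop :=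
  ∀ y ∈ sk om, ∃ a ∈ NP R Q, ∀ u : U, ((y u : U) : X) = a u

/-- An operator `x`, with `x ^ 2 = 1 / 4`, in the Lie algebra of `X`, which acts on `NP`. -/
structure Ax (R : Representation K Γ X) (Q : Representation K Γ Y) (χ : Γ →* K)
    (x : End K X) : Prop where
  mem : x ∈ lieT R χ
  sq : x * x = (1 / 4 : K) • 1
  ad : ∀ a ∈ NP R Q, x * a - a * x ∈ NP R Q

theorem Ax.neg {x : End K X} (h : Ax R Q χ x) : Ax R Q χ (-x) where
  mem := Submodule.neg_mem _ h.mem
  sq := by rw [neg_mul_neg, h.sq]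
  ad := fun a ha => by
    have h2 : -x * a - a * -x = -(x * a - a * x) := by noncomm_ring
    rw [h2]
    exact Submodule.neg_mem _ (h.ad a ha)

theorem lift_sq (ω : X →ₗ[K] X →ₗ[K] K) (hnd : ∀ u, (∀ v, ω u v = 0) → u = 0)
    (hωR : ∀ g u v, ω (R g u) (R g v) = χ g * ω u v) (hss : HasProj R) (hU : SI R U)
    (hL : Lifts R Q om) {x : End K X} (hx : Ax R Q χ x) {y : End K U} (hy : y ∈ sk om)
    (h1 : ∀ u : U, x (y u) = (1 / 2 : K) • (y u : X))
    (h2 : ∀ u : U, x u = (1 / 2 : K) • (u : X) → y u = 0) :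
    ∃ e ∈ NP R Q, x * e - e * x = e ∧ e * e = 0 ∧ ∀ u : U, ((y u : U) : X) = e u := by
  obtain ⟨a, ha, hya⟩ := hL y hy
  have hxx := hx.sq
  have hst := lieT_stable ω hnd hωR hss hU.2.1 hx.mem
  refine ⟨((1 / 2 : K) • 1 + x) * a * ((1 / 2 : K) • 1 - x), ?_, ?_, ?_, fun u => ?_⟩
  · have e1 := hx.ad a ha
    have e2 := hx.ad _ e1
    have e3 := Submodule.smul_mem _ (1 / 2 : K) (Submodule.add_mem _ e1 e2)
    have e4 : ((1 / 2 : K) • 1 + x) * a * ((1 / 2 : K) • 1 - x) =
        (1 / 2 : K) • ((x * a - a * x) + (x * (x * a - a * x) - (x * a - a * x) * x)) := by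
      have f1 : x * (x * a - a * x) - (x * a - a * x) * x =
          (x * x) * a + a * (x * x) - (2 : K) • (x * a * x) := by
        rw [two_smul]
        noncomm_ring
      rw [f1, hxx]
      simp only [add_mul, mul_add, mul_sub, sub_mul, smul_mul_assoc, mul_smul_comm, one_mul,
        mul_one, mul_assoc]
      module
    rw [e4]
    exact e3
  · have e1 : x * ((1 / 2 : K) • 1 + x) = (1 / 2 : K) • ((1 / 2 : K) • 1 + x) := by
      rw [mul_add, hxx, mul_smul_comm, mul_one]
      module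
    have e2 : ((1 / 2 : K) • 1 - x) * x = -((1 / 2 : K) • ((1 / 2 : K) • 1 - x)) := by
      rw [sub_mul, hxx, smul_mul_assoc, one_mul]
      module
    rw [mul_assoc (((1 / 2 : K) • 1 + x) * a), e2, ← mul_assoc, ← mul_assoc, e1]
    simp only [mul_neg, mul_smul_comm, smul_mul_assoc]
    module
  · have e1 : ((1 / 2 : K) • 1 - x) * ((1 / 2 : K) • 1 + x) = 0 := by
      rw [sub_mul, mul_add, mul_add, hxx]
      simp only [smul_mul_assoc, mul_smul_comm, one_mul, mul_one]
      module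
    have e2 : ((1 / 2 : K) • 1 + x) * a * ((1 / 2 : K) • 1 - x) *
        (((1 / 2 : K) • 1 + x) * a * ((1 / 2 : K) • 1 - x)) = ((1 / 2 : K) • 1 + x) * a *
        (((1 / 2 : K) • 1 - x) * ((1 / 2 : K) • 1 + x)) * a * ((1 / 2 : K) • 1 - x) := by
      simp only [mul_assoc]
    rw [e2, e1, mul_zero, zero_mul, zero_mul]
  · obtain ⟨v1, v2, hv, hv1, hv2, f1, f2⟩ := half_split hxx (u : X)
    have m1 : v1 ∈ U := by
      rw [f1]
      exact U.add_mem (U.smul_mem _ u.2) (hst u u.2)
    have m2 : v2 ∈ U := by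
      rw [f2]
      exact U.sub_mem (U.smul_mem _ u.2) (hst u u.2)
    have hu : u = ⟨v1, m1⟩ + ⟨v2, m2⟩ := Subtype.ext hv
    have h3 : y u = y ⟨v2, m2⟩ := by
      rw [hu, map_add, h2 ⟨v1, m1⟩ hv1, zero_add]
    have h4 : (((1 / 2 : K) • (1 : End K X) - x) : End K X) (u : X) = v2 := by
      rw [f2]
      rfl
    change _ = ((1 / 2 : K) • (1 : End K X) + x) (a (((1 / 2 : K) • (1 : End K X) - x) (u : X)))
    rw [h4, ← hya ⟨v2, m2⟩, ← h3]
    change _ = (1 / 2 : K) • ((y u : U) : X) + x (y u)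
    rw [h1, ← add_smul]
    norm_num

/-- The operators `v ↦ om a v • a`. -/
def tv (om : U →ₗ[K] U →ₗ[K] K) (a : U) : End K U := (om a).smulRight a

theorem tv_sk (halt : ∀ v, om v v = 0) (a : U) : tv om a ∈ sk om := by
  intro u v
  have hanti := alt_anti halt
  change om (om a u • a) v + om u (om a v • a) = 0
  rw [map_smul, LinearMap.smul_apply, map_smul, smul_eq_mul, smul_eq_mul, hanti u a]
  ring

theorem tv_pos (F : Frm R χ U om) {x : End K X} (hx : x ∈ lieT R χ)
    (hst : ∀ u ∈ U, x u ∈ U) {a : U} (ha : x a = (1 / 2 : K) • (a : X)) :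
    (∀ u : U, x (tv om a u) = (1 / 2 : K) • (tv om a u : X)) ∧
      ∀ u : U, x u = (1 / 2 : K) • (u : X) → tv om a u = 0 := by
  constructor
  · intro u
    change x (om a u • (a : X)) = (1 / 2 : K) • (om a u • (a : X))
    rw [map_smul, ha, smul_comm]
  · intro u hu
    have h1 := F.skew x hx (x.restrict hst) (fun u => rfl) a u
    have e1 : x.restrict hst a = (1 / 2 : K) • a := Subtype.ext ha
    have e2 : x.restrict hst u = (1 / 2 : K) • u := Subtype.ext hu
    rw [e1, e2, map_smul, LinearMap.smul_apply, map_smul, ← add_smul, smul_eq_mul] at h1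
    have h2 : om a u = 0 := by
      norm_num at h1
      exact h1
    change om a u • a = 0
    rw [h2, zero_smul]

/-- Rank one. -/
theorem rank_one (ω : X →ₗ[K] X →ₗ[K] K) (hnd : ∀ u, (∀ v, ω u v = 0) → u = 0)
    (hωR : ∀ g u v, ω (R g u) (R g v) = χ g * ω u v) (hss : HasProj R) (hU : SI R U)
    (F : Frm R χ U om) (hL : Lifts R Q om) {x : End K X} (hx : Ax R Q χ x) :
    ∃ e ∈ NP R Q, e * e = 0 ∧ finrank K (U.map e) = 1 ∧ ∃ y ∈ sk om, y ≠ 0 ∧
      finrank K (LinearMap.range y) = 1 ∧ ∀ u : U, ((y u : U) : X) = e u := by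
  have hst := lieT_stable ω hnd hωR hss hU.2.1 hx.mem
  have hanti := alt_anti F.alt
  obtain ⟨a, ha0, ha⟩ : ∃ a : U, a ≠ 0 ∧ x a = (1 / 2 : K) • (a : X) := by
    by_contra hcon
    push Not at hcon
    have h1 : ∀ u : U, x u = -(1 / 2 : K) • (u : X) := by
      intro u
      obtain ⟨v1, v2, hv, hv1, hv2, f1, f2⟩ := half_split hx.sq (u : X)
      have m1 : v1 ∈ U := by
        rw [f1]
        exact U.add_mem (U.smul_mem _ u.2) (hst u u.2)
      have h2 : v1 = 0 := by
        by_contra h0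
        exact hcon ⟨v1, m1⟩ (fun h => h0 (congrArg Subtype.val h)) hv1
      rw [h2, zero_add] at hv
      rw [hv]
      exact hv2
    obtain ⟨u₀, hu₀, hne⟩ := (Submodule.ne_bot_iff U).1 hU.1
    apply hne
    have h3 : (⟨u₀, hu₀⟩ : U) = 0 := by
      refine F.nd _ fun v => ?_
      have h4 := F.skew x hx.mem (x.restrict hst) (fun u => rfl) ⟨u₀, hu₀⟩ v
      have e1 : ∀ u : U, x.restrict hst u = -(1 / 2 : K) • u := fun u => Subtype.ext (h1 u)
      rw [e1, e1, map_smul, LinearMap.smul_apply, map_smul, ← add_smul, smul_eq_mul] at h4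
      norm_num at h4
      exact h4
    exact congrArg Subtype.val h3
  obtain ⟨h1, h2⟩ := tv_pos F hx.mem hst ha
  obtain ⟨e, he, -, hee, hey⟩ := lift_sq ω hnd hωR hss hU hL hx (tv_sk F.alt a) h1 h2
  obtain ⟨v, hv⟩ : ∃ v, om a v ≠ 0 := by
    by_contra hcon
    push Not at hcon
    exact ha0 (F.nd a hcon)
  have hrange : LinearMap.range (tv om a) = Submodule.span K {a} := by
    apply le_antisymm
    · rintro _ ⟨u, rfl⟩
      exact Submodule.smul_mem _ _ (Submodule.mem_span_singleton_self a)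
    · rw [Submodule.span_singleton_le_iff_mem]
      refine ⟨(om a v)⁻¹ • v, ?_⟩
      change om a ((om a v)⁻¹ • v) • a = a
      rw [map_smul, smul_eq_mul, inv_mul_cancel₀ hv, one_smul]
  refine ⟨e, he, hee, ?_, tv om a, tv_sk F.alt a, ?_, ?_, hey⟩
  · have h3 : U.map e = (LinearMap.range (tv om a)).map U.subtype := by
      ext w
      constructor
      · rintro ⟨u, hu, rfl⟩
        exact ⟨tv om a ⟨u, hu⟩, ⟨_, rfl⟩, hey ⟨u, hu⟩⟩
      · rintro ⟨_, ⟨u, rfl⟩, rfl⟩
        exact ⟨u, u.2, (hey u).symm⟩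
    rw [h3, hrange, Submodule.map_span, Set.image_singleton]
    exact finrank_span_singleton fun h => ha0 (Subtype.ext h)
  · intro h
    have h4 := LinearMap.congr_fun h v
    change om a v • a = 0 at h4
    exact (smul_eq_zero.1 h4).elim hv ha0
  · rw [hrange]
    exact finrank_span_singleton ha0

/-- An element which is injective on the negative part of `U`. -/
theorem inj_one (ω : X →ₗ[K] X →ₗ[K] K) (hnd : ∀ u, (∀ v, ω u v = 0) → u = 0)
    (hωR : ∀ g u v, ω (R g u) (R g v) = χ g * ω u v) (hss : HasProj R) (hU : SI R U)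
    (F : Frm R χ U om) (hL : Lifts R Q om) {x : End K X} (hx : Ax R Q χ x) :
    ∃ e ∈ NP R Q, x * e - e * x = e ∧ ∀ v ∈ U, x v = -(1 / 2 : K) • v → e v = 0 → v = 0 := by
  have hst := lieT_stable ω hnd hωR hss hU.2.1 hx.mem
  have hanti := alt_anti F.alt
  let P : Submodule K U :=
    { carrier := {u | x u = (1 / 2 : K) • (u : X)}
      zero_mem' := by
        change x (0 : X) = (1 / 2 : K) • (0 : X)
        rw [map_zero, smul_zero]
      add_mem' := fun {u v} hu hv => by
        change x ((u : X) + v) = (1 / 2 : K) • ((u : X) + v)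
        rw [map_add, show x u = _ from hu, show x v = _ from hv, smul_add]
      smul_mem' := fun t u hu => by
        change x (t • (u : X)) = (1 / 2 : K) • (t • (u : X))
        rw [map_smul, show x u = _ from hu, smul_comm] }
  let b := Module.finBasis K P
  obtain ⟨y, hyd⟩ : ∃ y : End K U, y = ∑ j, tv om (b j : U) := ⟨_, rfl⟩
  have hy : y ∈ sk om := by
    rw [hyd]
    exact Submodule.sum_mem _ fun j _ => tv_sk F.alt _
  have hya : ∀ u, y u = ∑ j, om (b j : U) u • (b j : U) := by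
    intro u
    rw [hyd, LinearMap.sum_apply]
    rfl
  have h1 : ∀ u : U, x (y u) = (1 / 2 : K) • (y u : X) := by
    intro u
    have h2 : y u ∈ P := by
      rw [hya]
      exact Submodule.sum_mem _ fun j _ => P.smul_mem _ (b j).2
    exact h2
  have h2 : ∀ u : U, x u = (1 / 2 : K) • (u : X) → y u = 0 := by
    intro u hu
    rw [hyd, LinearMap.sum_apply]
    exact Finset.sum_eq_zero fun j _ => (tv_pos F hx.mem hst (b j).2).2 u hu
  obtain ⟨e, he, hxe, -, hey⟩ := lift_sq ω hnd hωR hss hU hL hx hy h1 h2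
  refine ⟨e, he, hxe, fun v hv hxv hev => ?_⟩
  have h3 : y ⟨v, hv⟩ = 0 := Subtype.ext (by rw [hey]; exact hev)
  rw [hya] at h3
  have h4 : ∀ j, om (b j : U) ⟨v, hv⟩ = 0 := by
    have h5' : ((∑ j, om (b j : U) ⟨v, hv⟩ • b j : P) : U) =
        ∑ j, om (b j : U) ⟨v, hv⟩ • (b j : U) := by simp
    have h5 : ∑ j, om (b j : U) ⟨v, hv⟩ • b j = 0 := Subtype.ext (h5'.trans h3)
    exact fun j => (Fintype.linearIndependent_iff.1 b.linearIndependent) _ h5 j
  have h5 : ∀ q ∈ P, om q ⟨v, hv⟩ = 0 := by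
    intro q hq
    have h6 : (⟨q, hq⟩ : P) = ∑ j, b.repr ⟨q, hq⟩ j • b j := (b.sum_repr _).symm
    have h7 : q = ∑ j, b.repr ⟨q, hq⟩ j • (b j : U) := by
      have h8 := congrArg P.subtype h6
      rw [map_sum] at h8
      simp only [map_smul] at h8
      exact h8
    rw [h7, map_sum, LinearMap.sum_apply]
    refine Finset.sum_eq_zero fun j _ => ?_
    rw [map_smul, LinearMap.smul_apply, h4, smul_zero]
  have h6 : (⟨v, hv⟩ : U) = 0 := by
    refine F.nd _ fun w => ?_
    rw [hanti, neg_eq_zero]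
    obtain ⟨v1, v2, hw, hv1, hv2, f1, f2⟩ := half_split hx.sq (w : X)
    have m1 : v1 ∈ U := by
      rw [f1]
      exact U.add_mem (U.smul_mem _ w.2) (hst w w.2)
    have m2 : v2 ∈ U := by
      rw [f2]
      exact U.sub_mem (U.smul_mem _ w.2) (hst w w.2)
    have hw' : w = ⟨v1, m1⟩ + ⟨v2, m2⟩ := Subtype.ext hw
    have h7 : om ⟨v2, m2⟩ ⟨v, hv⟩ = 0 := by
      have h8 := F.skew x hx.mem (x.restrict hst) (fun u => rfl) ⟨v2, m2⟩ ⟨v, hv⟩
      have e1 : x.restrict hst ⟨v2, m2⟩ = -(1 / 2 : K) • (⟨v2, m2⟩ : U) := Subtype.ext hv2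
      have e2 : x.restrict hst ⟨v, hv⟩ = -(1 / 2 : K) • (⟨v, hv⟩ : U) := Subtype.ext hxv
      rw [e1, e2, map_smul, LinearMap.smul_apply, map_smul, ← add_smul, smul_eq_mul] at h8
      norm_num at h8
      exact h8
    rw [hw', map_add, LinearMap.add_apply, h5 _ hv1, h7, add_zero]
  exact congrArg Subtype.val h6

end

end Pool.Agent.Y224.AZ
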