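import Mathlib
import Pool.Agent.Y224.AZ.Stm
import Pool.Agent.TH118.CR.Nil

/-!
# Products with other varieties: invariant bilinear forms are Tate forms
-/

namespace Pool.Agent.Y224.AZ

open Module Pool.Agent.H204R3.SP Pool.Agent.H204R3.GP Pool.Agent.W522.U

/-- (TWO) The bilinear forms for which a conjugation stable, irreducible set of elements of the Lie
algebra is skew are Tate forms. -/
def S_TWO : Prop :=
  ∀ (K X Γ : Type) [Field K] [CharZero K] [IsAlgClosed K] [AddCommGroup X] [Module K X]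
    [FiniteDimensional K X] [Group Γ] (R : Representation K Γ X) (χ : Γ →* K)
    (ω : X →ₗ[K] X →ₗ[K] K) (N : Set (End K X)), (∀ u, (∀ v, ω u v = 0) → u = 0) →
    (∀ g u v, ω (R g u) (R g v) = χ g * ω u v) → HasProj R → (∀ a ∈ N, a ∈ lieT R χ) →
    (∀ g, ∀ a ∈ N, R g * a * R g⁻¹ ∈ N) →
    (∀ U, SI R U → ∀ W ≤ U, (∀ a ∈ N, ∀ u ∈ W, a u ∈ W) → W = ⊥ ∨ W = U) →
    (∀ U, SI R U → Du R χ U U) →
    ∀ β : X →ₗ[K] X →ₗ[K] K, (∀ a ∈ N, ∀ u v, β (a u) v + β u (a v) = 0) → IsTate2 R χ β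

end Pool.Agent.Y224.AZ
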