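import Mathlib
import Pool.Agent.Y224.AZ.Rank
import Pool.Agent.Y224.AZ.Stm2

/-!
# Tensors with values in the tensors of `Y`
-/

set_option linter.unusedSectionVars false
set_option linter.unusedSimpArgs false

namespace Pool.Agent.Y224.AZ

open Module Pool.Agent.H204R3.SP Pool.Agent.H204R3.GP Pool.Agent.W522.U Pool.Agent.W529.Ta
open Pool.Agent.W528.Odd Pool.Agent.Y126.OT Pool.Agent.TH118.CR Pool.Agent.Y126.Toric
open Pool.Agent.Y126.JP Pool.Agent.Y224.CP
open Pool.Agent.W528.Tor (AltDual)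

noncomputable section

/-- Decomposition. -/
def S_DEC : Prop :=
  ∀ (K X Γ : Type) [Field K] [CharZero K] [AddCommGroup X] [Module K X] [FiniteDimensional K X]
    [Group Γ] (R : Representation K Γ X), HasProj R →
    ∃ (ι : Type) (_ : Fintype ι) (U : ι → Submodule K X) (p : ι → Module.End K X),
      (∀ i, SI R (U i)) ∧ (∀ i v, p i v ∈ U i) ∧ (∀ i, ∀ u ∈ U i, p i u = u) ∧
      (∀ i, ∃ Δ : Subgroup Γ, Δ.FiniteIndex ∧ ∀ g ∈ Δ, ∀ v, p i (R g v) = R g (p i v)) ∧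
      (⨆ i, U i = ⊤) ∧ ∀ v, (∀ i, p i v = 0) → v = 0

variable {K X Y Γ : Type} [Field K] [CharZero K] [IsAlgClosed K] [AddCommGroup X] [Module K X]
  [FiniteDimensional K X] [AddCommGroup Y] [Module K Y] [FiniteDimensional K Y] [Group Γ]
  {R : Representation K Γ X} {Q : Representation K Γ Y} {χ : Γ →* K}
  (ω : X →ₗ[K] X →ₗ[K] K) (hnd : ∀ u, (∀ v, ω u v = 0) → u = 0)
  (hωR : ∀ g u v, ω (R g u) (R g v) = χ g * ω u v) (hss : HasProj R)
  (hNP : ∀ a ∈ NP R Q, a ∈ lieT R χ) (halt : ∀ U, SI R U → AltDual R χ U)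
  (hfull : ∀ U, SI R U → ∃ om : U →ₗ[K] U →ₗ[K] K, Frm R χ U om ∧ Lifts R Q om)
  {x : End K X} (hx : Ax R Q χ x)

/-- The square-zero elements. -/
def EE (R : Representation K Γ X) (Q : Representation K Γ Y) : Set (End K X) :=
  {e | e ∈ NP R Q ∧ e * e = 0}

theorem ee_conj (g : Γ) {e : End K X} (he : e ∈ EE R Q) : R g * e * R g⁻¹ ∈ EE R Q := by
  refine ⟨np_conj g he.1, ?_⟩
  have hRR : R g⁻¹ * R g = 1 := by rw [← map_mul, inv_mul_cancel, map_one]
  calc R g * e * R g⁻¹ * (R g * e * R g⁻¹) = R g * e * (R g⁻¹ * R g) * e * R g⁻¹ := by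
        noncomm_ring
    _ = R g * (e * e) * R g⁻¹ := by rw [hRR]; noncomm_ring
    _ = 0 := by rw [he.2, mul_zero, zero_mul]

include hnd hωR hss hfull hx in
/-- The square-zero elements are irreducible on the strongly irreducible subspaces. -/
theorem ee_irr (hSPG : S_SPG) (hSIM : S_SIM) {U : Submodule K X} (hU : SI R U)
    {W : Submodule K X} (hWU : W ≤ U) (hW : ∀ e ∈ EE R Q, ∀ u ∈ W, e u ∈ W) :
    W = ⊥ ∨ W = U := by
  obtain ⟨om, F, hL⟩ := hfull U hU
  obtain ⟨e, he, hee, -, y, hy, -, hyr, hye⟩ := rank_one ω hnd hωR hss hU F hL hx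
  obtain ⟨Δ, hΔ, hUΔ, hinv⟩ := F.inv
  let L : Submodule K (End K U) :=
    { carrier := {y | ∀ W' ≤ U, (∀ e ∈ EE R Q, ∀ u ∈ W', e u ∈ W') →
        ∀ u : U, (u : X) ∈ W' → ((y u : U) : X) ∈ W'}
      zero_mem' := fun W' _ _ u _ => W'.zero_mem
      add_mem' := fun hy hz W' h1 h2 u hu => W'.add_mem (hy W' h1 h2 u hu) (hz W' h1 h2 u hu)
      smul_mem' := fun t y hy W' h1 h2 u hu => W'.smul_mem t (hy W' h1 h2 u hu) }
  have hle : sk om ≤ L := by
    refine hSPG K U Δ (resR R Δ U hUΔ) (fun g => χ g.1) om L y F.alt F.nd hinv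
      (sIrr_res hU Δ hΔ hUΔ) ?_ ?_ ?_ hy hyr
    · intro y hy z hz W' h1 h2 u hu
      exact W'.sub_mem (hy W' h1 h2 _ (hz W' h1 h2 u hu)) (hz W' h1 h2 _ (hy W' h1 h2 u hu))
    · intro g y hy W' h1 h2 u hu
      have h3 := hy (W'.map (R g.1⁻¹)) (by
        rintro _ ⟨w, hw, rfl⟩
        exact hUΔ _ (Δ.inv_mem g.2) w (h1 hw)) (by
        rintro e he _ ⟨w, hw, rfl⟩
        refine ⟨(R g.1 * e * R g.1⁻¹) w, h2 _ (ee_conj g.1 he) w hw, ?_⟩
        change R g.1⁻¹ (R g.1 (e (R g.1⁻¹ w))) = _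
        rw [rho_inv]) (resR R Δ U hUΔ g⁻¹ u) ⟨u, hu, rfl⟩
      obtain ⟨w, hw, hw'⟩ := h3
      change R g.1 ((y (resR R Δ U hUΔ g⁻¹ u) : U) : X) ∈ W'
      rw [← hw', rho_inv']
      exact hw
    · intro W' h1 h2 u hu
      rw [hye]
      exact h2 e ⟨he, hee⟩ u hu
  rcases (hSIM K U om F.alt F.nd).2.2 (W.comap U.subtype) (fun y hy u hu =>
    hle hy W hWU hW u hu) with h1 | h1
  · left
    rw [eq_bot_iff]
    intro w hw
    have h2 : (⟨w, hWU hw⟩ : U) ∈ W.comap U.subtype := hw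
    rw [h1, Submodule.mem_bot] at h2
    rw [Submodule.mem_bot]
    exact congrArg Subtype.val h2
  · right
    apply le_antisymm hWU
    intro w hw
    have h2 : (⟨w, hw⟩ : U) ∈ W.comap U.subtype := by
      rw [h1]
      trivial
    exact h2

include hnd hωR hss hNP halt hfull hx in
/-- Forms which are killed by `NP`. -/
theorem forms (hSPG : S_SPG) (hSIM : S_SIM) (hGRP : S_GRP) (hTWO : S_TWO) (hDEC : S_DEC) {m : ℕ}
    (φ : MultilinearMap K (fun _ : Fin m × Fin 2 => X) K) (hφ : ∀ a ∈ NP R Q, Kills a φ) :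
    φ ∈ Submodule.span K {P | IsProd {B | IsTate2 R χ B} P} := by
  obtain ⟨ι, hι, U, p, hU, hp1, hp2, hp3, htop, hker⟩ := hDEC K X Γ R hss
  have hirr : ∀ U, SI R U → ∀ W ≤ U, (∀ a ∈ EE R Q, ∀ u ∈ W, a u ∈ W) → W = ⊥ ∨ W = U :=
    fun U hU W hWU hW => ee_irr ω hnd hωR hss hfull hx hSPG hSIM hU hWU hW
  have hskω : ∀ e ∈ EE R Q, ∀ u v, ω (e u) v + ω u (e v) = 0 := fun e he u v =>
    lieT_bil R χ ⟨⊤, inferInstance, fun g _ u v => hωR g u v⟩ (hNP e he.1) u v
  have h1 := hGRP K X (EE R Q) ω ι U p (fun e he => he.2)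
    (fun e he t => ⟨Submodule.smul_mem _ t he.1, by
      rw [smul_mul_assoc, mul_smul_comm, he.2, smul_zero, smul_zero]⟩) hnd hskω
    (fun i e he => lieT_stable ω hnd hωR hss (hU i).2.1 (hNP e he.1))
    (fun i W hW h => hirr _ (hU i) W hW h) hp1 hp2
    (fun i e he v => by
      obtain ⟨Δ, hΔ, h⟩ := hp3 i
      exact Pool.Agent.W839.OT.HTFam.comm R χ ω hnd hωR Δ hΔ (p i) h e (hNP e he.1) v)
    hker htop (fun i => altDual_two_le (halt _ (hU i)))
    (fun i => by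
      obtain ⟨om, F, hL⟩ := hfull _ (hU i)
      obtain ⟨e, he, hee, hr, -⟩ := rank_one ω hnd hωR hss (hU i) F hL hx
      exact ⟨e, ⟨he, hee⟩, hr⟩)
    (fun i => by
      obtain ⟨Δ, hΔ, B, hB0, -, hB⟩ := halt _ (hU i)
      exact ⟨B, hB0, fun e he u hu v hv =>
        lieT_skew ω hnd hωR hss (hU i).2.1 hΔ B hB (hNP e he.1) u hu v hv⟩)
    m φ (fun e he => hφ e he.1)
  refine Submodule.span_mono ?_ h1
  rintro P ⟨σ, B, hB, hP⟩
  refine ⟨σ, B, fun l => ?_, hP⟩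
  exact hTWO K X Γ R χ ω (EE R Q) hnd hωR hss (fun a ha => hNP a ha.1)
    (fun g a ha => ee_conj g ha) hirr (fun U hU => altDual_du (halt U hU)) (B l) (hB l)

include hnd hωR hss hNP halt hfull hx in
/-- **Tensors in an even number of variables of `X`.** -/
theorem even (hSPG : S_SPG) (hSIM : S_SIM) (hGRP : S_GRP) (hTWO : S_TWO) (hDEC : S_DEC)
    (hUSE : S_USE) (hFIN : S_FIN) {θ : Y →ₗ[K] K} (hθ : θ ≠ 0) (hθQ : ∀ g y, θ (Q g y) = θ y)
    {m : ℕ} {ι : Type} [Fintype ι] (T : MF K X Y (Fin m × Fin 2) ι) (hT : Inv R Q T) :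
    T ∈ Submodule.span K {T' | ∃ P ∈ {P | IsProd {B | IsTate2 R χ B} P},
      ∃ w : MultilinearMap K (fun _ : ι => Y) K,
      (∃ Δ : Subgroup Γ, Δ.FiniteIndex ∧ ∀ g ∈ Δ, ∀ y, χ g ^ m * w (fun j => Q g (y j)) = w y) ∧
      ∀ v y, T' v y = P v * w y} := by
  refine hFIN K X Y Γ (Fin m × Fin 2) ι R Q (fun g => χ g ^ m) _ T (fun g => ?_) ?_ hT fun y => ?_
  · apply pow_ne_zero
    intro h0
    have h1 : χ g * χ g⁻¹ = 1 := by rw [← map_mul, mul_inv_cancel, map_one]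
    rw [h0, zero_mul] at h1
    exact zero_ne_one h1
  · rintro P ⟨σ, B, hB, hP⟩
    choose Δ hΔ hB using hB
    refine ⟨⨅ l, Δ l, Subgroup.finiteIndex_iInf hΔ, fun g hg v => ?_⟩
    rw [Subgroup.mem_iInf] at hg
    rw [hP, hP, Finset.prod_congr rfl fun l _ => hB l g (hg l) _ _, Finset.prod_mul_distrib,
      Finset.prod_const, Finset.card_univ, Fintype.card_fin]
  · obtain ⟨ev, hev⟩ : ∃ ev : MultilinearMap K (fun _ : ι => Y) K →ₗ[K] K, ∀ f, ev f = f y :=
      ⟨{ toFun := fun f => f y, map_add' := fun _ _ => rfl, map_smul' := fun _ _ => rfl },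
        fun f => rfl⟩
    refine ⟨ev.compMultilinearMap T, ?_, fun v => (hev _).symm⟩
    refine forms ω hnd hωR hss hNP halt hfull hx hSPG hSIM hGRP hTWO hDEC _ fun a ha v => ?_
    have h1 := hUSE K X Y Γ (Fin m × Fin 2) ι R Q a θ hθ hθQ ha T hT v y
    rw [← h1]
    exact Finset.sum_congr rfl fun i _ => hev _

include hnd hωR hss hNP hfull in
/-- A bijective element. -/
theorem exists_inj (hDEC : S_DEC) (hINJ : S_INJ) {x : End K X} (hx : Ax R Q χ x) :
    ∃ e ∈ NP R Q, x * e - e * x = e ∧ ∀ v, x v = -(1 / 2 : K) • v → e v = 0 → v = 0 := by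
  obtain ⟨ι, hι, U, p, hU, hp1, hp2, hp3, htop, hker⟩ := hDEC K X Γ R hss
  have hcm : ∀ i, ∀ a ∈ lieT R χ, ∀ v, a (p i v) = p i (a v) := fun i a ha v => by
    obtain ⟨Δ, hΔ, h⟩ := hp3 i
    exact Pool.Agent.W839.OT.HTFam.comm R χ ω hnd hωR Δ hΔ (p i) h a ha v
  let A : Submodule K X :=
    { carrier := {v | x v = -(1 / 2 : K) • v}
      zero_mem' := by
        change x 0 = _
        rw [map_zero, smul_zero]
      add_mem' := fun {u v} hu hv => by
        change x (u + v) = _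
        rw [map_add, show x u = _ from hu, show x v = _ from hv, smul_add]
      smul_mem' := fun t u hu => by
        change x (t • u) = _
        rw [map_smul, show x u = _ from hu, smul_comm] }
  let N : Submodule K (End K X) :=
    { carrier := {e | e ∈ NP R Q ∧ x * e - e * x = e}
      zero_mem' := ⟨Submodule.zero_mem _, by rw [mul_zero, zero_mul, sub_zero]⟩
      add_mem' := fun {a b} ha hb => ⟨Submodule.add_mem _ ha.1 hb.1, by
        have h1 : x * (a + b) - (a + b) * x = (x * a - a * x) + (x * b - b * x) := by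
          noncomm_ring
        rw [h1, ha.2, hb.2]⟩
      smul_mem' := fun t a ha => ⟨Submodule.smul_mem _ t ha.1, by
        rw [mul_smul_comm, smul_mul_assoc, ← smul_sub, ha.2]⟩ }
  obtain ⟨e, he, hinj⟩ := hINJ K X A N ι p hker (fun i v hv => by
      change x (p i v) = _
      rw [hcm i x hx.mem, show x v = _ from hv, map_smul])
    (fun i e he v _ => hcm i e (hNP e he.1) v) (fun i => by
      obtain ⟨om, F, hL⟩ := hfull _ (hU i)
      obtain ⟨e, he, hxe, hi⟩ := inj_one ω hnd hωR hss (hU i) F hL hx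
      refine ⟨e, ⟨he, hxe⟩, fun v hv h0 => hi _ (hp1 i v) ?_ h0⟩
      rw [hcm i x hx.mem, show x v = _ from hv, map_smul])
  exact ⟨e, he.1, he.2, hinj⟩

include hnd hωR hss hNP hfull hx in
/-- **There are no tensors in an odd number of variables of `X`.** -/
theorem odd (hDEC : S_DEC) (hINJ : S_INJ) (hODD : S_ODD)
    (hUSE : S_USE) {θ : Y →ₗ[K] K} (hθ : θ ≠ 0) (hθQ : ∀ g y, θ (Q g y) = θ y)
    {k : ℕ} (hk : Odd k) {ι : Type} [Fintype ι] (T : MF K X Y (Fin k) ι) (hT : Inv R Q T) :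
    T = 0 := by
  obtain ⟨e, he, hxe, hei⟩ := exists_inj ω hnd hωR hss hNP hfull hDEC hINJ hx
  obtain ⟨f, hf, hxf, hfi⟩ := exists_inj ω hnd hωR hss hNP hfull hDEC hINJ hx.neg
  have hxf' : x * f - f * x = -f := by
    have h1 : -x * f - f * -x = -(x * f - f * x) := by noncomm_ring
    rw [h1] at hxf
    exact neg_eq_iff_eq_neg.1 hxf
  refine MultilinearMap.ext fun v => MultilinearMap.ext fun y => ?_
  obtain ⟨ev, hev⟩ : ∃ ev : MultilinearMap K (fun _ : ι => Y) K →ₗ[K] K, ∀ f, ev f = f y :=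
    ⟨{ toFun := fun f => f y, map_add' := fun _ _ => rfl, map_smul' := fun _ _ => rfl },
      fun f => rfl⟩
  have hkill : ∀ a ∈ NP R Q, Kills a (ev.compMultilinearMap T) := by
    intro a ha v
    have h1 := hUSE K X Y Γ (Fin k) ι R Q a θ hθ hθQ ha T hT v y
    rw [← h1]
    exact Finset.sum_congr rfl fun i _ => hev _
  have h1 := hODD K X x e f hx.sq hxe hxf' hei (fun v hv h0 => hfi v (by
    change -(x v) = _
    rw [hv, neg_smul]) h0) k (ev.compMultilinearMap T) hk (hkill e he) (hkill f hf)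
  have h2 := congrArg (fun φ : MultilinearMap K (fun _ : Fin k => X) K => φ v) h1
  exact (hev _).symm.trans h2

end

end Pool.Agent.Y224.AZ
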