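import Mathlib
import Pool.Agent.Y224.AZ.Hull
import Pool.Agent.Y224.OD.Final

/-!
# Pairs of slope operators of ordinary Frobenius elements
-/

set_option linter.unusedSectionVars false
set_option linter.unusedSimpArgs false

namespace Pool.Agent.Y224.AZ

open Module TensorProduct Pool.Agent.Y224.CP Pool.Agent.Y224.OD
open Pool.Agent.H204R3.SP Pool.Agent.H204R3.GP Pool.Agent.W522.U

noncomputable section

variable (hLOGEX : S_LOGEX) (hLOG : S_LOG) (hLOGC : S_LOGC) (hLOGP : S_LOGP)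
  (ℓ : ℕ) [Fact ℓ.Prime] {V Γ : Type} (K : Type) [AddCommGroup V] [Module ℚ_[ℓ] V]
  [FiniteDimensional ℚ_[ℓ] V] [Group Γ] [TopologicalSpace Γ] [IsTopologicalGroup Γ]
  [CompactSpace Γ] [Field K] [IsAlgClosed K] [CharZero K] [Algebra ℚ_[ℓ] K]
  (ρ : Representation ℚ_[ℓ] Γ V) (χ : Γ →* ℚ_[ℓ]) (ω : V →ₗ[ℚ_[ℓ]] V →ₗ[ℚ_[ℓ]] ℚ_[ℓ])
  (halt : ∀ v, ω v v = 0) (hnondeg : ∀ u, (∀ v, ω v u = 0) → u = 0)
  (hω : ∀ s u v, ω (ρ s u) (ρ s v) = χ s * ω u v)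
  (hcont : ∀ (v : V) (φ : V →ₗ[ℚ_[ℓ]] ℚ_[ℓ]), Continuous fun g => φ (ρ g v))
  (hord : Dense {F | ∃ p : ℕ, p.Prime ∧ OD.IsOrdinaryFrobenius p ρ χ F})
  {Y : Type} [AddCommGroup Y] [Module K Y] [FiniteDimensional K Y] (Q : Representation K Γ Y)

/-- The slope operators of the ordinary Frobenius elements on `X` and `Y`. -/
def SS : Set (End K (K ⊗[ℚ_[ℓ]] V) × End K Y) :=
  {q | ∃ (p : ℕ) (F : Γ) (O : ValuationSubring K) (w : Additive Kˣ →+ ℚ), p.Prime ∧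
    OD.IsOrdinaryFrobenius p ρ χ F ∧ IsSlopeAt (bcr ρ K) (bcc χ K) F O q.1 ∧
    (∀ c : Kˣ, (c : K) = bcc χ K F → w (Additive.ofMul c) = 1) ∧
    (∀ u : Kˣ, (u : K) ∈ O → (u : K)⁻¹ ∈ O → w (Additive.ofMul u) = 0) ∧ IsLog (Q F) w q.2}

theorem q_inj (g : Γ) (y : Y) (h : Q g y = 0) : y = 0 := by
  have h1 : Q g⁻¹ (Q g y) = y := by
    rw [← Module.End.mul_apply, ← map_mul, inv_mul_cancel, map_one]
    rfl
  rw [← h1, h, map_zero]

include hLOGEX halt hnondeg hω in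
theorem fst_ss : Prod.fst '' SS ℓ K ρ χ Q = {x | IsSlopeOp ℓ ρ χ K x} := by
  ext x
  constructor
  · rintro ⟨q, ⟨p, F, O, w, hp, hF, hs, -⟩, rfl⟩
    exact ⟨p, F, O, hp, hF, hs⟩
  · rintro ⟨p, F, O, hp, hF, hs⟩
    have hc0 : bcc χ K F ≠ 0 := by
      intro h0
      have h1 : bcc χ K F * bcc χ K F⁻¹ = 1 := by rw [← map_mul, mul_inv_cancel, map_one]
      rw [h0, zero_mul] at h1
      exact zero_ne_one h1
    have hcO : bcc χ K F ∈ O := by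
      obtain ⟨-, N, g, f, hN, hc, -⟩ := id hF
      have hc' : bcc χ K F = (p : K) ^ N := by
        rw [bcc_apply, hc, map_pow, map_natCast]
      rw [hc']
      exact pow_mem (natCast_mem O p) _
    obtain ⟨w, hw1, hw2⟩ := Pool.Agent.Y185.OD.t_hom K O (Units.mk0 _ hc0) hcO hs.1
    obtain ⟨z, hz⟩ := hLOGEX K Y (Q F) w (q_inj K Q F)
    refine ⟨(x, z), ⟨p, F, O, w, hp, hF, hs, fun c hc => ?_, hw2, hz⟩, rfl⟩
    have h1 : c = Units.mk0 _ hc0 := Units.ext hc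
    rw [h1, hw1]

include halt hnondeg hω in
/-- The slope operator in the basis of eigenvectors. -/
theorem ss_basis {p : ℕ} {F : Γ} {O : ValuationSubring K} {w : Additive Kˣ →+ ℚ} (hp : p.Prime)
    (hF : OD.IsOrdinaryFrobenius p ρ χ F) {x : End K (K ⊗[ℚ_[ℓ]] V)}
    (hs : IsSlopeAt (bcr ρ K) (bcc χ K) F O x)
    (hw1 : ∀ c : Kˣ, (c : K) = bcc χ K F → w (Additive.ofMul c) = 1)
    (hw2 : ∀ u : Kˣ, (u : K) ∈ O → (u : K)⁻¹ ∈ O → w (Additive.ofMul u) = 0) :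
    ∃ (n : ℕ) (b : Basis (Fin n) K (K ⊗[ℚ_[ℓ]] V)) (a : Fin n → Kˣ),
      (∀ i, bcr ρ K F (b i) = (a i : K) • b i) ∧
      ∀ i, (x + (1 / 2 : K) • 1) (b i) = ((w (Additive.ofMul (a i)) : ℚ) : K) • b i := by
  obtain ⟨N, g, f, b, a, σ, hN, hb, hc, hσ, hfa, habs, hcoef⟩ := ord_basis (K := K)
    Pool.Agent.Y919.OD.t_perm Pool.Agent.Y949.OD.t_diag ℓ ρ χ ω halt hnondeg hω hF
  have hp0 : (p : K) ≠ 0 := Nat.cast_ne_zero.2 hp.ne_zero
  have hq0 : (p : K) ^ N ≠ 0 := pow_ne_zero _ hp0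
  have ha : ∀ i, a i ≠ 0 := fun i h => hq0 (by rw [← hσ i, h, zero_mul])
  have hqc : ((p ^ N : ℕ) : K) = (p : K) ^ N := Nat.cast_pow p N
  have hOp : (p : K)⁻¹ ∉ O := by
    intro h
    apply hs.1
    rw [hc, ← inv_pow]
    exact pow_mem h N
  have hsl := Pool.Agent.Y275.OD.t_slope K g a f p (p ^ N) σ O hp (dvd_pow_self p hN.ne')
    (pow_ne_zero _ hp.ne_zero) hcoef hfa (fun i => by rw [hσ i, hqc]) hOp
  refine ⟨2 * g, b, fun i => Units.mk0 (a i) (ha i), fun i => hb i, fun i => ?_⟩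
  rcases hsl i with ⟨h1, h2⟩ | ⟨h1, h2⟩
  · have h3 := (hs.2 _ _ (hb i)).1 h2
    rw [hw2 _ h1 h2, LinearMap.add_apply, h3]
    change -(1 / 2 : K) • b i + (1 / 2 : K) • b i = _
    rw [← add_smul]
    norm_num
  · have h3 := (hs.2 _ _ (hb i)).2 (by rw [hc, ← hqc]; exact h1)
    have h4 : w (Additive.ofMul (Units.mk0 (a i) (ha i))) = 1 := by
      have e1 : ((Units.mk0 (a i) (ha i) / Units.mk0 _ hq0 : Kˣ) : K) =
          a i / ((p ^ N : ℕ) : K) := by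
        rw [hqc, Units.val_div_eq_div_val]
        rfl
      have h5 := hw2 (Units.mk0 (a i) (ha i) / Units.mk0 _ hq0) (by rw [e1]; exact h1)
        (by rw [e1, inv_div]; exact h2)
      rw [ofMul_div, map_sub, hw1 (Units.mk0 _ hq0) (by rw [hc]; rfl), sub_eq_zero] at h5
      exact h5
    rw [h4, LinearMap.add_apply, h3]
    change (1 / 2 : K) • b i + (1 / 2 : K) • b i = _
    rw [← add_smul]
    norm_num

include hLOGEX hLOG hLOGP halt hnondeg hω hcont hord in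
theorem pairs : Pairs (bcr ρ K) Q (bcc χ K) (SS ℓ K ρ χ Q) where
  gen := by
    rw [fst_ss hLOGEX ℓ K ρ χ ω halt hnondeg hω Q]
    exact slope_gen ℓ K ρ χ ω halt hnondeg hω hcont hord
  mem := by
    rintro q ⟨p, F, O, w, hp, hF, hs, hw1, hw2, hz⟩
    obtain ⟨n, b, a, hb, hx⟩ := ss_basis ℓ K ρ χ ω halt hnondeg hω hp hF hs hw1 hw2
    exact hLOG K _ Γ (pr (bcr ρ K) Q) F w _ (hLOGP.1 K _ Y n b a _ _ _ _ w hb hx hz)
  conj := by
    rintro g q ⟨p, F, O, w, hp, hF, hs, hw1, hw2, hz⟩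
    have hχ : bcc χ K (g * F * g⁻¹) = bcc χ K F := by
      have h1 : bcc χ K g * bcc χ K g⁻¹ = 1 := by rw [← map_mul, mul_inv_cancel, map_one]
      rw [map_mul, map_mul, mul_assoc, mul_comm (bcc χ K F), ← mul_assoc, h1, one_mul]
    have hgg : ∀ v, bcr ρ K g (bcr ρ K g⁻¹ v) = v := by
      intro v
      rw [← Module.End.mul_apply, ← map_mul, mul_inv_cancel, map_one]
      rfl
    have hgg' : ∀ v, bcr ρ K g⁻¹ (bcr ρ K g v) = v := by
      intro v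
      rw [← Module.End.mul_apply, ← map_mul, inv_mul_cancel, map_one]
      rfl
    refine ⟨p, g * F * g⁻¹, O, w, hp, ord_conj ℓ ρ χ hF g, ⟨by rw [hχ]; exact hs.1, ?_⟩,
      by rw [hχ]; exact hw1, hw2, ?_⟩
    · intro c v hv
      have hv' : bcr ρ K F (bcr ρ K g⁻¹ v) = c • bcr ρ K g⁻¹ v := by
        rw [← map_smul, ← hv, map_mul, map_mul, Module.End.mul_apply, Module.End.mul_apply, hgg']
      rw [hχ]
      obtain ⟨h3, h4⟩ := hs.2 c _ hv'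
      constructor
      · intro h
        change bcr ρ K g (q.1 (bcr ρ K g⁻¹ v)) = _
        rw [h3 h, map_smul, hgg]
      · intro h
        change bcr ρ K g (q.1 (bcr ρ K g⁻¹ v)) = _
        rw [h4 h, map_smul, hgg]
    · have h1 := hLOGP.2 K Y (Q g) (Q g⁻¹) (Q F) q.2 w
        (by rw [← map_mul, mul_inv_cancel, map_one])
        (by rw [← map_mul, inv_mul_cancel, map_one]) hz
      rw [← map_mul, ← map_mul] at h1
      exact h1

include halt hnondeg hω hord hLOGEX in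
theorem ss_nonempty : (SS ℓ K ρ χ Q).Nonempty := by
  obtain ⟨x, hx⟩ := slope_nonempty ℓ K ρ χ ω halt hnondeg hω hord
  rw [← fst_ss hLOGEX ℓ K ρ χ ω halt hnondeg hω Q] at hx
  obtain ⟨q, hq, -⟩ := hx
  exact ⟨q, hq⟩

include hLOGC in
/-- The companions preserve stable subspaces. -/
theorem ss_stable {W : Submodule K Y} (hW : ∀ g, ∀ y ∈ W, Q g y ∈ W) :
    ∀ q ∈ SS ℓ K ρ χ Q, ∀ y ∈ W, q.2 y ∈ W := by
  rintro q ⟨p, F, O, w, hp, hF, hs, hw1, hw2, hz⟩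
  exact (hLOGC K Y (Q F) (Q F) q.2 q.2 w w W (q_inj K Q F) (q_inj K Q F) (hW F) (hW F) hz hz).1

include hLOGC in
/-- The companions commute on potentially abelian subspaces. -/
theorem ss_comm {W : Submodule K Y} (hW : ∀ g, ∀ y ∈ W, Q g y ∈ W) {Δ : Subgroup Γ}
    (hΔ : Δ.FiniteIndex) (hab : ∀ g ∈ Δ, ∀ h ∈ Δ, ∀ y ∈ W, Q g (Q h y) = Q h (Q g y)) :
    ∀ q ∈ SS ℓ K ρ χ Q, ∀ q' ∈ SS ℓ K ρ χ Q, ∀ y ∈ W, q.2 (q'.2 y) = q'.2 (q.2 y) := by
  rintro q ⟨p, F, O, w, hp, hF, hs, hw1, hw2, hz⟩ q' ⟨p', F', O', w', hp', hF', hs', hw1', hw2', hz'⟩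
  have hcore : Δ.normalCore.FiniteIndex := inferInstance
  have hpow : ∀ g : Γ, g ^ Δ.normalCore.index ∈ Δ := fun g =>
    Δ.normalCore_le (Δ.normalCore.pow_index_mem g)
  have hpos : 0 < Δ.normalCore.index := Nat.pos_of_ne_zero hcore.index_ne_zero
  refine (hLOGC K Y (Q F) (Q F') q.2 q'.2 w w' W (q_inj K Q F) (q_inj K Q F') (hW F) (hW F')
    hz hz').2 _ _ hpos hpos fun y hy => ?_
  rw [← map_pow, ← map_pow]
  exact hab _ (hpow F) _ (hpow F') y hy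

end

end Pool.Agent.Y224.AZ
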