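import Mathlib
import Pool.Agent.Y224.AZ.Forms
import Pool.Agent.Y224.AZ.Slo

/-!
# Tensors with values in twisted tensors of `Y`
-/

set_option linter.unusedSectionVars false
set_option linter.unusedSimpArgs false

namespace Pool.Agent.Y224.AZ

open Module Pool.Agent.H204R3.SP Pool.Agent.H204R3.GP Pool.Agent.W522.U Pool.Agent.W529.Ta
open Pool.Agent.W528.Odd Pool.Agent.Y126.OT Pool.Agent.TH118.CR Pool.Agent.Y126.Toric
open Pool.Agent.Y126.JP Pool.Agent.Y224.CP
open Pool.Agent.W528.Tor (AltDual)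

noncomputable section

/-- The general statements together. -/
structure AllS : Prop where
  spg : S_SPG
  sim : S_SIM
  dim : S_DIM
  odd : S_ODD
  inj : S_INJ
  grp : S_GRP
  two : S_TWO
  dec : S_DEC
  fin : S_FIN
  use : S_USE

variable {K X Y Γ : Type} [Field K] [CharZero K] [IsAlgClosed K] [AddCommGroup X] [Module K X]
  [FiniteDimensional K X] [AddCommGroup Y] [Module K Y] [FiniteDimensional K Y] [Group Γ]
  {R : Representation K Γ X} {Q : Representation K Γ Y} {χ : Γ →* K}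

theorem chi_inv (g : Γ) : χ g * χ g⁻¹ = 1 := by rw [← map_mul, mul_inv_cancel, map_one]

theorem chi_ne (g : Γ) : χ g ≠ 0 := fun h0 => by
  have h1 := chi_inv (χ := χ) g
  rw [h0, zero_mul] at h1
  exact zero_ne_one h1

/-- The product of linear forms. -/
def thp (θ : Y →ₗ[K] K) (m : ℕ) : MultilinearMap K (fun _ : Fin m => Y) K :=
  (MultilinearMap.mkPiAlgebra K (Fin m) K).compLinearMap fun _ => θ

theorem thp_apply (θ : Y →ₗ[K] K) (m : ℕ) (y : Fin m → Y) : thp θ m y = ∏ j, θ (y j) := rfl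

/-- `NP` is contained in the Lie algebra of `X`, if `Y` has the inverse of `χ` as a quotient. -/
theorem np_lieT (hUSE : S_USE) {θ : Y →ₗ[K] K} (hθ : θ ≠ 0) (hθQ : ∀ g y, θ (Q g y) = θ y)
    {θ' : Y →ₗ[K] K} (hθ' : θ' ≠ 0) (hθQ' : ∀ g y, θ' (Q g y) = χ g⁻¹ * θ' y) {a : End K X}
    (ha : a ∈ NP R Q) : a ∈ lieT R χ := by
  rintro m φ ⟨Δ, hΔ, hφ⟩ v
  obtain ⟨T, hT⟩ : ∃ T : MF K X Y (Fin m × Fin 2) (Fin m), ∀ v y, T v y = φ v * thp θ' m y :=
    ⟨(LinearMap.toSpanSingleton K _ (thp θ' m)).compMultilinearMap φ, fun v y => rfl⟩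
  obtain ⟨y₁, hy₁⟩ : ∃ y₁, θ' y₁ ≠ 0 := by
    by_contra hcon
    push Not at hcon
    exact hθ' (LinearMap.ext hcon)
  have hI : Inv R Q T := by
    refine ⟨Δ, hΔ, fun g hg v y => ?_⟩
    rw [hT, hT, hφ g hg, thp_apply, thp_apply, Finset.prod_congr rfl fun j _ => hθQ' g (y j),
      Finset.prod_mul_distrib, Finset.prod_const, Finset.card_univ, Fintype.card_fin]
    have h1 : χ g ^ m * χ g⁻¹ ^ m = 1 := by rw [← mul_pow, chi_inv, one_pow]
    linear_combination (φ v * ∏ j, θ' (y j)) * h1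
  have h1 := hUSE K X Y Γ _ _ R Q a θ hθ hθQ ha T hI v (fun _ => y₁)
  rw [Finset.sum_congr rfl fun i _ => hT _ _, ← Finset.sum_mul] at h1
  refine (mul_eq_zero.1 h1).resolve_right ?_
  rw [thp_apply]
  exact Finset.prod_ne_zero_iff.2 fun j _ => hy₁

/-- Unipotent elements which act trivially on `Y`. -/
theorem unip_np {γ : Γ} (h2 : (R γ - 1) * (R γ - 1) = 0) (hQ : Q γ = 1) : R γ - 1 ∈ NP R Q := by
  have h3 : pr R Q γ - 1 = (R γ - 1).prodMap (0 : End K Y) := by
    refine LinearMap.ext fun v => Prod.ext rfl ?_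
    change Q γ v.2 - v.2 = 0
    rw [hQ]
    exact sub_self _
  have h4 : (R γ - 1).prodMap (0 : End K Y) * (R γ - 1).prodMap 0 =
      ((R γ - 1) * (R γ - 1)).prodMap 0 := rfl
  have h5 := unip_lieT (pr R Q) (1 : Γ →* K) γ (by
    rw [h3, h4, h2]
    exact LinearMap.ext fun v => rfl) rfl
  rw [h3] at h5
  exact h5

/-- The condition on the parts of `Y`. -/
def Parts (R : Representation K Γ X) (Q : Representation K Γ Y) {ι : Type}
    (W : ι → Submodule K Y) : Prop :=
  ∀ U, SI R U → (∀ j, (∃ Δ : Subgroup Γ, Δ.FiniteIndex ∧ ∀ g ∈ Δ, ∀ h ∈ Δ, ∀ y ∈ W j,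
      Q g (Q h y) = Q h (Q g y)) ∨
        2 * finrank K (W j) ^ 2 < finrank K U * (finrank K U + 1)) ∨
    ∃ γ : Γ, (R γ - 1) * (R γ - 1) = 0 ∧ U.map (R γ - 1) ≠ ⊥ ∧ Q γ = 1

variable (ω : X →ₗ[K] X →ₗ[K] K) (hnd : ∀ u, (∀ v, ω u v = 0) → u = 0)
  (hωR : ∀ g u v, ω (R g u) (R g v) = χ g * ω u v) (hss : HasProj R)
  (halt : ∀ U, SI R U → AltDual R χ U)
  (h4 : ∀ U, SI R U → ¬4 ∣ finrank K U ∨ finrank K U = 4)
  {SP : Set (End K X × End K Y)} (h : Pairs R Q χ SP) (hne : SP.Nonempty)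
  {ι : Type} [Fintype ι] {W : ι → Submodule K Y} (htop : ⨆ j, W j = ⊤)
  (hst : ∀ j, ∀ p ∈ SP, ∀ y ∈ W j, p.2 y ∈ W j)
  (hcm : ∀ j, (∃ Δ : Subgroup Γ, Δ.FiniteIndex ∧ ∀ g ∈ Δ, ∀ h ∈ Δ, ∀ y ∈ W j,
      Q g (Q h y) = Q h (Q g y)) → ∀ p ∈ SP, ∀ q ∈ SP, ∀ y ∈ W j, p.2 (q.2 y) = q.2 (p.2 y))
  (hparts : Parts R Q W) (hA : AllS)

include hnd hωR hss halt h4 h hne htop hst hcm hparts hA in
/-- The skew operators lift. -/
theorem full (hNP : ∀ a ∈ NP R Q, a ∈ lieT R χ) (U : Submodule K X) (hU : SI R U) :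
    ∃ om : U →ₗ[K] U →ₗ[K] K, Frm R χ U om ∧ Lifts R Q om := by
  obtain ⟨om, F⟩ := exists_frm ω hnd hωR hss hU (halt U hU)
  have hsk := sk_lift hA.spg ω hnd hωR hss hU h hne (altDual_two_le (halt U hU)) (h4 U hU) F
  refine ⟨om, F, ?_⟩
  rcases hparts U hU with hj | ⟨γ, h2, h3, hQ⟩
  · refine lift_all hA.sim h F hsk hst htop fun j => ?_
    rcases hj j with h5 | h5
    · refine lift_abelian hA.sim h F hsk hst ?_
      rintro i rfl
      exact hcm i h5
    · exact lift_small hA.sim hA.dim ω hnd hωR hss hU h F hsk hst j h5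
  · exact lift_unip hA.sim ω hnd hωR hss hU h F hNP hsk (unip_np h2 hQ) h3

include h hne in
theorem exists_ax : ∃ x, Ax R Q χ x := by
  obtain ⟨p, hp⟩ := hne
  obtain ⟨h1, h2⟩ := h.gen.weak p.1 ⟨p, hp, rfl⟩
  exact ⟨p.1, h1, h2, fun a ha => np_br h (mem_hull hp) ha⟩

section twist

variable (Q) (χ)

/-- The representation `Y` with the inverse of `χ` and the trivial representation added. -/
def plus : Representation K Γ (Y × (K × K)) where
  toFun g := (Q g).prodMap (((χ g⁻¹) • (1 : End K K)).prodMap 1)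
  map_one' := by
    refine LinearMap.ext fun v => Prod.ext ?_ (Prod.ext ?_ rfl)
    · change Q 1 v.1 = v.1
      rw [map_one]
      rfl
    · change χ 1⁻¹ • v.2.1 = v.2.1
      rw [inv_one, map_one, one_smul]
  map_mul' g h := by
    refine LinearMap.ext fun v => Prod.ext ?_ (Prod.ext ?_ rfl)
    · change Q (g * h) v.1 = Q g (Q h v.1)
      rw [map_mul]
      rfl
    · change χ (g * h)⁻¹ • v.2.1 = χ g⁻¹ • χ h⁻¹ • v.2.1
      rw [mul_inv_rev, map_mul, mul_comm, mul_smul]

/-- The parts. -/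
def plusW {ι : Type} (W : ι → Submodule K Y) : Option ι → Submodule K (Y × (K × K))
  | some j => (W j).map (LinearMap.inl K Y (K × K))
  | none => LinearMap.range (LinearMap.inr K Y (K × K))

variable {Q} {χ}

theorem plusW_top {ι : Type} {W : ι → Submodule K Y} (htop : ⨆ j, W j = ⊤) :
    ⨆ j, plusW W j = ⊤ := by
  rw [eq_top_iff]
  intro z _
  have h1 : (z.1, (0 : K × K)) ∈ ⨆ j, plusW W j := by
    have h2 : (⊤ : Submodule K Y).map (LinearMap.inl K Y (K × K)) ≤ ⨆ j, plusW W j := by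
      rw [← htop, Submodule.map_iSup]
      exact iSup_le fun j => le_iSup (plusW W) (some j)
    exact h2 ⟨z.1, trivial, rfl⟩
  have h3 : ((0 : Y), z.2) ∈ ⨆ j, plusW W j :=
    le_iSup (plusW W) none ⟨z.2, rfl⟩
  have h4 : z = (z.1, 0) + (0, z.2) := by
    refine Prod.ext ?_ ?_
    · change z.1 = z.1 + 0
      rw [add_zero]
    · change z.2 = 0 + z.2
      rw [zero_add]
  rw [h4]
  exact Submodule.add_mem _ h1 h3

theorem plusW_stable {ι : Type} {W : ι → Submodule K Y} (hW : ∀ j, ∀ g, ∀ y ∈ W j, Q g y ∈ W j)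
    (j : Option ι) (g : Γ) : ∀ y ∈ plusW W j, plus Q χ g y ∈ plusW W j := by
  rintro y hy
  match j, hy with
  | some j, ⟨w, hw, hwy⟩ =>
    rw [← hwy]
    refine ⟨Q g w, hW j g w hw, Prod.ext rfl (Prod.ext ?_ rfl)⟩
    change (0 : K) = χ g⁻¹ • (0 : K)
    rw [smul_zero]
  | none, ⟨w, hwy⟩ =>
    rw [← hwy]
    refine ⟨(χ g⁻¹ • w.1, w.2), Prod.ext ?_ rfl⟩
    change (0 : Y) = Q g 0
    rw [map_zero]

theorem plusW_comm {ι : Type} {W : ι → Submodule K Y} (j : ι) {g h : Γ}
    (hgh : ∀ y ∈ W j, Q g (Q h y) = Q h (Q g y)) :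
    ∀ y ∈ plusW W (some j), plus Q χ g (plus Q χ h y) = plus Q χ h (plus Q χ g y) := by
  rintro _ ⟨w, hw, rfl⟩
  refine Prod.ext (hgh w hw) (Prod.ext ?_ rfl)
  change χ g⁻¹ • χ h⁻¹ • (0 : K) = χ h⁻¹ • χ g⁻¹ • (0 : K)
  simp only [smul_zero]

theorem plusW_comm' {ι : Type} {W : ι → Submodule K Y} (g h : Γ) :
    ∀ y ∈ plusW W none, plus Q χ g (plus Q χ h y) = plus Q χ h (plus Q χ g y) := by
  rintro _ ⟨w, rfl⟩
  refine Prod.ext ?_ (Prod.ext ?_ rfl)
  · change Q g (Q h 0) = Q h (Q g 0)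
    simp only [map_zero]
  · change χ g⁻¹ • χ h⁻¹ • w.1 = χ h⁻¹ • χ g⁻¹ • w.1
    rw [smul_comm]

theorem plusW_finrank {ι : Type} {W : ι → Submodule K Y} (j : ι) :
    finrank K (plusW W (some j)) = finrank K (W j) :=
  (Submodule.equivMapOfInjective (LinearMap.inl K Y (K × K)) LinearMap.inl_injective
    (W j)).finrank_eq.symm

/-- The form `z ↦ f (z.1) * ∏ z.2.1`. -/
def psi (K Y : Type) [Field K] [AddCommGroup Y] [Module K Y] (ι : Type) [Fintype ι] (t : ℕ) :
    MultilinearMap K (fun _ : ι => Y) K →ₗ[K]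
      MultilinearMap K (fun _ : ι ⊕ Fin t => Y × (K × K)) K where
  toFun f := (LinearMap.mul' K K).compMultilinearMap
    ((f.compLinearMap fun _ => LinearMap.fst K Y (K × K)).domCoprod
      (thp ((LinearMap.fst K K K).comp (LinearMap.snd K Y (K × K))) t))
  map_add' f g := by
    refine MultilinearMap.ext fun z => ?_
    change (f _ + g _) * _ = f _ * _ + g _ * _
    rw [add_mul]
  map_smul' c f := by
    refine MultilinearMap.ext fun z => ?_
    change (c * f _) * _ = c * (f _ * _)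
    rw [mul_assoc]

theorem psi_apply {ι : Type} [Fintype ι] {t : ℕ} (f : MultilinearMap K (fun _ : ι => Y) K)
    (z : ι ⊕ Fin t → Y × (K × K)) :
    psi K Y ι t f z = f (fun j => (z (Sum.inl j)).1) * ∏ i, (z (Sum.inr i)).2.1 := rfl

/-- The restriction to `Y`. -/
def rst (K Y : Type) [Field K] [AddCommGroup Y] [Module K Y] (ι : Type) [Fintype ι] (t : ℕ) :
    MultilinearMap K (fun _ : ι ⊕ Fin t => Y × (K × K)) K →ₗ[K]
      MultilinearMap K (fun _ : ι => Y) K where
  toFun F :=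
    { toFun := fun y => F (Sum.elim (fun j => (y j, 0)) fun _ => (0, (1, 0)))
      map_update_add' := by
        classical
        intro _ y j a b
        have h1 : ∀ c : Y, (Sum.elim (fun i => ((Function.update y j c i, 0) : Y × (K × K)))
            (fun _ : Fin t => ((0, (1, 0)) : Y × (K × K)))) =
            Function.update (Sum.elim (fun i => ((y i, 0) : Y × (K × K)))
              (fun _ : Fin t => ((0, (1, 0)) : Y × (K × K)))) (Sum.inl j) (c, 0) := by
          intro c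
          funext i
          rcases i with i | i
          · by_cases hij : i = j
            · subst hij
              simp
            · simp [hij]
          · simp
        have h2 : ((a + b, 0) : Y × (K × K)) = (a, 0) + (b, 0) := by simp
        have e : (inferInstance : DecidableEq ι) = _ := rfl
        convert (F.map_update_add (Sum.elim (fun i => ((y i, 0) : Y × (K × K)))
              (fun _ : Fin t => ((0, (1, 0)) : Y × (K × K)))) (Sum.inl j) (a, 0) (b, 0)) using 2
        · rw [← h2, ← h1]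
        · congr 1
          rw [← h1]
        · rw [← h1]
      map_update_smul' := by
        classical
        intro _ y j c a
        have h1 : ∀ c : Y, (Sum.elim (fun i => ((Function.update y j c i, 0) : Y × (K × K)))
            (fun _ : Fin t => ((0, (1, 0)) : Y × (K × K)))) =
            Function.update (Sum.elim (fun i => ((y i, 0) : Y × (K × K)))
              (fun _ : Fin t => ((0, (1, 0)) : Y × (K × K)))) (Sum.inl j) (c, 0) := by
          intro c
          funext i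
          rcases i with i | i
          · by_cases hij : i = j
            · subst hij
              simp
            · simp [hij]
          · simp
        have h2 : ((c • a, 0) : Y × (K × K)) = c • (a, 0) := by simp
        convert (F.map_update_smul (Sum.elim (fun i => ((y i, 0) : Y × (K × K)))
              (fun _ : Fin t => ((0, (1, 0)) : Y × (K × K)))) (Sum.inl j) c (a, 0)) using 2
        · rw [← h2, ← h1]
        · rw [← h1] }
  map_add' f g := rfl
  map_smul' c f := rfl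

theorem rst_apply {ι : Type} [Fintype ι] {t : ℕ}
    (F : MultilinearMap K (fun _ : ι ⊕ Fin t => Y × (K × K)) K) (y : ι → Y) :
    rst K Y ι t F y = F (Sum.elim (fun j => (y j, 0)) fun _ => (0, (1, 0))) := rfl

theorem rst_psi {ι : Type} [Fintype ι] {t : ℕ} (f : MultilinearMap K (fun _ : ι => Y) K) :
    rst K Y ι t (psi K Y ι t f) = f := by
  refine MultilinearMap.ext fun y => ?_
  rw [rst_apply, psi_apply]
  simp

theorem rst_tate {ι : Type} [Fintype ι] {t m : ℕ}
    {F : MultilinearMap K (fun _ : ι ⊕ Fin t => Y × (K × K)) K} {g : Γ}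
    (hF : ∀ z, χ g ^ m * F (fun j => plus Q χ g (z j)) = F z) (y : ι → Y) :
    χ g ^ m * rst K Y ι t F (fun j => Q g (y j)) = χ g ^ t * rst K Y ι t F y := by
  rw [rst_apply, rst_apply]
  have h1 := hF (Sum.elim (fun j => (y j, 0)) fun _ => (0, (1, 0)))
  have h2 : (fun j => plus Q χ g (Sum.elim (fun j => ((y j, 0) : Y × (K × K)))
      (fun _ : Fin t => (0, (1, 0))) j)) =
      fun j => (Sum.elim (fun _ : ι => (1 : K)) (fun _ : Fin t => χ g⁻¹) j) •
        (Sum.elim (fun j => ((Q g (y j), 0) : Y × (K × K)))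
          (fun _ : Fin t => ((0, (1, 0)) : Y × (K × K))) j) := by
    funext j
    rcases j with j | j
    · refine Prod.ext ?_ (Prod.ext ?_ ?_)
      · change Q g (y j) = (1 : K) • Q g (y j)
        rw [one_smul]
      · change χ g⁻¹ • (0 : K) = (1 : K) • (0 : K)
        rw [smul_zero, smul_zero]
      · change (0 : K) = (1 : K) • (0 : K)
        rw [smul_zero]
    · refine Prod.ext ?_ (Prod.ext ?_ ?_)
      · change Q g 0 = χ g⁻¹ • (0 : Y)
        rw [map_zero, smul_zero]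
      · rfl
      · change (0 : K) = χ g⁻¹ • (0 : K)
        rw [smul_zero]
  rw [h2, F.map_smul_univ, Fintype.prod_sum_type] at h1
  simp only [Sum.elim_inl, Sum.elim_inr, Finset.prod_const_one, one_mul, Finset.prod_const,
    Finset.card_univ, Fintype.card_fin, smul_eq_mul] at h1
  rw [← h1]
  have h3 : χ g ^ t * χ g⁻¹ ^ t = 1 := by rw [← mul_pow, chi_inv, one_pow]
  linear_combination -(χ g ^ m * F (Sum.elim (fun j => ((Q g (y j), 0) : Y × (K × K)))
          (fun _ : Fin t => ((0, (1, 0)) : Y × (K × K))))) * h3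

theorem inv_psi {κ ι : Type} [Fintype ι] {t : ℕ} {T : MF K X Y κ ι}
    (hT : ∃ Δ : Subgroup Γ, Δ.FiniteIndex ∧ ∀ g ∈ Δ, ∀ (v : κ → X) (y : ι → Y),
      T (fun i => R g (v i)) (fun j => Q g (y j)) = χ g ^ t * T v y) :
    Inv R (plus Q χ) ((psi K Y ι t).compMultilinearMap T) := by
  obtain ⟨Δ, hΔ, h⟩ := hT
  refine ⟨Δ, hΔ, fun g hg v z => ?_⟩
  change psi K Y ι t (T _) _ = psi K Y ι t (T v) z
  rw [psi_apply, psi_apply]
  have h1 : (∏ i : Fin t, (plus Q χ g (z (Sum.inr i))).2.1) =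
      χ g⁻¹ ^ t * ∏ i : Fin t, (z (Sum.inr i)).2.1 := by
    change (∏ i : Fin t, χ g⁻¹ • (z (Sum.inr i)).2.1) = _
    simp only [smul_eq_mul]
    rw [Finset.prod_mul_distrib, Finset.prod_const, Finset.card_univ, Fintype.card_fin]
  rw [h1]
  have h2 := h g hg v (fun j => (z (Sum.inl j)).1)
  have h3 : χ g ^ t * χ g⁻¹ ^ t = 1 := by rw [← mul_pow, chi_inv, one_pow]
  change T (fun i => R g (v i)) (fun j => Q g (z (Sum.inl j)).1) * _ = _
  rw [h2]
  linear_combination (T v (fun j => (z (Sum.inl j)).1) * ∏ i : Fin t, (z (Sum.inr i)).2.1) * h3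

end twist

end

end Pool.Agent.Y224.AZ
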