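import Mathlib
import Pool.Agent.Y224.AZ.Main

/-!
# Tate classes on products: the theorem in terms of the general statements
-/

set_option linter.unusedSectionVars false
set_option linter.unusedSimpArgs false

namespace Pool.Agent.Y224.AZ

open Module TensorProduct Pool.Agent.H204R3.SP Pool.Agent.H204R3.GP Pool.Agent.W522.U
open Pool.Agent.Y224.CP Pool.Agent.Y224.OD
open Pool.Agent.W528.Tor (AltDual)

noncomputable section

/-- The statements about logarithms. -/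
structure LogS : Prop where
  ex : S_LOGEX
  log : S_LOG
  com : S_LOGC
  prod : S_LOGP

section alt

variable {K X Y Γ : Type} [Field K] [CharZero K] [AddCommGroup X] [Module K X]
  [AddCommGroup Y] [Module K Y] [Group Γ]
  {R : Representation K Γ X} {Q : Representation K Γ Y} {χ : Γ →* K}

theorem tate2_span {B : X →ₗ[K] X →ₗ[K] K}
    (hB : B ∈ Submodule.span K ({B | IsTate2 R χ B} ∪ LinearMap.flip '' {B | IsTate2 R χ B})) :
    IsTate2 R χ B := by
  induction hB using Submodule.span_induction with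
  | mem B hB =>
    rcases hB with hB | ⟨B', ⟨Δ, hΔ, h⟩, rfl⟩
    · exact hB
    · exact ⟨Δ, hΔ, fun g hg u v => h g hg v u⟩
  | zero => exact ⟨⊤, inferInstance, fun g _ u v => by simp⟩
  | add B B' _ _ h h' =>
    obtain ⟨Δ, hΔ, h⟩ := h
    obtain ⟨Δ', hΔ', h'⟩ := h'
    refine ⟨Δ ⊓ Δ', inferInstance, fun g hg u v => ?_⟩
    rw [LinearMap.add_apply, LinearMap.add_apply, LinearMap.add_apply, LinearMap.add_apply,
      h g hg.1, h' g hg.2, mul_add]
  | smul t B _ h =>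
    obtain ⟨Δ, hΔ, h⟩ := h
    refine ⟨Δ, hΔ, fun g hg u v => ?_⟩
    rw [LinearMap.smul_apply, LinearMap.smul_apply, LinearMap.smul_apply, LinearMap.smul_apply,
      h g hg, smul_eq_mul, smul_eq_mul]
    ring

/-- Alternating forms the components of which are Tate forms. -/
theorem tate_of_comp {n : ℕ} (B : (Fin n → X) [⋀^Fin 2]→ₗ[K] K)
    (h : ∀ i j, ∃ B₁ ∈ Submodule.span K ({B | IsTate2 R χ B} ∪
      LinearMap.flip '' {B | IsTate2 R χ B}), ∀ u v : X,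
        B ![Pi.single i u, Pi.single j v] = B₁ u v) :
    ∃ Δ : Subgroup Γ, Δ.FiniteIndex ∧ ∀ g ∈ Δ, ∀ v : Fin 2 → Fin n → X,
      B (fun i j => R g (v i j)) = χ g * B v := by
  classical
  choose B₁ hB₁ hB using h
  have hT : ∀ i j, IsTate2 R χ (B₁ i j) := fun i j => tate2_span (hB₁ i j)
  choose Δ hΔ hg using hT
  have hΔ1 : ∀ i, (⨅ j, Δ i j).FiniteIndex := fun i => Subgroup.finiteIndex_iInf (hΔ i)
  refine ⟨⨅ i, ⨅ j, Δ i j, Subgroup.finiteIndex_iInf hΔ1, fun g hg' v => ?_⟩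
  have hexp : ∀ v : Fin 2 → Fin n → X, B v =
      ∑ r : Fin 2 → Fin n, B₁ (r 0) (r 1) (v 0 (r 0)) (v 1 (r 1)) := by
    intro v
    have h1 : v = fun i => ∑ j, (Pi.single j (v i j) : Fin n → X) := by
      funext i
      exact (Finset.univ_sum_single (v i)).symm
    have h2 : B.toMultilinearMap v = ∑ r : Fin 2 → Fin n, B.toMultilinearMap
        (fun i => (Pi.single (r i) (v i (r i)) : Fin n → X)) := by
      conv_lhs => rw [h1]
      exact B.toMultilinearMap.map_sum _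
    refine h2.trans (Finset.sum_congr rfl fun r _ => ?_)
    rw [← hB]
    change B _ = B _
    congr 1
    funext i
    match i with
    | 0 => rfl
    | 1 => rfl
  rw [hexp, hexp, Finset.mul_sum]
  refine Finset.sum_congr rfl fun r _ => ?_
  rw [Subgroup.mem_iInf] at hg'
  have h3 := hg' (r 0)
  rw [Subgroup.mem_iInf] at h3
  exact hg _ _ g (h3 (r 1)) _ _

/-- The components of an alternating form. -/
def cmp {κ ι : Type} {n : ℕ} (f : (Fin n → X) [⋀^κ]→ₗ[K] (MultilinearMap K (fun _ : ι => Y) K))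
    (c : κ → Fin n) : MF K X Y κ ι :=
  f.toMultilinearMap.compLinearMap fun i => LinearMap.single K (fun _ : Fin n => X) (c i)

theorem cmp_apply {κ ι : Type} {n : ℕ}
    (f : (Fin n → X) [⋀^κ]→ₗ[K] (MultilinearMap K (fun _ : ι => Y) K)) (c : κ → Fin n)
    (v : κ → X) : cmp f c v = f fun i => Pi.single (c i) (v i) := rfl

theorem cmp_tate {κ ι : Type} {n t : ℕ}
    {f : (Fin n → X) [⋀^κ]→ₗ[K] (MultilinearMap K (fun _ : ι => Y) K)}
    (hf : ∃ Δ : Subgroup Γ, Δ.FiniteIndex ∧ ∀ g ∈ Δ, ∀ (v : κ → Fin n → X) (y : ι → Y),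
      f (fun i j => R g (v i j)) (fun j => Q g (y j)) = χ g ^ t * f v y) (c : κ → Fin n) :
    ∃ Δ : Subgroup Γ, Δ.FiniteIndex ∧ ∀ g ∈ Δ, ∀ (v : κ → X) (y : ι → Y),
      cmp f c (fun i => R g (v i)) (fun j => Q g (y j)) = χ g ^ t * cmp f c v y := by
  obtain ⟨Δ, hΔ, h⟩ := hf
  refine ⟨Δ, hΔ, fun g hg v y => ?_⟩
  rw [cmp_apply, cmp_apply, ← h g hg]
  congr 2
  funext i j
  by_cases hij : j = c i
  · subst hij
    rw [Pi.single_eq_same, Pi.single_eq_same]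
  · rw [Pi.single_eq_of_ne hij, Pi.single_eq_of_ne hij, map_zero]

theorem eq_zero_of_cmp {κ ι : Type} [Fintype κ] {n : ℕ}
    (f : (Fin n → X) [⋀^κ]→ₗ[K] (MultilinearMap K (fun _ : ι => Y) K))
    (h : ∀ c, cmp f c = 0) : f = 0 := by
  classical
  refine AlternatingMap.ext fun v => ?_
  have h1 : v = fun i => ∑ j, (Pi.single j (v i j) : Fin n → X) := by
    funext i
    exact (Finset.univ_sum_single (v i)).symm
  have h2 : f.toMultilinearMap v = ∑ r : κ → Fin n, f.toMultilinearMap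
      (fun i => (Pi.single (r i) (v i (r i)) : Fin n → X)) := by
    conv_lhs => rw [h1]
    exact f.toMultilinearMap.map_sum _
  refine h2.trans (Finset.sum_eq_zero fun r _ => ?_)
  have h3 := congrArg (fun T : MF K X Y κ ι => T fun i => v i (r i)) (h r)
  exact h3

end alt

variable (hL : LogS) (hA : AllS)
  (ℓ : ℕ) [Fact ℓ.Prime] {V Γ : Type} (K : Type) [AddCommGroup V] [Module ℚ_[ℓ] V]
  [FiniteDimensional ℚ_[ℓ] V] [Group Γ] [TopologicalSpace Γ] [IsTopologicalGroup Γ]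
  [CompactSpace Γ] [Field K] [IsAlgClosed K] [CharZero K] [Algebra ℚ_[ℓ] K]
  (ρ : Representation ℚ_[ℓ] Γ V) (χ : Γ →* ℚ_[ℓ]) (ω : V →ₗ[ℚ_[ℓ]] V →ₗ[ℚ_[ℓ]] ℚ_[ℓ])
  (halt : ∀ v, ω v v = 0) (hnondeg : ∀ u, (∀ v, ω v u = 0) → u = 0)
  (hω : ∀ s u v, ω (ρ s u) (ρ s v) = χ s * ω u v)
  (hcont : ∀ (v : V) (φ : V →ₗ[ℚ_[ℓ]] ℚ_[ℓ]), Continuous fun g => φ (ρ g v))
  (hss : HasProj (bcr ρ K))
  (hord : Dense {F | ∃ p : ℕ, p.Prime ∧ OD.IsOrdinaryFrobenius p ρ χ F})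
  (halt' : ∀ U, SI (bcr ρ K) U → AltDual (bcr ρ K) (bcc χ K) U)
  (h4 : ∀ U, SI (bcr ρ K) U → ¬4 ∣ finrank K U ∨ finrank K U = 4)
  {Y J : Type} [AddCommGroup Y] [Module K Y] [FiniteDimensional K Y] [Fintype J]
  (Q : Representation K Γ Y) (W : J → Submodule K Y) (hW : ∀ j, ∀ g, ∀ y ∈ W j, Q g y ∈ W j)
  (htop : ⨆ j, W j = ⊤) (hparts : Parts (bcr ρ K) Q W)

include hparts halt hnondeg hω in
theorem parts_plus : Parts (bcr ρ K) (plus Q (bcc χ K)) (plusW W) := by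
  intro U hU
  rcases hparts U hU with hj | ⟨γ, h2, h3, hQ⟩
  · left
    intro j
    match j with
    | none =>
      exact Or.inl ⟨⊤, inferInstance, fun g _ h _ y hy => plusW_comm' g h y hy⟩
    | some j =>
      rcases hj j with ⟨Δ, hΔ, h⟩ | h
      · exact Or.inl ⟨Δ, hΔ, fun g hg h' hh y hy => plusW_comm j (h g hg h' hh) y hy⟩
      · right
        rw [plusW_finrank]
        exact h
  · right
    refine ⟨γ, h2, h3, ?_⟩
    have hl1 : ∀ u, (∀ v, bcb K ω u v = 0) → u = 0 := fun u hu =>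
      bcb_nondeg_left ω hnondeg (left_nondeg ω halt hnondeg) u hu
    obtain ⟨y, ⟨u, hu, rfl⟩, hy0⟩ := (Submodule.ne_bot_iff _).1 h3
    have hχ : bcc χ K γ = 1 := unip_chi (bcb K ω) hl1 (bcb_inv ρ χ ω hω) γ h2 hy0
    have hχ' : bcc χ K γ⁻¹ = 1 := by
      have h5 := chi_inv (χ := bcc χ K) γ
      rw [hχ, one_mul] at h5
      exact h5
    refine LinearMap.ext fun z => Prod.ext ?_ (Prod.ext ?_ rfl)
    · change Q γ z.1 = z.1
      rw [hQ]
      rfl
    · change bcc χ K γ⁻¹ • z.2.1 = z.2.1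
      rw [hχ', one_smul]

/-- The data for the enlarged representation. -/
structure Ready (R : Representation K Γ (K ⊗[ℚ_[ℓ]] V)) (χ : Γ →* K) (Q : Representation K Γ Y) :
    Prop where
  np : ∀ a ∈ NP R (plus Q χ), a ∈ lieT R χ
  full : ∀ U, SI R U → ∃ om : U →ₗ[K] U →ₗ[K] K, Frm R χ U om ∧ Lifts R (plus Q χ) om
  ax : ∃ x, Ax R (plus Q χ) χ x
  th : ∃ θ : Y × (K × K) →ₗ[K] K, θ ≠ 0 ∧ ∀ g y, θ (plus Q χ g y) = θ y

include hL hA halt hnondeg hω hcont hss hord halt' h4 hW htop hparts in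
theorem ready : Ready ℓ K (bcr ρ K) (bcc χ K) Q := by
  have hl1 : ∀ u, (∀ v, bcb K ω u v = 0) → u = 0 := fun u hu =>
    bcb_nondeg_left ω hnondeg (left_nondeg ω halt hnondeg) u hu
  have hinv := bcb_inv (Ω := K) ρ χ ω hω
  have hp := pairs hL.ex hL.log hL.prod ℓ K ρ χ ω halt hnondeg hω hcont hord
    (plus Q (bcc χ K))
  have hne := ss_nonempty hL.ex ℓ K ρ χ ω halt hnondeg hω hord (plus Q (bcc χ K))
  have hth : ∃ θ : Y × (K × K) →ₗ[K] K, θ ≠ 0 ∧ ∀ g y, θ (plus Q (bcc χ K) g y) = θ y := by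
    refine ⟨(LinearMap.snd K K K).comp (LinearMap.snd K Y (K × K)), fun h => ?_,
      fun g y => rfl⟩
    have h1 := LinearMap.congr_fun h (0, (0, 1))
    exact one_ne_zero h1
  obtain ⟨θ, hθ, hθQ⟩ := id hth
  have hnp : ∀ a ∈ NP (bcr ρ K) (plus Q (bcc χ K)), a ∈ lieT (bcr ρ K) (bcc χ K) :=
    fun a ha => np_lieT hA.use hθ hθQ
      (θ' := (LinearMap.fst K K K).comp (LinearMap.snd K Y (K × K))) (fun h => by
        have h1 := LinearMap.congr_fun h (0, (1, 0))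
        exact one_ne_zero h1) (fun g y => rfl) ha
  refine ⟨hnp, ?_, exists_ax hp hne, hth⟩
  refine full (bcb K ω) hl1 hinv hss halt' h4 hp hne (plusW_top htop) (fun j => ?_) (fun j hj => ?_)
    (parts_plus ℓ K ρ χ ω halt hnondeg hω Q W hparts) hA hnp
  · exact ss_stable hL.com ℓ K ρ χ (plus Q (bcc χ K)) (fun g y hy => plusW_stable hW j g y hy)
  · obtain ⟨Δ, hΔ, h⟩ := hj
    exact ss_comm hL.com ℓ K ρ χ (plus Q (bcc χ K)) (fun g y hy => plusW_stable hW j g y hy) hΔ h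

include hL hA halt hnondeg hω hcont hss hord halt' h4 hW htop hparts in
/-- **Even degree.** -/
theorem main_even (hALT : S_ALT) {n m l t : ℕ}
    (f : (Fin n → K ⊗[ℚ_[ℓ]] V) [⋀^Fin m × Fin 2]→ₗ[K]
      (MultilinearMap K (fun _ : Fin l => Y) K))
    (hf : ∃ Δ : Subgroup Γ, Δ.FiniteIndex ∧ ∀ g ∈ Δ, ∀ (v : Fin m × Fin 2 → Fin n → K ⊗[ℚ_[ℓ]] V)
      (y : Fin l → Y), f (fun i j => bcr ρ K g (v i j)) (fun j => Q g (y j)) =
        bcc χ K g ^ t * f v y) :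
    f ∈ Submodule.span K {g : (Fin n → K ⊗[ℚ_[ℓ]] V) [⋀^Fin m × Fin 2]→ₗ[K]
        (MultilinearMap K (fun _ : Fin l => Y) K) |
      ∃ B : Fin m → (Fin n → K ⊗[ℚ_[ℓ]] V) [⋀^Fin 2]→ₗ[K] K,
        (∀ l, ∃ Δ : Subgroup Γ, Δ.FiniteIndex ∧ ∀ s ∈ Δ, ∀ v : Fin 2 → Fin n → K ⊗[ℚ_[ℓ]] V,
          B l (fun i j => bcr ρ K s (v i j)) = bcc χ K s * B l v) ∧
        ∃ w : MultilinearMap K (fun _ : Fin l => Y) K,
          (∃ Δ : Subgroup Γ, Δ.FiniteIndex ∧ ∀ s ∈ Δ, ∀ y,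
            bcc χ K s ^ m * w (fun j => Q s (y j)) = bcc χ K s ^ t * w y) ∧
          ∀ v y, g v y = (∑ σ : Equiv.Perm (Fin m × Fin 2), ((Equiv.Perm.sign σ : ℤ) : K) *
            ∏ l, B l ![v (σ (l, 0)), v (σ (l, 1))]) * w y} := by
  have hl1 : ∀ u, (∀ v, bcb K ω u v = 0) → u = 0 := fun u hu =>
    bcb_nondeg_left ω hnondeg (left_nondeg ω halt hnondeg) u hu
  have hinv := bcb_inv (Ω := K) ρ χ ω hω
  have hR := ready hL hA ℓ K ρ χ ω halt hnondeg hω hcont hss hord halt' h4 Q W hW htop hparts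
  obtain ⟨x, hx⟩ := hR.ax
  obtain ⟨θ, hθ, hθQ⟩ := hR.th
  have h1 := hALT K (K ⊗[ℚ_[ℓ]] V) Y {B | IsTate2 (bcr ρ K) (bcc χ K) B} (Fin l)
    {w | ∃ Δ : Subgroup Γ, Δ.FiniteIndex ∧ ∀ s ∈ Δ, ∀ y,
            bcc χ K s ^ m * w (fun j => Q s (y j)) = bcc χ K s ^ t * w y} n m f (fun c => by
    refine ⟨cmp f c, ?_, fun v y => rfl⟩
    have hI := cmp_tate (R := bcr ρ K) (Q := Q) (χ := bcc χ K) hf c
    have h2 := even (bcb K ω) hl1 hinv hss hR.np halt' hR.full hx hA.spg hA.sim hA.grp hA.two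
      hA.dec hA.use hA.fin hθ hθQ _ (inv_psi hI)
    have h3 : (rst K Y (Fin l) t).compMultilinearMap
        ((psi K Y (Fin l) t).compMultilinearMap (cmp f c)) = cmp f c :=
      MultilinearMap.ext fun v => rst_psi _
    rw [← h3]
    generalize (psi K Y (Fin l) t).compMultilinearMap (cmp f c) = T' at h2
    clear h3
    induction h2 using Submodule.span_induction with
    | mem T' hT' =>
      obtain ⟨P, hP, w, ⟨Δ, hΔ, hw⟩, hTP⟩ := hT'
      refine Submodule.subset_span ⟨P, hP, rst K Y (Fin l) t w, ⟨Δ, hΔ, fun g hg y =>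
        rst_tate (hw g hg) y⟩, fun v y => ?_⟩
      exact hTP v _
    | zero =>
      have h4 : (rst K Y (Fin l) t).compMultilinearMap
          (0 : MF K (K ⊗[ℚ_[ℓ]] V) (Y × (K × K)) (Fin m × Fin 2) (Fin l ⊕ Fin t)) = 0 :=
        MultilinearMap.ext fun v => map_zero (rst K Y (Fin l) t)
      rw [h4]
      exact Submodule.zero_mem _
    | add T₁ T₂ _ _ h h' =>
      have h4 : (rst K Y (Fin l) t).compMultilinearMap (T₁ + T₂) =
          (rst K Y (Fin l) t).compMultilinearMap T₁ +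
            (rst K Y (Fin l) t).compMultilinearMap T₂ :=
        MultilinearMap.ext fun v => map_add (rst K Y (Fin l) t) _ _
      rw [h4]
      exact Submodule.add_mem _ h h'
    | smul a T₁ _ h =>
      have h4 : (rst K Y (Fin l) t).compMultilinearMap (a • T₁) =
          a • (rst K Y (Fin l) t).compMultilinearMap T₁ :=
        MultilinearMap.ext fun v => map_smul (rst K Y (Fin l) t) _ _
      rw [h4]
      exact Submodule.smul_mem _ _ h)
  refine Submodule.span_mono ?_ h1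
  rintro g ⟨B, hB, w, hw, hg⟩
  exact ⟨B, fun l => tate_of_comp (B l) (hB l), w, hw, hg⟩

include hL hA halt hnondeg hω hcont hss hord halt' h4 hW htop hparts in
/-- **Odd degree.** -/
theorem main_odd {n k l t : ℕ} (hk : Odd k)
    (f : (Fin n → K ⊗[ℚ_[ℓ]] V) [⋀^Fin k]→ₗ[K] (MultilinearMap K (fun _ : Fin l => Y) K))
    (hf : ∃ Δ : Subgroup Γ, Δ.FiniteIndex ∧ ∀ g ∈ Δ, ∀ (v : Fin k → Fin n → K ⊗[ℚ_[ℓ]] V)
      (y : Fin l → Y), f (fun i j => bcr ρ K g (v i j)) (fun j => Q g (y j)) =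
        bcc χ K g ^ t * f v y) : f = 0 := by
  have hl1 : ∀ u, (∀ v, bcb K ω u v = 0) → u = 0 := fun u hu =>
    bcb_nondeg_left ω hnondeg (left_nondeg ω halt hnondeg) u hu
  have hinv := bcb_inv (Ω := K) ρ χ ω hω
  have hR := ready hL hA ℓ K ρ χ ω halt hnondeg hω hcont hss hord halt' h4 Q W hW htop hparts
  obtain ⟨x, hx⟩ := hR.ax
  obtain ⟨θ, hθ, hθQ⟩ := hR.th
  refine eq_zero_of_cmp f fun c => ?_
  have hI := cmp_tate (R := bcr ρ K) (Q := Q) (χ := bcc χ K) hf c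
  have h2 := odd (bcb K ω) hl1 hinv hss hR.np hR.full hx hA.dec hA.inj hA.odd hA.use hθ hθQ hk _
    (inv_psi hI)
  have h3 : (rst K Y (Fin l) t).compMultilinearMap
      ((psi K Y (Fin l) t).compMultilinearMap (cmp f c)) = cmp f c :=
    MultilinearMap.ext fun v => rst_psi _
  rw [← h3, h2]
  exact MultilinearMap.ext fun v => map_zero (rst K Y (Fin l) t)

end

end Pool.Agent.Y224.AZ
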