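import Mathlib
import Pool.Agent.Y224.AZ.Fin
import Pool.Agent.Y624.AZ.Logex
import Pool.Agent.Y141.AZ.Log
import Pool.Agent.Y328.AZ.Logc
import Pool.Agent.Y978.AZ.Logp
import Pool.Agent.Y98.AZ.Spg
import Pool.Agent.Y369.AZ.Sim
import Pool.Agent.Y407.AZ.Dim
import Pool.Agent.Y26.AZ.Odd
import Pool.Agent.Y963.AZ.Inj
import Pool.Agent.Y809.AZ.Grp
import Pool.Agent.Y93.AZ.Two
import Pool.Agent.Y258.AZ.Fin
import Pool.Agent.Y925.AZ.Use
import Pool.Agent.Y502.AZ.Alt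
import Pool.Agent.Y606.AZ.Dec

/-!
# Products with other varieties: the general statements are proved
-/

namespace Pool.Agent.Y224.AZ

theorem s_dec : S_DEC := by
  intro K X Γ _ _ _ _ _ _ R hss
  exact Pool.Agent.Y606.AZ.Dec.t_dec R hss

theorem logS : LogS where
  ex := Pool.Agent.Y624.AZ.t_logex
  log := Pool.Agent.Y141.AZ.t_log
  com := Pool.Agent.Y328.AZ.t_logc
  prod := Pool.Agent.Y978.AZ.t_logp

theorem allS : AllS where
  spg := Pool.Agent.Y98.AZ.t_spg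
  sim := Pool.Agent.Y369.AZ.t_sim
  dim := Pool.Agent.Y407.AZ.t_dim
  odd := Pool.Agent.Y26.AZ.t_odd
  inj := Pool.Agent.Y963.AZ.t_inj
  grp := Pool.Agent.Y809.AZ.t_grp
  two := Pool.Agent.Y93.AZ.t_two
  dec := s_dec
  fin := Pool.Agent.Y258.AZ.t_fin
  use := Pool.Agent.Y925.AZ.t_use

theorem s_alt : S_ALT := Pool.Agent.Y502.AZ.t_alt

end Pool.Agent.Y224.AZ
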