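import Mathlib
import Pool.Agent.Y224.AZ.Fin

/-!
# Tate classes on products: the theorem for general sets of pairs of operators
-/

set_option linter.unusedSectionVars false
set_option linter.unusedSimpArgs false

namespace Pool.Agent.Y224.AZ

open Module TensorProduct Pool.Agent.H204R3.SP Pool.Agent.H204R3.GP Pool.Agent.W522.U
open Pool.Agent.Y224.CP Pool.Agent.Y224.OD
open Pool.Agent.W528.Tor (AltDual)

noncomputable section

variable {K X Y Γ J : Type} [Field K] [CharZero K] [IsAlgClosed K] [AddCommGroup X] [Module K X]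
  [FiniteDimensional K X] [AddCommGroup Y] [Module K Y] [FiniteDimensional K Y] [Group Γ]
  [Fintype J] {R : Representation K Γ X} {Q : Representation K Γ Y} {χ : Γ →* K}

/-- The operator `z ⊕ (-1) ⊕ 0`. -/
def exz (z : End K Y) : End K (Y × (K × K)) := z.prodMap ((-(1 : End K K)).prodMap 0)

theorem exz_apply (z : End K Y) (v : Y × (K × K)) : exz z v = (z v.1, (-v.2.1, 0)) := rfl

/-- The pairs extended. -/
def exS (S : Set (End K X × End K Y)) : Set (End K X × End K (Y × (K × K))) :=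
  {q | ∃ z, (q.1, z) ∈ S ∧ q.2 = exz z}

/-- A set of pairs of operators in the Lie algebra, stable under conjugation, whose first
components generate. -/
structure HP (R : Representation K Γ X) (Q : Representation K Γ Y) (χ : Γ →* K)
    (S : Set (End K X × End K Y)) : Prop where
  ne : S.Nonempty
  sq : ∀ p ∈ S, p.1 * p.1 = (1 / 4 : K) • 1
  weak : ∀ p ∈ S, p.1 ∈ lieT R χ
  mem : ∀ p ∈ S, (p.1 + (1 / 2 : K) • 1).prodMap (exz p.2) ∈ lieT (pr R (plus Q χ)) (1 : Γ →* K)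
  spn : ∀ p ∈ S, ∀ Δ : Subgroup Γ, Δ.FiniteIndex →
    p.2 ∈ Submodule.span K {z : End K Y | ∃ g ∈ Δ, z = Q g}
  conj : ∀ g, ∀ p ∈ S, (R g * p.1 * R g⁻¹, Q g * p.2 * Q g⁻¹) ∈ S
  gen : ∀ P : End K X, (∀ p ∈ S, P * p.1 = p.1 * P) →
    ∃ Δ : Subgroup Γ, Δ.FiniteIndex ∧ ∀ g ∈ Δ, P * R g = R g * P

variable {S : Set (End K X × End K Y)}

theorem exz_conj (g : Γ) (z : End K Y) :
    plus Q χ g * exz z * plus Q χ g⁻¹ = exz (Q g * z * Q g⁻¹) := by
  refine LinearMap.ext fun v => Prod.ext ?_ (Prod.ext ?_ ?_)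
  · change Q g (z (Q g⁻¹ v.1)) = Q g (z (Q g⁻¹ v.1))
    rfl
  · change χ g⁻¹ • (-(χ g⁻¹⁻¹ • v.2.1)) = -v.2.1
    have h1 := chi_inv (χ := χ) g⁻¹
    rw [smul_neg, smul_smul, h1, one_smul]
  · change (0 : K) = 0
    rfl

theorem exS_mk {S : Set (End K X × End K Y)} {x : End K X} {z : End K Y} (hz : (x, z) ∈ S) :
    (x, exz z) ∈ exS S := ⟨z, hz, rfl⟩

theorem exS_conj (h : HP R Q χ S) (g : Γ) {x : End K X} {z : End K Y} (hz : (x, z) ∈ S) :
    (R g * x * R g⁻¹, exz (Q g * z * Q g⁻¹)) ∈ exS S := by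
  have h1 : (R g * x * R g⁻¹, Q g * z * Q g⁻¹) ∈ S := h.conj g (x, z) hz
  exact exS_mk h1

theorem exS_conj' (h : HP R Q χ S) (g : Γ) : ∀ q ∈ exS S,
    (R g * q.1 * R g⁻¹, plus Q χ g * q.2 * plus Q χ g⁻¹) ∈ exS S := by
  rintro ⟨x, z'⟩ ⟨z, hz, hq⟩
  have hq' : z' = exz z := hq
  subst hq'
  have h1 := exS_conj h g hz
  rw [← exz_conj (χ := χ) g z] at h1
  exact h1

theorem exS_gen (h : HP R Q χ S) : Gen R χ (Prod.fst '' exS S) where
  weak := by
    rintro x ⟨⟨x', z'⟩, ⟨z, hz, -⟩, hx⟩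
    have hx' : x' = x := hx
    subst hx'
    exact ⟨h.weak (x', z) hz, h.sq (x', z) hz⟩
  conj := by
    rintro g x ⟨⟨x', z'⟩, ⟨z, hz, -⟩, hx⟩
    have hx' : x' = x := hx
    subst hx'
    exact ⟨_, exS_conj h g hz, rfl⟩
  gen := fun P hP => h.gen P fun p hp => hP p.1 ⟨(p.1, exz p.2), exS_mk hp, rfl⟩

theorem exS_mem (h : HP R Q χ S) : ∀ q ∈ exS S,
    (q.1 + (1 / 2 : K) • 1).prodMap q.2 ∈ lieT (pr R (plus Q χ)) (1 : Γ →* K) := by
  rintro ⟨x, z'⟩ ⟨z, hz, hq⟩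
  have hq' : z' = exz z := hq
  subst hq'
  exact h.mem (x, z) hz

theorem exS_pairs (h : HP R Q χ S) : Pairs R (plus Q χ) χ (exS S) :=
  ⟨exS_gen h, exS_mem h, fun g => exS_conj' h g⟩

theorem exS_nonempty (h : HP R Q χ S) : (exS S).Nonempty := by
  obtain ⟨p, hp⟩ := h.ne
  exact ⟨(p.1, exz p.2), p.2, hp, rfl⟩

theorem span_stable {Δ : Subgroup Γ} {W : Submodule K Y} (hW : ∀ g, ∀ y ∈ W, Q g y ∈ W)
    {z : End K Y} (hz : z ∈ Submodule.span K {z : End K Y | ∃ g ∈ Δ, z = Q g}) :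
    ∀ y ∈ W, z y ∈ W := by
  intro y hy
  induction hz using Submodule.span_induction with
  | mem z hz =>
    obtain ⟨g, -, rfl⟩ := hz
    exact hW g y hy
  | zero => exact W.zero_mem
  | add z z' _ _ h h' => exact W.add_mem h h'
  | smul c z _ h => exact W.smul_mem c h

theorem span_comm {Δ : Subgroup Γ} {W : Submodule K Y} (hW : ∀ g, ∀ y ∈ W, Q g y ∈ W)
    (hab : ∀ g ∈ Δ, ∀ h ∈ Δ, ∀ y ∈ W, Q g (Q h y) = Q h (Q g y)) {z z' : End K Y}
    (hz : z ∈ Submodule.span K {z : End K Y | ∃ g ∈ Δ, z = Q g})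
    (hz' : z' ∈ Submodule.span K {z : End K Y | ∃ g ∈ Δ, z = Q g}) :
    ∀ y ∈ W, z (z' y) = z' (z y) := by
  have h1 : ∀ g ∈ Δ, ∀ y ∈ W, Q g (z' y) = z' (Q g y) := by
    intro g hg
    induction hz' using Submodule.span_induction with
    | mem z hz =>
      obtain ⟨h, hh, rfl⟩ := hz
      exact fun y hy => hab g hg h hh y hy
    | zero => exact fun y hy => map_zero (Q g)
    | add z z' _ _ h h' =>
      intro y hy
      rw [LinearMap.add_apply, map_add, h y hy, h' y hy, LinearMap.add_apply]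
    | smul c z _ h =>
      intro y hy
      rw [LinearMap.smul_apply, map_smul, h y hy, LinearMap.smul_apply]
  intro y hy
  induction hz using Submodule.span_induction with
  | mem z hz =>
    obtain ⟨g, hg, rfl⟩ := hz
    exact h1 g hg y hy
  | zero => exact (map_zero z').symm
  | add z₁ z₂ _ _ h h' =>
    rw [LinearMap.add_apply, h, h', LinearMap.add_apply, map_add]
  | smul c z₁ _ h => rw [LinearMap.smul_apply, h, LinearMap.smul_apply, map_smul]

theorem exS_stable (h : HP R Q χ S) {W : J → Submodule K Y}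
    (hW : ∀ j, ∀ g, ∀ y ∈ W j, Q g y ∈ W j) (j : Option J) :
    ∀ q ∈ exS S, ∀ y ∈ plusW W j, q.2 y ∈ plusW W j := by
  rintro q ⟨z, hz, hq⟩ y hy
  rw [hq]
  match j, hy with
  | some j, ⟨w, hw, hwy⟩ =>
    rw [← hwy]
    refine ⟨z w, span_stable (hW j) (h.spn _ hz ⊤ inferInstance) w hw, ?_⟩
    refine Prod.ext rfl (Prod.ext ?_ rfl)
    change (0 : K) = -0
    rw [neg_zero]
  | none, ⟨w, hwy⟩ =>
    rw [← hwy]
    refine ⟨(-w.1, 0), Prod.ext ?_ rfl⟩
    change (0 : Y) = z 0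
    rw [map_zero]

theorem exS_comm (h : HP R Q χ S) {W : J → Submodule K Y}
    (hW : ∀ j, ∀ g, ∀ y ∈ W j, Q g y ∈ W j) (j : Option J)
    (hab : ∃ Δ : Subgroup Γ, Δ.FiniteIndex ∧ ∀ g ∈ Δ, ∀ h ∈ Δ, ∀ y ∈ plusW W j,
      plus Q χ g (plus Q χ h y) = plus Q χ h (plus Q χ g y)) :
    ∀ q ∈ exS S, ∀ q' ∈ exS S, ∀ y ∈ plusW W j, q.2 (q'.2 y) = q'.2 (q.2 y) := by
  rintro q ⟨z, hz, hq⟩ q' ⟨z', hz', hq'⟩ y hy
  rw [hq, hq']
  match j, hy, hab with
  | some j, ⟨w, hw, hwy⟩, ⟨Δ, hΔ, hcom⟩ =>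
    rw [← hwy]
    have hc : ∀ g ∈ Δ, ∀ h ∈ Δ, ∀ y ∈ W j, Q g (Q h y) = Q h (Q g y) := by
      intro g hg h hh y hy
      exact congrArg Prod.fst (hcom g hg h hh _ ⟨y, hy, rfl⟩)
    refine Prod.ext ?_ rfl
    exact span_comm (hW j) hc (h.spn _ hz Δ hΔ) (h.spn _ hz' Δ hΔ) w hw
  | none, ⟨w, hwy⟩, _ =>
    rw [← hwy]
    refine Prod.ext ?_ rfl
    change z (z' 0) = z' (z 0)
    simp only [map_zero]

variable (ω : X →ₗ[K] X →ₗ[K] K) (hnd : ∀ u, (∀ v, ω u v = 0) → u = 0)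
  (hωR : ∀ g u v, ω (R g u) (R g v) = χ g * ω u v) (hss : HasProj R)
  (halt : ∀ U, SI R U → AltDual R χ U)
  (h4 : ∀ U, SI R U → ¬4 ∣ finrank K U ∨ finrank K U = 4)
  {W : J → Submodule K Y}

include hnd hωR in
theorem parts_plus' (hparts : Parts R Q W) : Parts R (plus Q χ) (plusW W) := by
  intro U hU
  rcases hparts U hU with hj | ⟨γ, h2, h3, hQ⟩
  · left
    intro j
    match j with
    | none =>
      exact Or.inl ⟨⊤, inferInstance, fun g _ h _ y hy => plusW_comm' g h y hy⟩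
    | some j =>
      rcases hj j with ⟨Δ, hΔ, h⟩ | h
      · exact Or.inl ⟨Δ, hΔ, fun g hg h' hh y hy => plusW_comm j (h g hg h' hh) y hy⟩
      · right
        rw [plusW_finrank]
        exact h
  · right
    refine ⟨γ, h2, h3, ?_⟩
    obtain ⟨y, ⟨u, hu, rfl⟩, hy0⟩ := (Submodule.ne_bot_iff _).1 h3
    have hχ : χ γ = 1 := unip_chi ω hnd hωR γ h2 hy0
    have hχ' : χ γ⁻¹ = 1 := by
      have h5 := chi_inv (χ := χ) γ
      rw [hχ, one_mul] at h5
      exact h5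
    refine LinearMap.ext fun z => Prod.ext ?_ (Prod.ext ?_ rfl)
    · change Q γ z.1 = z.1
      rw [hQ]
      rfl
    · change χ γ⁻¹ • z.2.1 = z.2.1
      rw [hχ', one_smul]

/-- The data for the enlarged representation. -/
structure Rdy (R : Representation K Γ X) (χ : Γ →* K) (Q : Representation K Γ Y) :
    Prop where
  np : ∀ a ∈ NP R (plus Q χ), a ∈ lieT R χ
  full : ∀ U, SI R U → ∃ om : U →ₗ[K] U →ₗ[K] K, Frm R χ U om ∧ Lifts R (plus Q χ) om
  ax : ∃ x, Ax R (plus Q χ) χ x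
  th : ∃ θ : Y × (K × K) →ₗ[K] K, θ ≠ 0 ∧ ∀ g y, θ (plus Q χ g y) = θ y

include hnd hωR hss halt h4 in
theorem rdy (hA : AllS) (h : HP R Q χ S) (hW : ∀ j, ∀ g, ∀ y ∈ W j, Q g y ∈ W j)
    (htop : ⨆ j, W j = ⊤) (hparts : Parts R Q W) : Rdy R χ Q := by
  have hp := exS_pairs h
  have hne := exS_nonempty h
  have hth : ∃ θ : Y × (K × K) →ₗ[K] K, θ ≠ 0 ∧ ∀ g y, θ (plus Q χ g y) = θ y := by
    refine ⟨(LinearMap.snd K K K).comp (LinearMap.snd K Y (K × K)), fun h => ?_,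
      fun g y => rfl⟩
    have h1 := LinearMap.congr_fun h (0, (0, 1))
    exact one_ne_zero h1
  obtain ⟨θ, hθ, hθQ⟩ := id hth
  have hnp : ∀ a ∈ NP R (plus Q χ), a ∈ lieT R χ :=
    fun a ha => np_lieT hA.use hθ hθQ
      (θ' := (LinearMap.fst K K K).comp (LinearMap.snd K Y (K × K))) (fun h => by
        have h1 := LinearMap.congr_fun h (0, (1, 0))
        exact one_ne_zero h1) (fun g y => rfl) ha
  refine ⟨hnp, ?_, exists_ax hp hne, hth⟩
  exact full ω hnd hωR hss halt h4 hp hne (plusW_top htop) (fun j => exS_stable h hW j)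
    (fun j hj => exS_comm h hW j hj) (parts_plus' ω hnd hωR hparts) hA hnp

include hnd hωR hss halt in
/-- **Even degree.** -/
theorem even_of (hR : Rdy R χ Q) (hA : AllS) (hALT : S_ALT) {n m l t : ℕ}
    (f : (Fin n → X) [⋀^Fin m × Fin 2]→ₗ[K] (MultilinearMap K (fun _ : Fin l => Y) K))
    (hf : ∃ Δ : Subgroup Γ, Δ.FiniteIndex ∧ ∀ g ∈ Δ, ∀ (v : Fin m × Fin 2 → Fin n → X)
      (y : Fin l → Y), f (fun i j => R g (v i j)) (fun j => Q g (y j)) = χ g ^ t * f v y) :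
    f ∈ Submodule.span K {g : (Fin n → X) [⋀^Fin m × Fin 2]→ₗ[K]
        (MultilinearMap K (fun _ : Fin l => Y) K) |
      ∃ B : Fin m → (Fin n → X) [⋀^Fin 2]→ₗ[K] K,
        (∀ l, ∃ Δ : Subgroup Γ, Δ.FiniteIndex ∧ ∀ s ∈ Δ, ∀ v : Fin 2 → Fin n → X,
          B l (fun i j => R s (v i j)) = χ s * B l v) ∧
        ∃ w : MultilinearMap K (fun _ : Fin l => Y) K,
          (∃ Δ : Subgroup Γ, Δ.FiniteIndex ∧ ∀ s ∈ Δ, ∀ y,
            χ s ^ m * w (fun j => Q s (y j)) = χ s ^ t * w y) ∧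
          ∀ v y, g v y = (∑ σ : Equiv.Perm (Fin m × Fin 2), ((Equiv.Perm.sign σ : ℤ) : K) *
            ∏ l, B l ![v (σ (l, 0)), v (σ (l, 1))]) * w y} := by
  obtain ⟨x, hx⟩ := hR.ax
  obtain ⟨θ, hθ, hθQ⟩ := hR.th
  have h1 := hALT K X Y {B | IsTate2 R χ B} (Fin l)
    {w | ∃ Δ : Subgroup Γ, Δ.FiniteIndex ∧ ∀ s ∈ Δ, ∀ y,
            χ s ^ m * w (fun j => Q s (y j)) = χ s ^ t * w y} n m f (fun c => by
    refine ⟨cmp f c, ?_, fun v y => rfl⟩
    have hI := cmp_tate (R := R) (Q := Q) (χ := χ) hf c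
    have h2 := even ω hnd hωR hss hR.np halt hR.full hx hA.spg hA.sim hA.grp hA.two
      hA.dec hA.use hA.fin hθ hθQ _ (inv_psi hI)
    have h3 : (rst K Y (Fin l) t).compMultilinearMap
        ((psi K Y (Fin l) t).compMultilinearMap (cmp f c)) = cmp f c :=
      MultilinearMap.ext fun v => rst_psi _
    rw [← h3]
    generalize (psi K Y (Fin l) t).compMultilinearMap (cmp f c) = T' at h2
    clear h3
    induction h2 using Submodule.span_induction with
    | mem T' hT' =>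
      obtain ⟨P, hP, w, ⟨Δ, hΔ, hw⟩, hTP⟩ := hT'
      refine Submodule.subset_span ⟨P, hP, rst K Y (Fin l) t w, ⟨Δ, hΔ, fun g hg y =>
        rst_tate (hw g hg) y⟩, fun v y => ?_⟩
      exact hTP v _
    | zero =>
      have h4 : (rst K Y (Fin l) t).compMultilinearMap
          (0 : MF K X (Y × (K × K)) (Fin m × Fin 2) (Fin l ⊕ Fin t)) = 0 :=
        MultilinearMap.ext fun v => map_zero (rst K Y (Fin l) t)
      rw [h4]
      exact Submodule.zero_mem _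
    | add T₁ T₂ _ _ h h' =>
      have h4 : (rst K Y (Fin l) t).compMultilinearMap (T₁ + T₂) =
          (rst K Y (Fin l) t).compMultilinearMap T₁ +
            (rst K Y (Fin l) t).compMultilinearMap T₂ :=
        MultilinearMap.ext fun v => map_add (rst K Y (Fin l) t) _ _
      rw [h4]
      exact Submodule.add_mem _ h h'
    | smul a T₁ _ h =>
      have h4 : (rst K Y (Fin l) t).compMultilinearMap (a • T₁) =
          a • (rst K Y (Fin l) t).compMultilinearMap T₁ :=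
        MultilinearMap.ext fun v => map_smul (rst K Y (Fin l) t) _ _
      rw [h4]
      exact Submodule.smul_mem _ _ h)
  refine Submodule.span_mono ?_ h1
  rintro g ⟨B, hB, w, hw, hg⟩
  exact ⟨B, fun l => tate_of_comp (B l) (hB l), w, hw, hg⟩

include hnd hωR hss in
/-- **Odd degree.** -/
theorem odd_of (hR : Rdy R χ Q) (hA : AllS) {n k l t : ℕ} (hk : Odd k)
    (f : (Fin n → X) [⋀^Fin k]→ₗ[K] (MultilinearMap K (fun _ : Fin l => Y) K))
    (hf : ∃ Δ : Subgroup Γ, Δ.FiniteIndex ∧ ∀ g ∈ Δ, ∀ (v : Fin k → Fin n → X)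
      (y : Fin l → Y), f (fun i j => R g (v i j)) (fun j => Q g (y j)) =
        χ g ^ t * f v y) : f = 0 := by
  obtain ⟨x, hx⟩ := hR.ax
  obtain ⟨θ, hθ, hθQ⟩ := hR.th
  refine eq_zero_of_cmp f fun c => ?_
  have hI := cmp_tate (R := R) (Q := Q) (χ := χ) hf c
  have h2 := odd ω hnd hωR hss hR.np hR.full hx hA.dec hA.inj hA.odd hA.use hθ hθQ hk _
    (inv_psi hI)
  have h3 : (rst K Y (Fin l) t).compMultilinearMap
      ((psi K Y (Fin l) t).compMultilinearMap (cmp f c)) = cmp f c :=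
    MultilinearMap.ext fun v => rst_psi _
  rw [← h3, h2]
  exact MultilinearMap.ext fun v => map_zero (rst K Y (Fin l) t)

end

end Pool.Agent.Y224.AZ
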