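import Mathlib
import Pool.Agent.Y224.AZ.Gen

/-!
# Comparison of the tensors of two groups
-/

set_option linter.unusedSectionVars false
set_option linter.unusedSimpArgs false

namespace Pool.Agent.Y224.AZ

open Module TensorProduct Pool.Agent.H204R3.SP Pool.Agent.H204R3.GP Pool.Agent.W522.U
open Pool.Agent.Y224.CP Pool.Agent.Y224.OD
open Pool.Agent.W528.Tor (AltDual)

noncomputable section

variable {K X Y Γ M J : Type} [Field K] [CharZero K] [IsAlgClosed K] [AddCommGroup X] [Module K X]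
  [FiniteDimensional K X] [AddCommGroup Y] [Module K Y] [FiniteDimensional K Y] [Group Γ] [Group M]
  [Fintype J] {R : Representation K Γ X} {Q : Representation K Γ Y} {χ : Γ →* K}
  {R' : Representation K M X} {Q' : Representation K M Y} {χ' : M →* K}

/-- A subgroup of finite index acts on the tensor through `χ ^ t`. -/
def Ten (R : Representation K Γ X) (Q : Representation K Γ Y) (χ : Γ →* K) {κ ι : Type} (t : ℕ)
    (T : MF K X Y κ ι) : Prop :=
  ∃ Δ : Subgroup Γ, Δ.FiniteIndex ∧ ∀ g ∈ Δ, ∀ (v : κ → X) (y : ι → Y),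
    T (fun i => R g (v i)) (fun j => Q g (y j)) = χ g ^ t * T v y

/-- Twisted tensors on `Y`. -/
def TenY (Q : Representation K Γ Y) (χ : Γ →* K) {ι : Type} (s t : ℕ)
    (w : MultilinearMap K (fun _ : ι => Y) K) : Prop :=
  ∃ Δ : Subgroup Γ, Δ.FiniteIndex ∧ ∀ g ∈ Δ, ∀ y : ι → Y,
    χ g ^ s * w (fun j => Q g (y j)) = χ g ^ t * w y

theorem ten_zero {κ ι : Type} [Nonempty κ] (t : ℕ) : Ten R Q χ t (0 : MF K X Y κ ι) :=
  ⟨⊤, inferInstance, fun g _ v y => by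
    change (0 : K) = χ g ^ t * 0
    rw [mul_zero]⟩

theorem ten_zero' {κ ι : Type} (t : ℕ) {T : MF K X Y κ ι} (hT : ∀ v y, T v y = 0) :
    Ten R Q χ t T :=
  ⟨⊤, inferInstance, fun g _ v y => by rw [hT, hT, mul_zero]⟩

theorem ten_add {κ ι : Type} {t : ℕ} {T T' : MF K X Y κ ι} (h : Ten R Q χ t T)
    (h' : Ten R Q χ t T') : Ten R Q χ t (T + T') := by
  obtain ⟨Δ, hΔ, h⟩ := h
  obtain ⟨Δ', hΔ', h'⟩ := h'
  refine ⟨Δ ⊓ Δ', inferInstance, fun g hg v y => ?_⟩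
  change T _ _ + T' _ _ = χ g ^ t * (T v y + T' v y)
  rw [h g hg.1, h' g hg.2, mul_add]

theorem ten_smul {κ ι : Type} {t : ℕ} {T : MF K X Y κ ι} (c : K) (h : Ten R Q χ t T) :
    Ten R Q χ t (c • T) := by
  obtain ⟨Δ, hΔ, h⟩ := h
  refine ⟨Δ, hΔ, fun g hg v y => ?_⟩
  change c * T _ _ = χ g ^ t * (c * T v y)
  rw [h g hg]
  ring

theorem hasProj_self (hss : ∀ Δ : Subgroup Γ, Δ.FiniteIndex → ∀ U : Submodule K X,
    (∀ s ∈ Δ, ∀ u ∈ U, R s u ∈ U) →
    ∃ U' : Submodule K X, (∀ s ∈ Δ, ∀ u ∈ U', R s u ∈ U') ∧ IsCompl U U') : HasProj R := by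
  intro Δ hΔ U hU
  obtain ⟨U', hU', hc⟩ := hss Δ hΔ U hU
  have hl : ∀ u : U, (U.linearProjOfIsCompl U' hc) (u : X) = u :=
    fun u => Submodule.linearProjOfIsCompl_apply_left hc u
  have hr : ∀ u ∈ U', (U.linearProjOfIsCompl U' hc) u = 0 := fun u hu =>
    (Submodule.linearProjOfIsCompl_apply_eq_zero_iff hc).2 hu
  refine ⟨U.subtype ∘ₗ U.linearProjOfIsCompl U' hc, fun v => Submodule.coe_mem _, fun u hu => ?_,
    fun s hs v => ?_⟩
  · change ((U.linearProjOfIsCompl U' hc u : U) : X) = u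
    rw [hl ⟨u, hu⟩]
  · obtain ⟨a, ha, b, hb, rfl⟩ := Submodule.mem_sup.1
      (show v ∈ U ⊔ U' by rw [hc.sup_eq_top]; trivial)
    change ((U.linearProjOfIsCompl U' hc (R s (a + b)) : U) : X) =
      R s ((U.linearProjOfIsCompl U' hc (a + b) : U) : X)
    rw [map_add, map_add, map_add, hr _ (hU' s hs b hb), hr b hb, add_zero, add_zero,
      hl ⟨a, ha⟩, hl ⟨R s a, hU s hs a ha⟩]

variable (ω : X →ₗ[K] X →ₗ[K] K) (hnd : ∀ u, (∀ v, ω u v = 0) → u = 0)
  (hωR : ∀ g u v, ω (R g u) (R g v) = χ g * ω u v) (hss : HasProj R)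
  (halt : ∀ U, SI R U → AltDual R χ U)

include hnd hωR hss halt in
/-- Tensors in an even number of variables of `X`. -/
theorem tens_even (hR : Rdy R χ Q) (hA : AllS) {m l t : ℕ} (T : MF K X Y (Fin m × Fin 2) (Fin l))
    (hT : Ten R Q χ t T) :
    T ∈ Submodule.span K {T' : MF K X Y (Fin m × Fin 2) (Fin l) |
      ∃ P ∈ {P | IsProd {B | IsTate2 R χ B} P},
      ∃ w : MultilinearMap K (fun _ : Fin l => Y) K, TenY Q χ m t w ∧ ∀ v y, T' v y = P v * w y} := by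
  obtain ⟨x, hx⟩ := hR.ax
  obtain ⟨θ, hθ, hθQ⟩ := hR.th
  have h2 := even ω hnd hωR hss hR.np halt hR.full hx hA.spg hA.sim hA.grp hA.two
    hA.dec hA.use hA.fin hθ hθQ _ (inv_psi hT)
  have h3 : (rst K Y (Fin l) t).compMultilinearMap
      ((psi K Y (Fin l) t).compMultilinearMap T) = T :=
    MultilinearMap.ext fun v => rst_psi _
  rw [← h3]
  generalize (psi K Y (Fin l) t).compMultilinearMap T = T' at h2
  clear h3
  induction h2 using Submodule.span_induction with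
  | mem T' hT' =>
    obtain ⟨P, hP, w, ⟨Δ, hΔ, hw⟩, hTP⟩ := hT'
    refine Submodule.subset_span ⟨P, hP, rst K Y (Fin l) t w, ⟨Δ, hΔ, fun g hg y =>
      rst_tate (hw g hg) y⟩, fun v y => ?_⟩
    exact hTP v _
  | zero =>
    have h4 : (rst K Y (Fin l) t).compMultilinearMap
        (0 : MF K X (Y × (K × K)) (Fin m × Fin 2) (Fin l ⊕ Fin t)) = 0 :=
      MultilinearMap.ext fun v => map_zero (rst K Y (Fin l) t)
    rw [h4]
    exact Submodule.zero_mem _
  | add T₁ T₂ _ _ h h' =>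
    have h4 : (rst K Y (Fin l) t).compMultilinearMap (T₁ + T₂) =
        (rst K Y (Fin l) t).compMultilinearMap T₁ +
          (rst K Y (Fin l) t).compMultilinearMap T₂ :=
      MultilinearMap.ext fun v => map_add (rst K Y (Fin l) t) _ _
    rw [h4]
    exact Submodule.add_mem _ h h'
  | smul a T₁ _ h =>
    have h4 : (rst K Y (Fin l) t).compMultilinearMap (a • T₁) =
        a • (rst K Y (Fin l) t).compMultilinearMap T₁ :=
      MultilinearMap.ext fun v => map_smul (rst K Y (Fin l) t) _ _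
    rw [h4]
    exact Submodule.smul_mem _ _ h

include hnd hωR hss in
/-- Tensors in an odd number of variables of `X`. -/
theorem tens_odd (hR : Rdy R χ Q) (hA : AllS) {k l t : ℕ} (hk : Odd k) (T : MF K X Y (Fin k) (Fin l))
    (hT : Ten R Q χ t T) : T = 0 := by
  obtain ⟨x, hx⟩ := hR.ax
  obtain ⟨θ, hθ, hθQ⟩ := hR.th
  have h2 := odd ω hnd hωR hss hR.np hR.full hx hA.dec hA.inj hA.odd hA.use hθ hθQ hk _
    (inv_psi hT)
  have h3 : (rst K Y (Fin l) t).compMultilinearMap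
      ((psi K Y (Fin l) t).compMultilinearMap T) = T :=
    MultilinearMap.ext fun v => rst_psi _
  rw [← h3, h2]
  exact MultilinearMap.ext fun v => map_zero (rst K Y (Fin l) t)

/-- A product of forms and of a twisted tensor is a tensor. -/
theorem prod_ten {m l t : ℕ} {T : MF K X Y (Fin m × Fin 2) (Fin l)}
    (hT : ∃ P ∈ {P | IsProd {B | IsTate2 R χ B} P},
      ∃ w : MultilinearMap K (fun _ : Fin l => Y) K, TenY Q χ m t w ∧ ∀ v y, T v y = P v * w y) :
    Ten R Q χ t T := by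
  obtain ⟨P, ⟨σ, B, hB, hP⟩, w, ⟨Δ, hΔ, hw⟩, hT⟩ := hT
  choose Δ' hΔ' hB using hB
  refine ⟨Δ ⊓ ⨅ l, Δ' l, ?_, fun g hg v y => ?_⟩
  · have h1 : (⨅ l, Δ' l).FiniteIndex := Subgroup.finiteIndex_iInf hΔ'
    infer_instance
  · have hg2 : g ∈ ⨅ l, Δ' l := hg.2
    rw [Subgroup.mem_iInf] at hg2
    rw [hT, hT, hP, hP, Finset.prod_congr rfl fun l _ => hB l g (hg2 l) _ _,
      Finset.prod_mul_distrib, Finset.prod_const, Finset.card_univ, Fintype.card_fin]
    have h2 := hw g hg.1 y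
    linear_combination (∏ l, B l (v (σ (l, 0))) (v (σ (l, 1)))) * h2

theorem ten_congr {κ κ' ι : Type} (e : κ ≃ κ') {t : ℕ} {T : MF K X Y κ ι} (h : Ten R Q χ t T) :
    Ten R Q χ t (T.domDomCongr e : MF K X Y κ' ι) := by
  obtain ⟨Δ, hΔ, h⟩ := h
  exact ⟨Δ, hΔ, fun g hg v y => h g hg (fun i => v (e i)) y⟩

theorem ten_of_congr {κ κ' ι : Type} (e : κ ≃ κ') {t : ℕ} {T : MF K X Y κ ι}
    (h : Ten R Q χ t (T.domDomCongr e : MF K X Y κ' ι)) : Ten R Q χ t T := by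
  obtain ⟨Δ, hΔ, h⟩ := h
  refine ⟨Δ, hΔ, fun g hg v y => ?_⟩
  have h6 := h g hg (fun i => v (e.symm i)) y
  rw [MultilinearMap.domDomCongr_apply, MultilinearMap.domDomCongr_apply] at h6
  simp only [Equiv.symm_apply_apply] at h6
  exact h6

include hnd hωR hss halt in
/-- The tensors of the first group are tensors of the second group, if this is so for bilinear forms
on `X` and for twisted tensors on `Y`. -/
theorem compare (hR : Rdy R χ Q) (hA : AllS) (h2 : ∀ B, IsTate2 R χ B → IsTate2 R' χ' B)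
    (hY : ∀ (l s t : ℕ) (w : MultilinearMap K (fun _ : Fin l => Y) K), TenY Q χ s t w →
      TenY Q' χ' s t w) {k l t : ℕ} (T : MF K X Y (Fin k) (Fin l)) (hT : Ten R Q χ t T) :
    Ten R' Q' χ' t T := by
  rcases Nat.even_or_odd k with ⟨m, hm⟩ | hk
  · have hm' : k = m * 2 := by omega
    let e : Fin k ≃ Fin m × Fin 2 := (finCongr hm').trans finProdFinEquiv.symm
    refine ten_of_congr e ?_
    have h4 := tens_even ω hnd hωR hss halt hR hA _ (ten_congr e hT)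
    generalize (T.domDomCongr e : MF K X Y (Fin m × Fin 2) (Fin l)) = T' at h4
    induction h4 using Submodule.span_induction with
    | mem T' hT' =>
      obtain ⟨P, ⟨σ, B, hB, hP⟩, w, hw, hT⟩ := hT'
      exact prod_ten ⟨P, ⟨σ, B, fun l => h2 _ (hB l), hP⟩, w, hY _ _ _ _ hw, hT⟩
    | zero => exact ten_zero' t fun _ _ => rfl
    | add T₁ T₂ _ _ h h' => exact ten_add h h'
    | smul a T₁ _ h => exact ten_smul a h
  · rw [tens_odd ω hnd hωR hss hR hA hk T hT]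
    exact ten_zero' t fun _ _ => rfl

/-- From tensors on `X` and `Y` to twisted tensors on `Y`. -/
theorem tenY_of_ten (hωR : ∀ g u v, ω (R g u) (R g v) = χ g * ω u v) (hω' : IsTate2 R' χ' ω)
    {u₀ v₀ : X} (h0 : ω u₀ v₀ ≠ 0)
    (hT : ∀ (k l t : ℕ) (T : MF K X Y (Fin k) (Fin l)), Ten R Q χ t T → Ten R' Q' χ' t T)
    {l s t : ℕ} (w : MultilinearMap K (fun _ : Fin l => Y) K) (hw : TenY Q χ s t w) :
    TenY Q' χ' s t w := by
  obtain ⟨T₀, hT₀⟩ : ∃ T₀ : MF K X Y (Fin s × Fin 2) (Fin l),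
      ∀ v y, T₀ v y = (∏ i, ω (v (i, 0)) (v (i, 1))) * w y := by
    refine ⟨(LinearMap.toSpanSingleton K _ w).compMultilinearMap (mmG 1 fun _ => ω), fun v y => ?_⟩
    rfl
  have h1 : Ten R Q χ t T₀ := by
    obtain ⟨Δ, hΔ, hw⟩ := hw
    refine ⟨Δ, hΔ, fun g hg v y => ?_⟩
    rw [hT₀, hT₀, Finset.prod_congr rfl fun i _ => hωR g _ _, Finset.prod_mul_distrib,
      Finset.prod_const, Finset.card_univ, Fintype.card_fin]
    have h2 := hw g hg y
    linear_combination (∏ i, ω (v (i, 0)) (v (i, 1))) * h2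
  have h3 : Ten R' Q' χ' t T₀ :=
    ten_of_congr finProdFinEquiv (hT _ _ _ _ (ten_congr finProdFinEquiv h1))
  obtain ⟨Δ₁, hΔ₁, h3⟩ := h3
  obtain ⟨Δ₂, hΔ₂, hω'⟩ := hω'
  refine ⟨Δ₁ ⊓ Δ₂, inferInstance, fun g hg y => ?_⟩
  have h4 := h3 g hg.1 (fun i => if i.2 = 0 then u₀ else v₀) y
  rw [hT₀, hT₀] at h4
  have h5 : ∀ i : Fin s, ω (R' g (if ((i, 0) : Fin s × Fin 2).2 = 0 then u₀ else v₀))
      (R' g (if ((i, 1) : Fin s × Fin 2).2 = 0 then u₀ else v₀)) = χ' g * ω u₀ v₀ := by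
    intro i
    have e1 : (if ((i, 0) : Fin s × Fin 2).2 = 0 then u₀ else v₀) = u₀ := if_pos rfl
    have e2 : (if ((i, 1) : Fin s × Fin 2).2 = 0 then u₀ else v₀) = v₀ := if_neg one_ne_zero
    rw [e1, e2, hω' g hg.2]
  have h6 : ∀ i : Fin s, ω (if ((i, 0) : Fin s × Fin 2).2 = 0 then u₀ else v₀)
      (if ((i, 1) : Fin s × Fin 2).2 = 0 then u₀ else v₀) = ω u₀ v₀ := by
    intro i
    have e1 : (if ((i, 0) : Fin s × Fin 2).2 = 0 then u₀ else v₀) = u₀ := if_pos rfl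
    have e2 : (if ((i, 1) : Fin s × Fin 2).2 = 0 then u₀ else v₀) = v₀ := if_neg one_ne_zero
    rw [e1, e2]
  rw [Finset.prod_congr rfl fun i _ => h5 i, Finset.prod_congr rfl fun i _ => h6 i,
    Finset.prod_const, Finset.prod_const, Finset.card_univ, Fintype.card_fin, mul_pow] at h4
  have h7 : ω u₀ v₀ ^ s ≠ 0 := pow_ne_zero _ h0
  refine mul_left_cancel₀ h7 ?_
  linear_combination h4

end

end Pool.Agent.Y224.AZ
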