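import Mathlib
import Pool.Agent.Y224.AZ.Two

/-!
# Classes that are invariant under the geometric fundamental group
-/

set_option linter.unusedSectionVars false
set_option linter.unusedSimpArgs false

namespace Pool.Agent.Y224.AZ

open Module TensorProduct Pool.Agent.H204R3.SP Pool.Agent.H204R3.GP Pool.Agent.W522.U
open Pool.Agent.Y224.CP Pool.Agent.Y224.OD
open Pool.Agent.W528.Tor (AltDual)

noncomputable section

variable {K X Y Γ J : Type} [Field K] [CharZero K] [IsAlgClosed K] [AddCommGroup X] [Module K X]
  [FiniteDimensional K X] [AddCommGroup Y] [Module K Y] [FiniteDimensional K Y] [Group Γ]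
  [Fintype J] (R : Representation K Γ X) (Q : Representation K Γ Y) {κ : Type} [Fintype κ]
  {l : ℕ}

/-- The action of an element on tensors. -/
def actL (g : Γ) : MF K X Y κ (Fin l) →ₗ[K] MF K X Y κ (Fin l) where
  toFun T := ({ toFun := fun f => f.compLinearMap fun _ => Q g⁻¹
                map_add' := fun _ _ => rfl
                map_smul' := fun _ _ => rfl } :
      MultilinearMap K (fun _ : Fin l => Y) K →ₗ[K]
        MultilinearMap K (fun _ : Fin l => Y) K).compMultilinearMap
    (T.compLinearMap fun _ => R g⁻¹)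
  map_add' _ _ := rfl
  map_smul' _ _ := rfl

theorem actL_apply (g : Γ) (T : MF K X Y κ (Fin l)) (v : κ → X) (y : Fin l → Y) :
    actL R Q g T v y = T (fun i => R g⁻¹ (v i)) (fun j => Q g⁻¹ (y j)) := rfl

theorem actL_one (T : MF K X Y κ (Fin l)) : actL R Q 1 T = T := by
  refine MultilinearMap.ext fun v => MultilinearMap.ext fun y => ?_
  rw [actL_apply, inv_one, map_one, map_one]
  rfl

theorem actL_mul (g h : Γ) (T : MF K X Y κ (Fin l)) :
    actL R Q (g * h) T = actL R Q g (actL R Q h T) := by
  refine MultilinearMap.ext fun v => MultilinearMap.ext fun y => ?_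
  rw [actL_apply, actL_apply, actL_apply, mul_inv_rev, map_mul, map_mul]
  rfl

variable {E : Type} [AddCommGroup E] [Module K E] [FiniteDimensional K E]
  (φ : E ≃ₗ[K] MF K X Y κ (Fin l))

/-- The representation on tensors. -/
def trep : Representation K Γ E where
  toFun g := φ.symm.toLinearMap ∘ₗ actL R Q g ∘ₗ φ.toLinearMap
  map_one' := by
    refine LinearMap.ext fun e => ?_
    change φ.symm (actL R Q 1 (φ e)) = e
    rw [actL_one, LinearEquiv.symm_apply_apply]
  map_mul' g h := by
    refine LinearMap.ext fun e => ?_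
    change φ.symm (actL R Q (g * h) (φ e)) = φ.symm (actL R Q g (φ (φ.symm (actL R Q h (φ e)))))
    rw [actL_mul, LinearEquiv.apply_symm_apply]

theorem phi_trep (g : Γ) (e : E) : φ (trep R Q φ g e) = actL R Q g (φ e) := by
  change φ (φ.symm (actL R Q g (φ e))) = _
  rw [LinearEquiv.apply_symm_apply]

/-- The space spanned by the translates. -/
def orb (T : E) : Submodule K E :=
  Submodule.span K (Set.range fun g => trep R Q φ g T)

theorem orb_stable (T : E) (g : Γ) : ∀ e ∈ orb R Q φ T, trep R Q φ g e ∈ orb R Q φ T := by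
  intro e he
  induction he using Submodule.span_induction with
  | mem e he =>
    obtain ⟨h, rfl⟩ := he
    refine Submodule.subset_span ⟨g * h, ?_⟩
    change trep R Q φ (g * h) T = trep R Q φ g (trep R Q φ h T)
    rw [map_mul]
    rfl
  | zero => rw [map_zero]; exact Submodule.zero_mem _
  | add e e' _ _ h h' => rw [map_add]; exact Submodule.add_mem _ h h'
  | smul c e _ h => rw [map_smul]; exact Submodule.smul_mem _ _ h

theorem mem_orb (T : E) : T ∈ orb R Q φ T := by
  refine Submodule.subset_span ⟨1, ?_⟩
  change trep R Q φ 1 T = T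
  rw [map_one]
  rfl

/-- The representation on `Y` and the translates. -/
def Q₂ (T : E) : Representation K Γ (Y × orb R Q φ T) where
  toFun g := (Q g).prodMap ((trep R Q φ g).restrict (orb_stable R Q φ T g))
  map_one' := by
    refine LinearMap.ext fun z => Prod.ext ?_ (Subtype.ext ?_)
    · change Q 1 z.1 = z.1
      rw [map_one]
      rfl
    · change trep R Q φ 1 (z.2 : E) = z.2
      rw [map_one]
      rfl
  map_mul' g h := by
    refine LinearMap.ext fun z => Prod.ext ?_ (Subtype.ext ?_)
    · change Q (g * h) z.1 = Q g (Q h z.1)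
      rw [map_mul]
      rfl
    · change trep R Q φ (g * h) (z.2 : E) = trep R Q φ g (trep R Q φ h z.2)
      rw [map_mul]
      rfl

/-- The tensor with the variable `e`. -/
def T₂ (T : E) : MF K X (Y × orb R Q φ T) κ (Fin (l + 1)) where
  toFun v := LinearMap.uncurryLeft
    { toFun := fun z : Y × orb R Q φ T =>
        (φ (z.2 : E) v).compLinearMap fun _ => LinearMap.fst K Y (orb R Q φ T)
      map_add' := fun a b => by
        refine MultilinearMap.ext fun z => ?_
        change φ ((a.2 : E) + (b.2 : E)) v _ = φ (a.2 : E) v _ + φ (b.2 : E) v _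
        rw [map_add]
        rfl
      map_smul' := fun c b => by
        refine MultilinearMap.ext fun z => ?_
        change φ (c • (b.2 : E)) v _ = c • φ (b.2 : E) v _
        rw [map_smul]
        rfl }
  map_update_add' v i a b := by
    refine MultilinearMap.ext fun z => ?_
    change φ ((z 0).2 : E) (Function.update v i (a + b)) (fun j => (z j.succ).1) =
      φ ((z 0).2 : E) (Function.update v i a) (fun j => (z j.succ).1) +
      φ ((z 0).2 : E) (Function.update v i b) (fun j => (z j.succ).1)
    rw [MultilinearMap.map_update_add]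
    rfl
  map_update_smul' v i c a := by
    refine MultilinearMap.ext fun z => ?_
    change φ ((z 0).2 : E) (Function.update v i (c • a)) (fun j => (z j.succ).1) =
      c • φ ((z 0).2 : E) (Function.update v i a) (fun j => (z j.succ).1)
    rw [MultilinearMap.map_update_smul]
    rfl

theorem T₂_apply (T : E) (v : κ → X) (z : Fin (l + 1) → Y × orb R Q φ T) :
    T₂ R Q φ T v z = φ ((z 0).2 : E) v (fun j => (z j.succ).1) := rfl

theorem T₂_inv (T : E) (χ : Γ →* K) : Ten R (Q₂ R Q φ T) χ 0 (T₂ R Q φ T) := by
  refine ⟨⊤, inferInstance, fun g _ v z => ?_⟩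
  rw [pow_zero, one_mul, T₂_apply, T₂_apply]
  change φ (trep R Q φ g ((z 0).2 : E)) (fun i => R g (v i)) (fun j => Q g (z j.succ).1) = _
  rw [phi_trep, actL_apply]
  have h1 : ∀ x : X, R g⁻¹ (R g x) = x := fun x => by
    rw [← Module.End.mul_apply, ← map_mul, inv_mul_cancel, map_one]
    rfl
  have h2 : ∀ y : Y, Q g⁻¹ (Q g y) = y := fun y => by
    rw [← Module.End.mul_apply, ← map_mul, inv_mul_cancel, map_one]
    rfl
  simp only [h1, h2]

/-- Elements of the normal subgroup `N` that fix the tensor fix its translates. -/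
theorem fix_orb {N : Subgroup Γ} (hN : N.Normal) {T : E}
    (hT : ∀ g ∈ N, trep R Q φ g T = T) : ∀ g ∈ N, ∀ e ∈ orb R Q φ T, trep R Q φ g e = e := by
  intro g hg e he
  induction he using Submodule.span_induction with
  | mem e he =>
    obtain ⟨h, rfl⟩ := he
    have h1 : h⁻¹ * g * h ∈ N := by
      have h2 := hN.conj_mem g hg h⁻¹
      rw [inv_inv] at h2
      exact h2
    have h3 : g * h = h * (h⁻¹ * g * h) := by group
    change trep R Q φ g (trep R Q φ h T) = trep R Q φ h T
    have h4 : trep R Q φ g (trep R Q φ h T) = trep R Q φ (g * h) T := by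
      rw [map_mul]
      rfl
    rw [h4, h3, map_mul]
    change trep R Q φ h (trep R Q φ (h⁻¹ * g * h) T) = trep R Q φ h T
    rw [hT _ h1]
  | zero => exact map_zero _
  | add e e' _ _ h h' => rw [map_add, h, h']
  | smul c e _ h => rw [map_smul, h]

/-- The group acts on the translates through a commutative group. -/
theorem comm_orb {N Δ : Subgroup Γ} (hN : N.Normal) {T : E}
    (hT : ∀ g ∈ N, trep R Q φ g T = T) (hc : ∀ g ∈ Δ, ∀ h ∈ Δ, g * h * g⁻¹ * h⁻¹ ∈ N) :
    ∀ g ∈ Δ, ∀ h ∈ Δ, ∀ e ∈ orb R Q φ T,
      trep R Q φ g (trep R Q φ h e) = trep R Q φ h (trep R Q φ g e) := by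
  intro g hg h hh e he
  have h1 : g * h = (g * h * g⁻¹ * h⁻¹) * (h * g) := by group
  have h2 : trep R Q φ g (trep R Q φ h e) = trep R Q φ (g * h) e := by
    rw [map_mul]
    rfl
  have h3 : trep R Q φ h (trep R Q φ g e) = trep R Q φ (h * g) e := by
    rw [map_mul]
    rfl
  rw [h2, h3, h1, map_mul]
  exact fix_orb R Q φ hN hT _ (hc g hg h hh) _ (orb_stable R Q φ T _ e he)

end

end Pool.Agent.Y224.AZ
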