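import Mathlib
import Pool.Agent.Y224.AZ.Geo
import Pool.Agent.Y224.AZ.All

/-!
# Classes that are invariant under the geometric fundamental group: the theorem
-/

set_option linter.unusedSectionVars false
set_option linter.unusedSimpArgs false

namespace Pool.Agent.Y224.AZ

open Module TensorProduct Pool.Agent.H204R3.SP Pool.Agent.H204R3.GP Pool.Agent.W522.U
open Pool.Agent.Y224.CP Pool.Agent.Y224.OD
open Pool.Agent.W528.Tor (AltDual)

noncomputable section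

section general

variable {K X Y Γ J : Type} [Field K] [CharZero K] [IsAlgClosed K] [AddCommGroup X] [Module K X]
  [FiniteDimensional K X] [AddCommGroup Y] [Module K Y] [FiniteDimensional K Y] [Group Γ]
  [Fintype J] {R : Representation K Γ X} {Q : Representation K Γ Y} {χ : Γ →* K}
  {κ : Type} [Fintype κ] {l : ℕ}

/-- Tensors that are invariant under the geometric subgroup. -/
def GInv (R : Representation K Γ X) (Q : Representation K Γ Y) (Γ₀ : Subgroup Γ)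
    (T : MF K X Y κ (Fin l)) : Prop :=
  ∃ Δ : Subgroup Γ, Δ.FiniteIndex ∧ ∀ g ∈ Γ₀ ⊓ Δ, ∀ v y,
    T (fun i => R g (v i)) (fun j => Q g (y j)) = T v y

/-- Tensors on `Y` that are invariant under the geometric subgroup. -/
def GY (Q : Representation K Γ Y) (Γ₀ : Subgroup Γ) (w : MultilinearMap K (fun _ : Fin l => Y) K) :
    Prop :=
  ∃ Δ : Subgroup Γ, Δ.FiniteIndex ∧ ∀ g ∈ Γ₀ ⊓ Δ, ∀ y, w (fun j => Q g (y j)) = w y

variable {E : Type} [AddCommGroup E] [Module K E] [FiniteDimensional K E]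
  (φ : E ≃ₗ[K] MF K X Y κ (Fin l))

/-- The parts. -/
def W₂ (W : J → Submodule K Y) (S : Submodule K E) : Option J → Submodule K (Y × S)
  | some j => (W j).map (LinearMap.inl K Y S)
  | none => LinearMap.range (LinearMap.inr K Y S)

theorem W₂_top {W : J → Submodule K Y} {S : Submodule K E} (htop : ⨆ j, W j = ⊤) :
    ⨆ j, W₂ W S j = ⊤ := by
  rw [eq_top_iff]
  intro z _
  have h1 : (z.1, (0 : S)) ∈ ⨆ j, W₂ W S j := by
    have h2 : (⊤ : Submodule K Y).map (LinearMap.inl K Y S) ≤ ⨆ j, W₂ W S j := by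
      rw [← htop, Submodule.map_iSup]
      exact iSup_le fun j => le_iSup (W₂ W S) (some j)
    exact h2 ⟨z.1, trivial, rfl⟩
  have h3 : ((0 : Y), z.2) ∈ ⨆ j, W₂ W S j := le_iSup (W₂ W S) none ⟨z.2, rfl⟩
  have h4 : z = (z.1, 0) + (0, z.2) := by
    refine Prod.ext ?_ ?_
    · change z.1 = z.1 + 0
      rw [add_zero]
    · change z.2 = 0 + z.2
      rw [zero_add]
  rw [h4]
  exact Submodule.add_mem _ h1 h3

theorem W₂_stable {W : J → Submodule K Y} {T : E} (hW : ∀ j, ∀ g, ∀ y ∈ W j, Q g y ∈ W j)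
    (j : Option J) (g : Γ) : ∀ y ∈ W₂ W (orb R Q φ T) j, Q₂ R Q φ T g y ∈ W₂ W (orb R Q φ T) j := by
  rintro y hy
  match j, hy with
  | some j, ⟨w, hw, hwy⟩ =>
    rw [← hwy]
    refine ⟨Q g w, hW j g w hw, Prod.ext rfl (Subtype.ext ?_)⟩
    change (0 : E) = trep R Q φ g (0 : E)
    rw [map_zero]
  | none, ⟨w, hwy⟩ =>
    rw [← hwy]
    refine ⟨⟨trep R Q φ g w, orb_stable R Q φ T g w w.2⟩, Prod.ext ?_ rfl⟩
    change (0 : Y) = Q g 0
    rw [map_zero]

/-- The condition on the parts of `Y`, with `γ` in the geometric subgroup. -/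
def PartsG (R : Representation K Γ X) (Q : Representation K Γ Y) (Γ₀ : Subgroup Γ)
    (W : J → Submodule K Y) : Prop :=
  ∀ U, SI R U → (∀ j, (∃ Δ : Subgroup Γ, Δ.FiniteIndex ∧ ∀ g ∈ Δ, ∀ h ∈ Δ, ∀ y ∈ W j,
      Q g (Q h y) = Q h (Q g y)) ∨
        2 * finrank K (W j) ^ 2 < finrank K U * (finrank K U + 1)) ∨
    ∃ γ ∈ Γ₀, (R γ - 1) * (R γ - 1) = 0 ∧ U.map (R γ - 1) ≠ ⊥ ∧ Q γ = 1

theorem pow_unip {A : End K X} (hA : (A - 1) * (A - 1) = 0) (s : ℕ) :
    A ^ s - 1 = (s : K) • (A - 1) := by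
  induction s with
  | zero =>
    rw [pow_zero, sub_self, Nat.cast_zero, zero_smul]
  | succ s ih =>
    have h1 : A ^ s = 1 + (s : K) • (A - 1) := by rw [← ih]; abel
    have h2 : A ^ (s + 1) - 1 = (A - 1) + (s : K) • ((A - 1) * (A - 1)) + (s : K) • (A - 1) := by
      rw [pow_succ, h1, add_mul, one_mul, smul_mul_assoc]
      have h3 : (A - 1) * A = (A - 1) * (A - 1) + (A - 1) := by noncomm_ring
      rw [h3, smul_add]
      abel
    rw [h2, hA, smul_zero, add_zero, Nat.cast_succ, add_smul, one_smul]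
    abel

theorem parts₂ {W : J → Submodule K Y} {T : E} {Γ₀ Δ : Subgroup Γ} (hΓ₀ : Γ₀.Normal)
    (hab : ∀ g h : Γ, g * h * g⁻¹ * h⁻¹ ∈ Γ₀) (hΔ : Δ.FiniteIndex) (hΔn : Δ.Normal)
    (hT : ∀ g ∈ Γ₀ ⊓ Δ, trep R Q φ g T = T) (hp : PartsG R Q Γ₀ W) :
    Parts R (Q₂ R Q φ T) (W₂ W (orb R Q φ T)) := by
  have hN : (Γ₀ ⊓ Δ).Normal := Subgroup.normal_inf_normal _ _
  intro U hU
  rcases hp U hU with hj | ⟨γ, hγ0, h2, h3, hQ⟩
  · left
    intro j
    match j with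
    | none =>
      refine Or.inl ⟨Δ, hΔ, ?_⟩
      rintro g hg h hh _ ⟨w, rfl⟩
      refine Prod.ext ?_ (Subtype.ext ?_)
      · change Q g (Q h 0) = Q h (Q g 0)
        simp only [map_zero]
      · exact comm_orb R Q φ hN hT (fun g hg h hh => ⟨hab g h, Δ.mul_mem (Δ.mul_mem
          (Δ.mul_mem hg hh) (Δ.inv_mem hg)) (Δ.inv_mem hh)⟩) g hg h hh w w.2
    | some j =>
      rcases hj j with ⟨Δ', hΔ', h⟩ | h
      · refine Or.inl ⟨Δ', hΔ', ?_⟩
        rintro g hg h' hh _ ⟨w, hw, rfl⟩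
        refine Prod.ext (h g hg h' hh w hw) (Subtype.ext ?_)
        change trep R Q φ g (trep R Q φ h' (0 : E)) = trep R Q φ h' (trep R Q φ g (0 : E))
        simp only [map_zero]
      · right
        have h5 : finrank K (W₂ W (orb R Q φ T) (some j)) = finrank K (W j) :=
          (Submodule.equivMapOfInjective (LinearMap.inl K Y _) LinearMap.inl_injective
            (W j)).finrank_eq.symm
        rw [h5]
        exact h
  · right
    have hs : Δ.index ≠ 0 := hΔ.index_ne_zero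
    have h5 : R (γ ^ Δ.index) - 1 = (Δ.index : K) • (R γ - 1) := by
      rw [map_pow]
      exact pow_unip h2 _
    have h6 : γ ^ Δ.index ∈ Γ₀ ⊓ Δ :=
      ⟨Γ₀.pow_mem hγ0 _, Δ.pow_index_mem γ⟩
    refine ⟨γ ^ Δ.index, ?_, ?_, ?_⟩
    · rw [h5, smul_mul_smul_comm, h2, smul_zero]
    · rw [h5]
      intro h7
      apply h3
      rw [Submodule.eq_bot_iff] at h7 ⊢
      rintro _ ⟨u, hu, rfl⟩
      have h8 := h7 ((Δ.index : K) • (R γ - 1) u) ⟨u, hu, rfl⟩
      exact (smul_eq_zero.1 h8).resolve_left (Nat.cast_ne_zero.2 hs)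
    · refine LinearMap.ext fun z => Prod.ext ?_ (Subtype.ext ?_)
      · change Q (γ ^ Δ.index) z.1 = z.1
        rw [map_pow, hQ, one_pow]
        rfl
      · exact fix_orb R Q φ hN hT _ h6 _ z.2.2

/-- Restriction to the translate `T`. -/
def rs (S : Submodule K E) (e : S) : MultilinearMap K (fun _ : Fin (l + 1) => Y × S) K →ₗ[K]
    MultilinearMap K (fun _ : Fin l => Y) K where
  toFun w := (w.curryLeft (0, e)).compLinearMap fun _ => LinearMap.inl K Y S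
  map_add' _ _ := rfl
  map_smul' _ _ := rfl

theorem rs_apply (S : Submodule K E) (e : S)
    (w : MultilinearMap K (fun _ : Fin (l + 1) => Y × S) K) (y : Fin l → Y) :
    rs S e w y = w (Fin.cons (0, e) fun j => (y j, 0)) := rfl

theorem rs_T₂ (T : E) :
    (rs (orb R Q φ T) ⟨T, mem_orb R Q φ T⟩).compMultilinearMap (T₂ R Q φ T) = φ T := by
  refine MultilinearMap.ext fun v => MultilinearMap.ext fun y => ?_
  rfl

theorem rs_gy {T : E} {Γ₀ Δ : Subgroup Γ} (hΔ : Δ.FiniteIndex) (hχ : ∀ g ∈ Γ₀, χ g = 1)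
    (hT : ∀ g ∈ Γ₀ ⊓ Δ, trep R Q φ g T = T) {m : ℕ}
    {w : MultilinearMap K (fun _ : Fin (l + 1) => Y × orb R Q φ T) K}
    (hw : TenY (Q₂ R Q φ T) χ m 0 w) : GY Q Γ₀ (rs (orb R Q φ T) ⟨T, mem_orb R Q φ T⟩ w) := by
  obtain ⟨Δ', hΔ', hw⟩ := hw
  refine ⟨Δ ⊓ Δ', inferInstance, fun g hg y => ?_⟩
  have h1 := hw g hg.2.2 (Fin.cons (0, ⟨T, mem_orb R Q φ T⟩) fun j => (y j, 0))
  rw [hχ g hg.1, one_pow, one_pow, one_mul, one_mul] at h1
  rw [rs_apply, rs_apply, ← h1]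
  congr 1
  funext i
  refine Fin.cases ?_ (fun j => ?_) i
  · refine Prod.ext ?_ (Subtype.ext ?_)
    · change (0 : Y) = Q g 0
      rw [map_zero]
    · exact (hT g ⟨hg.1, hg.2.1⟩).symm
  · refine Prod.ext rfl (Subtype.ext ?_)
    change (0 : E) = trep R Q φ g (0 : E)
    rw [map_zero]

variable (ω : X →ₗ[K] X →ₗ[K] K) (hnd : ∀ u, (∀ v, ω u v = 0) → u = 0)
  (hωR : ∀ g u v, ω (R g u) (R g v) = χ g * ω u v) (hss : HasProj R)
  (halt : ∀ U, SI R U → AltDual R χ U)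

include hnd hωR hss halt in
theorem geo_even_of {m : ℕ} (φ : E ≃ₗ[K] MF K X Y (Fin m × Fin 2) (Fin l)) {T : E}
    {Γ₀ Δ : Subgroup Γ} (hΔ : Δ.FiniteIndex) (hχ : ∀ g ∈ Γ₀, χ g = 1)
    (hT : ∀ g ∈ Γ₀ ⊓ Δ, trep R Q φ g T = T) (hR : Rdy R χ (Q₂ R Q φ T)) :
    φ T ∈ Submodule.span K {T' : MF K X Y (Fin m × Fin 2) (Fin l) |
      ∃ P, IsProd {B | IsTate2 R χ B} P ∧ ∃ w ∈ {w | GY Q Γ₀ w}, ∀ v y, T' v y = P v * w y} := by
  have h2 := tens_even ω hnd hωR hss halt hR allS _ (T₂_inv R Q φ T χ)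
  rw [← rs_T₂ (R := R) (Q := Q) φ T]
  generalize T₂ R Q φ T = T' at h2
  induction h2 using Submodule.span_induction with
  | mem T' hT' =>
    obtain ⟨P, hP, w, hw, hTP⟩ := hT'
    refine Submodule.subset_span ⟨P, hP, rs _ ⟨T, mem_orb R Q φ T⟩ w, rs_gy φ hΔ hχ hT hw,
      fun v y => ?_⟩
    exact hTP v _
  | zero =>
    have h4 : (rs (orb R Q φ T) ⟨T, mem_orb R Q φ T⟩).compMultilinearMap
        (0 : MF K X (Y × orb R Q φ T) (Fin m × Fin 2) (Fin (l + 1))) = 0 :=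
      MultilinearMap.ext fun v => map_zero (rs (orb R Q φ T) ⟨T, mem_orb R Q φ T⟩)
    rw [h4]
    exact Submodule.zero_mem _
  | add T₁ T₂ _ _ h h' =>
    have h4 : (rs (orb R Q φ T) ⟨T, mem_orb R Q φ T⟩).compMultilinearMap (T₁ + T₂) =
        (rs (orb R Q φ T) ⟨T, mem_orb R Q φ T⟩).compMultilinearMap T₁ +
          (rs (orb R Q φ T) ⟨T, mem_orb R Q φ T⟩).compMultilinearMap T₂ :=
      MultilinearMap.ext fun v => map_add (rs (orb R Q φ T) ⟨T, mem_orb R Q φ T⟩) _ _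
    rw [h4]
    exact Submodule.add_mem _ h h'
  | smul a T₁ _ h =>
    have h4 : (rs (orb R Q φ T) ⟨T, mem_orb R Q φ T⟩).compMultilinearMap (a • T₁) =
        a • (rs (orb R Q φ T) ⟨T, mem_orb R Q φ T⟩).compMultilinearMap T₁ :=
      MultilinearMap.ext fun v => map_smul (rs (orb R Q φ T) ⟨T, mem_orb R Q φ T⟩) _ _
    rw [h4]
    exact Submodule.smul_mem _ _ h

include hnd hωR hss in
theorem geo_odd_of {k : ℕ} (hk : Odd k) (φ : E ≃ₗ[K] MF K X Y (Fin k) (Fin l)) {T : E}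
    (hR : Rdy R χ (Q₂ R Q φ T)) : φ T = 0 := by
  rw [← rs_T₂ (R := R) (Q := Q) φ T, tens_odd ω hnd hωR hss hR allS hk _ (T₂_inv R Q φ T χ)]
  exact MultilinearMap.ext fun v => map_zero (rs (orb R Q φ T) ⟨T, mem_orb R Q φ T⟩)

theorem exists_phi (K X Y κ : Type) [Field K] [AddCommGroup X] [Module K X] [FiniteDimensional K X]
    [AddCommGroup Y] [Module K Y] [FiniteDimensional K Y] [Fintype κ] (l : ℕ) :
    ∃ n : ℕ, Nonempty ((Fin n → K) ≃ₗ[K] MF K X Y κ (Fin l)) := by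
  classical
  have h1 : Module.Finite K (MF K X Y κ (Fin l)) := inferInstance
  have h2 : Module.Free K (MF K X Y κ (Fin l)) := inferInstance
  let b := Module.Free.chooseBasis K (MF K X Y κ (Fin l))
  let b' := b.reindex (Fintype.equivFin _)
  exact ⟨_, ⟨b'.equivFun.symm⟩⟩

end general

end

end Pool.Agent.Y224.AZ
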